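import Mathlib

/-!
# The main integral: from the chord to the arc
-/

set_option autoImplicit false

namespace Pool.Agent.N809.BP

open Complex MeasureTheory Finset Filter Topology
open scoped Real

/-- the main integral -/
noncomputable def I1 (S : ℝ) : ℝ := ∫ α in (-(π / 3))..(π / 3), Real.exp (2 * S * Real.cos α) * Real.cos α

lemma mem_ball_of {z : ℂ} (h1 : 1 / 2 ≤ z.re) (h2 : normSq z ≤ 1) : z ∈ Metric.ball (4 : ℂ) 3.9 := by
  rw [Metric.mem_ball, dist_eq_norm]
  have h3 : ‖z - 4‖ ^ 2 < 3.9 ^ 2 := by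
    rw [← Complex.normSq_eq_norm_sq, Complex.normSq_apply]
    rw [Complex.normSq_apply] at h2
    simp only [Complex.sub_re, Complex.sub_im]
    have e1 : (4 : ℂ).re = 4 := by simp
    have e2 : (4 : ℂ).im = 0 := by simp
    rw [e1, e2]
    nlinarith
  exact lt_of_pow_lt_pow_left₀ 2 (by norm_num) h3

lemma chord_eq (S : ℝ) : ∫ x in (-(√3 / 2))..(√3 / 2), cexp (S * ((1 / 2 + x * I)⁻¹ + (1 / 2 + x * I))) =
    (I1 S : ℂ) := by
  set f : ℂ → ℂ := fun z => cexp (S * (z⁻¹ + z)) with hf
  have hne : ∀ z ∈ Metric.ball (4 : ℂ) 3.9, z ≠ 0 := by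
    intro z hz h
    rw [h, Metric.mem_ball, dist_eq_norm] at hz
    have : ‖(0 : ℂ) - 4‖ = 4 := by simp
    rw [this] at hz
    norm_num at hz
  have hdiff : DifferentiableOn ℂ f (Metric.ball (4 : ℂ) 3.9) := by
    intro z hz
    have := hne z hz
    apply DifferentiableAt.differentiableWithinAt
    simp only [hf]
    fun_prop (disch := exact this)
  obtain ⟨g, hg⟩ := hdiff.isExactOn_ball
  have h3 : (√3 : ℝ) ^ 2 = 3 := Real.sq_sqrt (by norm_num)
  have h30 : (0 : ℝ) ≤ √3 := Real.sqrt_nonneg 3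
  -- the chord
  have c1 : ∫ x in (-(√3 / 2))..(√3 / 2), f (1 / 2 + x * I) * I =
      g (1 / 2 + ((√3 / 2 : ℝ) : ℂ) * I) - g (1 / 2 + ((-(√3 / 2) : ℝ) : ℂ) * I) := by
    have hmem : ∀ x ∈ Set.uIcc (-(√3 / 2)) (√3 / 2), (1 / 2 + (x : ℂ) * I) ∈ Metric.ball (4 : ℂ) 3.9 := by
      intro x hx
      rw [Set.uIcc_of_le (by linarith)] at hx
      apply mem_ball_of
      · have : (1 / 2 + (x : ℂ) * I).re = 1 / 2 := by
          rw [show (1 / 2 : ℂ) = ((1 / 2 : ℝ) : ℂ) by push_cast; rfl]
          simp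
        rw [this]
      · rw [show (1 / 2 : ℂ) = ((1 / 2 : ℝ) : ℂ) by push_cast; rfl, Complex.normSq_add_mul_I]
        nlinarith [hx.1, hx.2]
    refine intervalIntegral.integral_eq_sub_of_hasDerivAt (f := fun x : ℝ => g (1 / 2 + (x : ℂ) * I)) ?_ ?_
    · intro x hx
      have h1 : HasDerivAt (fun x : ℝ => (1 / 2 + (x : ℂ) * I)) I x := by
        have := ((hasDerivAt_id x).ofReal_comp.mul_const I).const_add (1 / 2 : ℂ)
        simpa using this
      exact (hg _ (hmem x hx)).comp x h1
    · apply ContinuousOn.intervalIntegrable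
      apply ContinuousOn.mul _ continuousOn_const
      refine hdiff.continuousOn.comp (by fun_prop) ?_
      intro x hx
      exact hmem x hx
  -- the arc
  have c2 : ∫ α in (-(π / 3))..(π / 3), f (cexp (α * I)) * (cexp (α * I) * I) =
      g (cexp (((π / 3 : ℝ) : ℂ) * I)) - g (cexp (((-(π / 3) : ℝ) : ℂ) * I)) := by
    have hmem : ∀ x ∈ Set.uIcc (-(π / 3)) (π / 3), cexp ((x : ℂ) * I) ∈ Metric.ball (4 : ℂ) 3.9 := by
      intro x hx
      have hpi := Real.pi_pos
      rw [Set.uIcc_of_le (by linarith)] at hx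
      apply mem_ball_of
      · rw [Complex.exp_ofReal_mul_I_re]
        rw [← Real.cos_abs, ← Real.cos_pi_div_three]
        apply Real.cos_le_cos_of_nonneg_of_le_pi (abs_nonneg x) (by linarith)
        exact abs_le.2 ⟨hx.1, hx.2⟩
      · rw [Complex.normSq_eq_norm_sq, Complex.norm_exp_ofReal_mul_I]
        norm_num
    refine intervalIntegral.integral_eq_sub_of_hasDerivAt (f := fun x : ℝ => g (cexp ((x : ℂ) * I))) ?_ ?_
    · intro x hx
      have h1 : HasDerivAt (fun x : ℝ => cexp ((x : ℂ) * I)) (cexp ((x : ℂ) * I) * I) x := by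
        have := (((hasDerivAt_id x).ofReal_comp.mul_const I)).cexp
        simpa using this
      exact (hg _ (hmem x hx)).comp x h1
    · apply ContinuousOn.intervalIntegrable
      apply ContinuousOn.mul
      · refine hdiff.continuousOn.comp (by fun_prop) ?_
        intro x hx
        exact hmem x hx
      · fun_prop
  have e1 : cexp (((π / 3 : ℝ) : ℂ) * I) = 1 / 2 + ((√3 / 2 : ℝ) : ℂ) * I := by
    rw [Complex.exp_mul_I, ← Complex.ofReal_cos, ← Complex.ofReal_sin, Real.cos_pi_div_three,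
      Real.sin_pi_div_three]
    push_cast
    ring
  have e2 : cexp (((-(π / 3) : ℝ) : ℂ) * I) = 1 / 2 + ((-(√3 / 2) : ℝ) : ℂ) * I := by
    rw [Complex.exp_mul_I, ← Complex.ofReal_cos, ← Complex.ofReal_sin, Real.cos_neg, Real.sin_neg,
      Real.cos_pi_div_three, Real.sin_pi_div_three]
    push_cast
    ring
  rw [e1, e2, ← c1] at c2
  have c3 : (∫ α in (-(π / 3))..(π / 3), f (cexp (α * I)) * (cexp (α * I) * I)) =
      (∫ α in (-(π / 3))..(π / 3), f (cexp (α * I)) * cexp (α * I)) * I := by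
    rw [← intervalIntegral.integral_mul_const]
    refine intervalIntegral.integral_congr fun α _ => ?_
    ring
  rw [c3, intervalIntegral.integral_mul_const] at c2
  have c4 := mul_right_cancel₀ I_ne_zero c2
  simp only [hf] at c4
  rw [← c4]
  have hfa : ∀ α : ℝ, cexp (S * ((cexp (α * I))⁻¹ + cexp (α * I))) * cexp (α * I) =
      ((Real.exp (2 * S * Real.cos α) * Real.cos α : ℝ) : ℂ) +
        ((Real.exp (2 * S * Real.cos α) * Real.sin α : ℝ) : ℂ) * I := by
    intro α
    have h1 : (cexp (α * I))⁻¹ + cexp (α * I) = ((2 * Real.cos α : ℝ) : ℂ) := by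
      rw [← Complex.exp_neg, ← neg_mul, Complex.exp_mul_I, Complex.exp_mul_I, Complex.cos_neg,
        Complex.sin_neg]
      push_cast
      ring
    have h2 : cexp (S * ((2 * Real.cos α : ℝ) : ℂ)) = ((Real.exp (2 * S * Real.cos α) : ℝ) : ℂ) := by
      rw [Complex.ofReal_exp]
      congr 1
      push_cast
      ring
    rw [h1, h2, Complex.exp_mul_I]
    push_cast
    ring
  simp_rw [hfa]
  rw [intervalIntegral.integral_add, intervalIntegral.integral_mul_const, intervalIntegral.integral_ofReal,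
    intervalIntegral.integral_ofReal]
  · have h0 : ∫ α in (-(π / 3))..(π / 3), Real.exp (2 * S * Real.cos α) * Real.sin α = 0 := by
      have h1 := intervalIntegral.integral_comp_neg (a := -(π / 3)) (b := π / 3)
        (fun α => Real.exp (2 * S * Real.cos α) * Real.sin α)
      simp only [Real.cos_neg, Real.sin_neg, neg_neg, mul_neg, intervalIntegral.integral_neg] at h1
      linarith
    rw [h0]
    simp [I1]
  · apply Continuous.intervalIntegrable
    fun_prop
  · apply Continuous.intervalIntegrable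
    fun_prop

lemma exp_quad {x : ℝ} (h0 : 0 ≤ x) (h1 : x ≤ 1.1) : Real.exp (-(0.8 * x)) ≤ 1 - x / 2 := by
  rw [Real.exp_neg, ← one_div, div_le_iff₀ (Real.exp_pos _)]
  have h2 := Real.quadratic_le_exp_of_nonneg (x := 0.8 * x) (by positivity)
  have h3 : 1 ≤ (1 - x / 2) * (1 + 0.8 * x + (0.8 * x) ^ 2 / 2) := by
    nlinarith [mul_nonneg h0 (sub_nonneg.2 h1), mul_nonneg (mul_nonneg h0 h0) (sub_nonneg.2 h1)]
  refine h3.trans ?_
  apply mul_le_mul_of_nonneg_left h2 (by linarith)

lemma I1_integrand {S α : ℝ} (hS : 0 ≤ S) (hα : |α| ≤ π / 3) :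
    Real.exp (2 * S) * Real.exp (-(S + 0.8) * α ^ 2) ≤ Real.exp (2 * S * Real.cos α) * Real.cos α := by
  have h1 := Real.one_sub_sq_div_two_le_cos (x := α)
  have hpi := Real.pi_lt_d4
  have h2 : α ^ 2 ≤ 1.1 := by
    rw [← sq_abs]
    have := abs_nonneg α
    nlinarith
  have h3 := exp_quad (sq_nonneg α) h2
  have h4 : Real.exp (2 * S - S * α ^ 2) ≤ Real.exp (2 * S * Real.cos α) := by
    apply Real.exp_le_exp.2
    nlinarith
  calc Real.exp (2 * S) * Real.exp (-(S + 0.8) * α ^ 2)
      = Real.exp (2 * S - S * α ^ 2) * Real.exp (-(0.8 * α ^ 2)) := by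
        rw [← Real.exp_add, ← Real.exp_add]
        congr 1
        ring
    _ ≤ Real.exp (2 * S * Real.cos α) * Real.cos α := by
        apply mul_le_mul h4 (h3.trans h1) (Real.exp_pos _).le (Real.exp_pos _).le

theorem I1_ge {S : ℝ} (hS : 1 ≤ S) : Real.exp (2 * S) * (√(π / (S + 0.8)) -
    Real.exp (-((S - 0.2) * (π / 3) ^ 2)) * √π) ≤ I1 S := by
  have hpi := Real.pi_pos
  have hT : 0 < S + 0.8 := by linarith
  have h1 : ∫ α in (-(π / 3))..(π / 3), Real.exp (2 * S) * Real.exp (-(S + 0.8) * α ^ 2) ≤ I1 S := by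
    unfold I1
    apply intervalIntegral.integral_mono_on (by linarith)
    · apply Continuous.intervalIntegrable
      fun_prop
    · apply Continuous.intervalIntegrable
      fun_prop
    · intro α hα
      exact I1_integrand (by linarith) (abs_le.2 hα)
  refine le_trans ?_ h1
  rw [intervalIntegral.integral_const_mul]
  apply mul_le_mul_of_nonneg_left _ (Real.exp_pos _).le
  have hgi : Integrable (fun α : ℝ => Real.exp (-(S + 0.8) * α ^ 2)) := integrable_exp_neg_mul_sq hT
  have hg1 : Integrable (fun α : ℝ => Real.exp (-1 * α ^ 2)) := integrable_exp_neg_mul_sq one_pos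
  have h2 := integral_add_compl (s := Set.Ioc (-(π / 3)) (π / 3)) measurableSet_Ioc hgi
  have h3 : ∫ α in (Set.Ioc (-(π / 3)) (π / 3))ᶜ, Real.exp (-(S + 0.8) * α ^ 2) ≤
      Real.exp (-((S - 0.2) * (π / 3) ^ 2)) * √π := by
    have h4 : ∫ α in (Set.Ioc (-(π / 3)) (π / 3))ᶜ, Real.exp (-(S + 0.8) * α ^ 2) ≤
        ∫ α in (Set.Ioc (-(π / 3)) (π / 3))ᶜ,
          Real.exp (-((S - 0.2) * (π / 3) ^ 2)) * Real.exp (-1 * α ^ 2) := by
      apply setIntegral_mono_on hgi.integrableOn (hg1.const_mul _).integrableOn measurableSet_Ioc.compl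
      intro α hα
      have hτ2 : (π / 3) ^ 2 ≤ α ^ 2 := by
        rw [Set.mem_compl_iff, Set.mem_Ioc, not_and_or] at hα
        rcases hα with h | h
        · push Not at h
          nlinarith
        · push Not at h
          nlinarith
      rw [← Real.exp_add]
      apply Real.exp_le_exp.2
      nlinarith
    refine h4.trans ?_
    rw [integral_const_mul]
    apply mul_le_mul_of_nonneg_left _ (Real.exp_pos _).le
    have h5 : ∫ α : ℝ, Real.exp (-1 * α ^ 2) = √π := by
      rw [integral_gaussian, div_one]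
    rw [← h5]
    exact setIntegral_le_integral hg1 (Eventually.of_forall fun τ => (Real.exp_pos _).le)
  rw [integral_gaussian, ← intervalIntegral.integral_of_le (by linarith)] at h2
  linarith

end Pool.Agent.N809.BP
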