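import Pool.Agent.N809.BP.CheckDefs

/-!
# The finite check: the real sequences
-/

set_option autoImplicit false

namespace Pool.Agent.N809.BP

open Finset

/-- convolution with the sums of divisors -/
noncomputable def convR (a : ℕ → ℝ) (n : ℕ) : ℝ := ∑ k ∈ range (n + 1), (sk (k + 1) : ℝ) * a (n - k)

lemma convR_add (a b : ℕ → ℝ) (n : ℕ) : convR (fun i => a i + b i) n = convR a n + convR b n := by
  unfold convR
  rw [← Finset.sum_add_distrib]
  exact Finset.sum_congr rfl fun k _ => by ring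

lemma convR_sub (a b : ℕ → ℝ) (n : ℕ) : convR (fun i => a i - b i) n = convR a n - convR b n := by
  unfold convR
  rw [← Finset.sum_sub_distrib]
  exact Finset.sum_congr rfl fun k _ => by ring

lemma convR_mul (a : ℕ → ℝ) (c : ℝ) (n : ℕ) : convR (fun i => a i * c) n = convR a n * c := by
  unfold convR
  rw [Finset.sum_mul]
  exact Finset.sum_congr rfl fun k _ => by ring

lemma sum_sq_eight (n : ℕ) : ∑ k ∈ range (n + 1), ((k : ℝ) + 1) ^ 2 * 8 ^ (n - k) =
    576 / 343 * 8 ^ n - (((n : ℝ) + 1) ^ 2 / 7 + 16 * ((n : ℝ) + 1) / 49 + 72 / 343) := by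
  induction n with
  | zero => norm_num
  | succ n ih =>
    rw [Finset.sum_range_succ]
    have h1 : ∑ k ∈ range (n + 1), ((k : ℝ) + 1) ^ 2 * 8 ^ (n + 1 - k) =
        8 * ∑ k ∈ range (n + 1), ((k : ℝ) + 1) ^ 2 * 8 ^ (n - k) := by
      rw [Finset.mul_sum]
      refine Finset.sum_congr rfl fun k hk => ?_
      have hk' : n + 1 - k = (n - k) + 1 := by
        have := Finset.mem_range.mp hk
        omega
      rw [hk', pow_succ]
      ring
    rw [h1, ih, Nat.sub_self, pow_zero, pow_succ]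
    push_cast
    ring

lemma sum_sk_eight (n : ℕ) : ∑ k ∈ range (n + 1), (sk (k + 1) : ℝ) * 8 ^ (n - k) ≤ 7 / 4 * 8 ^ n := by
  have h1 : ∑ k ∈ range (n + 1), (sk (k + 1) : ℝ) * 8 ^ (n - k) ≤
      ∑ k ∈ range (n + 1), ((k : ℝ) + 1) ^ 2 * 8 ^ (n - k) := by
    refine Finset.sum_le_sum fun k _ => ?_
    gcongr
    exact_mod_cast sk_le_sq k
  have h2 : (0 : ℝ) < 8 ^ n := by positivity
  have h3 := sum_sq_eight n
  have h4 : (0 : ℝ) ≤ n := Nat.cast_nonneg n
  nlinarith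

lemma convR_le {a : ℕ → ℝ} {n : ℕ} {c : ℝ} (hc : 0 ≤ c) (h : ∀ i ≤ n, |a i| ≤ c * 8 ^ i) :
    |convR a n| ≤ c * (7 / 4 * 8 ^ n) := by
  unfold convR
  calc |∑ k ∈ range (n + 1), (sk (k + 1) : ℝ) * a (n - k)|
      ≤ ∑ k ∈ range (n + 1), |(sk (k + 1) : ℝ) * a (n - k)| := Finset.abs_sum_le_sum_abs _ _
    _ ≤ ∑ k ∈ range (n + 1), c * ((sk (k + 1) : ℝ) * 8 ^ (n - k)) := by
        refine Finset.sum_le_sum fun k _ => ?_
        rw [abs_mul, abs_of_nonneg (Nat.cast_nonneg _ : (0 : ℝ) ≤ (sk (k + 1) : ℝ))]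
        have := h (n - k) (Nat.sub_le _ _)
        have h2 : (0 : ℝ) ≤ (sk (k + 1) : ℝ) := Nat.cast_nonneg _
        nlinarith
    _ = c * ∑ k ∈ range (n + 1), (sk (k + 1) : ℝ) * 8 ^ (n - k) := by rw [Finset.mul_sum]
    _ ≤ c * (7 / 4 * 8 ^ n) := by
        gcongr
        exact sum_sk_eight n

/-- the solution of `(n+1) a(n+1) = - (d0 * conv a n + g n)` -/
noncomputable def sq (d0 : ℝ) (g : ℕ → ℝ) (c0 : ℝ) : ℕ → ℝ
  | 0 => c0
  | n + 1 => -(d0 * (∑ k : Fin (n + 1), (sk ((k : ℕ) + 1) : ℝ) * sq d0 g c0 (n - k)) + g n) / ((n : ℝ) + 1)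

lemma sq_zero (d0 : ℝ) (g : ℕ → ℝ) (c0 : ℝ) : sq d0 g c0 0 = c0 := by rw [sq]

lemma sq_succ (d0 : ℝ) (g : ℕ → ℝ) (c0 : ℝ) (n : ℕ) :
    ((n : ℝ) + 1) * sq d0 g c0 (n + 1) = -(d0 * convR (sq d0 g c0) n + g n) := by
  have hn : ((n : ℝ) + 1) ≠ 0 := by exact_mod_cast Nat.succ_ne_zero n
  rw [sq, convR, Finset.sum_range (fun k => (sk (k + 1) : ℝ) * sq d0 g c0 (n - k))]
  field_simp

/-- the rows: `TT 0 = 0`, `TT (k+1)` is the coefficient of `τ^k` in `cf (d0 + h τ)` -/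
noncomputable def TT (d0 h : ℝ) : ℕ → ℕ → ℝ
  | 0 => fun _ => 0
  | k + 1 => sq d0 (fun n => h * convR (TT d0 h k) n) (if k = 0 then 1 else 0)

lemma TT_succ (d0 h : ℝ) (k : ℕ) :
    TT d0 h (k + 1) = sq d0 (fun n => h * convR (TT d0 h k) n) (if k = 0 then 1 else 0) := rfl

lemma sq_le {d0 h : ℝ} (hd : 0 ≤ d0) (hh : 0 ≤ h) (h4 : d0 + h ≤ 4) {T : ℕ → ℝ} (hT : ∀ n, |T n| ≤ 8 ^ n)
    {e : ℝ} (he : |e| ≤ 1) (n : ℕ) : |sq d0 (fun n => h * convR T n) e n| ≤ 8 ^ n := by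
  induction n using Nat.strong_induction_on with
  | _ n ih =>
    rcases Nat.eq_zero_or_pos n with rfl | hn
    · rw [sq_zero, pow_zero]
      exact he
    · obtain ⟨m, rfl⟩ : ∃ m, n = m + 1 := ⟨n - 1, by omega⟩
      have h1 := sq_succ d0 (fun n => h * convR T n) e m
      have h2 : |convR (sq d0 (fun n => h * convR T n) e) m| ≤ 1 * (7 / 4 * 8 ^ m) :=
        convR_le (by norm_num) fun i hi => by
          rw [one_mul]
          exact ih i (by omega)
      have h3 : |convR T m| ≤ 1 * (7 / 4 * 8 ^ m) :=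
        convR_le (by norm_num) fun i _ => by
          rw [one_mul]
          exact hT i
      have hm : (0 : ℝ) ≤ m := Nat.cast_nonneg m
      have h5 : ((m : ℝ) + 1) * |sq d0 (fun n => h * convR T n) e (m + 1)| ≤
          (d0 + h) * (7 / 4 * 8 ^ m) := by
        have h8 : ((m : ℝ) + 1) * |sq d0 (fun n => h * convR T n) e (m + 1)| =
            |((m : ℝ) + 1) * sq d0 (fun n => h * convR T n) e (m + 1)| := by
          rw [abs_mul, abs_of_pos (by linarith : (0 : ℝ) < (m : ℝ) + 1)]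
        rw [h8, h1, abs_neg]
        refine (abs_add_le _ _).trans ?_
        rw [abs_mul, abs_mul, abs_of_nonneg hd, abs_of_nonneg hh]
        nlinarith
      have h6 : (0 : ℝ) < 8 ^ m := by positivity
      have h7 : |sq d0 (fun n => h * convR T n) e (m + 1)| ≤
          ((m : ℝ) + 1) * |sq d0 (fun n => h * convR T n) e (m + 1)| := by
        have := abs_nonneg (sq d0 (fun n => h * convR T n) e (m + 1))
        nlinarith
      rw [pow_succ]
      nlinarith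

lemma TT_le {d0 h : ℝ} (hd : 0 ≤ d0) (hh : 0 ≤ h) (h4 : d0 + h ≤ 4) (k n : ℕ) :
    |TT d0 h k n| ≤ 8 ^ n := by
  induction k generalizing n with
  | zero => simp [TT]
  | succ k ih =>
    rw [TT_succ]
    refine sq_le hd hh h4 ih ?_ n
    split_ifs <;> norm_num

/-- the partial sums -/
noncomputable def PS (d0 h τ : ℝ) (K n : ℕ) : ℝ := ∑ k ∈ range K, TT d0 h (k + 1) n * τ ^ k

lemma PS_succ (d0 h τ : ℝ) (K n : ℕ) : PS d0 h τ (K + 1) n = PS d0 h τ K n + TT d0 h (K + 1) n * τ ^ K := by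
  unfold PS
  rw [Finset.sum_range_succ]

lemma PS_rec (d0 h τ : ℝ) (K n : ℕ) :
    ((n : ℝ) + 1) * PS d0 h τ K (n + 1) =
      -((d0 + h * τ) * convR (PS d0 h τ K) n) + h * convR (TT d0 h K) n * τ ^ K := by
  induction K with
  | zero =>
    have h1 : PS d0 h τ 0 = fun _ => 0 := by
      funext i
      simp [PS]
    have h2 : convR (fun _ => 0) n = 0 := by simp [convR]
    have h3 : TT d0 h 0 = fun _ => 0 := rfl
    rw [h1, h3, h2]
    simp
  | succ K ih =>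
    have h1 : convR (PS d0 h τ (K + 1)) n = convR (PS d0 h τ K) n + convR (TT d0 h (K + 1)) n * τ ^ K := by
      rw [show PS d0 h τ (K + 1) = fun i => PS d0 h τ K i + TT d0 h (K + 1) i * τ ^ K from
        funext fun i => PS_succ d0 h τ K i, convR_add, convR_mul]
    have h2 := sq_succ d0 (fun n => h * convR (TT d0 h K) n) (if K = 0 then 1 else 0) n
    rw [← TT_succ] at h2
    rw [PS_succ, mul_add, ih, h1, ← mul_assoc, h2]
    ring

lemma cf_rec (d : ℝ) (n : ℕ) : ((n : ℝ) + 1) * cf d (n + 1) = -(d * convR (cf d) n) := by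
  rw [cf_succ, convR]
  ring

lemma D_rec (d0 h τ : ℝ) (K n : ℕ) :
    ((n : ℝ) + 1) * (cf (d0 + h * τ) (n + 1) - PS d0 h τ K (n + 1)) =
      -((d0 + h * τ) * convR (fun i => cf (d0 + h * τ) i - PS d0 h τ K i) n) -
        h * convR (TT d0 h K) n * τ ^ K := by
  rw [mul_sub, cf_rec, PS_rec, convR_sub]
  ring

lemma D_zero (d0 h τ : ℝ) (K : ℕ) : cf (d0 + h * τ) 0 - PS d0 h τ (K + 1) 0 = 0 := by
  rw [cf_zero, PS, Finset.sum_range_succ']
  have h1 : ∀ k ∈ range K, TT d0 h (k + 1 + 1) 0 * τ ^ (k + 1) = 0 := fun k _ => by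
    rw [TT_succ, sq_zero, if_neg (Nat.succ_ne_zero k), zero_mul]
  rw [Finset.sum_eq_zero h1, TT_succ, sq_zero]
  simp

end Pool.Agent.N809.BP
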