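import Pool.Agent.N809.BP.Check

/-!
# The finite check: soundness
-/

set_option autoImplicit false

namespace Pool.Agent.N809.BP

open Finset

/-- `[f n, f (n+1), ..., f (n+m-1)]` -/
def fwd (f : ℕ → ℕ) : ℕ → ℕ → List ℕ
  | _, 0 => []
  | n, m + 1 => f n :: fwd f (n + 1) m

/-- `[f n, ..., f 0]` -/
def revL (f : ℕ → ℕ) : ℕ → List ℕ
  | 0 => [f 0]
  | n + 1 => f (n + 1) :: revL f n

/-- `[f (n-1), ..., f 0]` -/
def revM (f : ℕ → ℕ) : ℕ → List ℕ
  | 0 => []
  | n + 1 => f n :: revM f n

lemma fwd_append (f : ℕ → ℕ) (n m : ℕ) : fwd f n m ++ [f (n + m)] = fwd f n (m + 1) := by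
  induction m generalizing n with
  | zero => simp [fwd]
  | succ m ih =>
    rw [fwd, List.cons_append, show n + (m + 1) = (n + 1) + m by ring, ih (n + 1)]
    rw [fwd.eq_2 f n (m + 1)]

lemma revM_reverse (f : ℕ → ℕ) (n : ℕ) : (revM f n).reverse = fwd f 0 n := by
  induction n with
  | zero => simp [revM, fwd]
  | succ n ih =>
    rw [revM, List.reverse_cons, ih]
    have := fwd_append f 0 n
    rwa [zero_add] at this

lemma revL_eq (f : ℕ → ℕ) (n : ℕ) : revL f n = revM f (n + 1) := by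
  induction n with
  | zero => rfl
  | succ n ih => rw [revL, ih]; rfl

lemma fwd_congr {f g : ℕ → ℕ} (n m : ℕ) (h : ∀ i, n ≤ i → i < n + m → f i = g i) :
    fwd f n m = fwd g n m := by
  induction m generalizing n with
  | zero => rfl
  | succ m ih =>
    rw [fwd, fwd, h n le_rfl (by omega), ih (n + 1) (fun i h1 h2 => h i (by omega) (by omega))]

lemma fwd_map (f : ℕ → ℕ) (g : ℕ → ℕ) (n m : ℕ) : (fwd f n m).map g = fwd (fun i => g (f i)) n m := by
  induction m generalizing n with
  | zero => rfl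
  | succ m ih => rw [fwd, fwd, List.map_cons, ih]

lemma fwd_zipWith (f g : ℕ → ℕ) (F : ℕ → ℕ → ℕ) (n m : ℕ) :
    List.zipWith F (fwd f n m) (fwd g n m) = fwd (fun i => F (f i) (g i)) n m := by
  induction m generalizing n with
  | zero => rfl
  | succ m ih => rw [fwd, fwd, fwd, List.zipWith_cons_cons, ih]

lemma fwd_replicate (n m c : ℕ) : List.replicate m c = fwd (fun _ => c) n m := by
  induction m generalizing n with
  | zero => rfl
  | succ m ih => rw [fwd, List.replicate_succ, ih (n + 1)]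

lemma take_eq_fwd (l : List ℕ) (n N : ℕ) (h : N ≤ l.length) :
    l.take N = fwd (fun i => l.getD (i - n) 0) n N := by
  induction N generalizing l n with
  | zero => simp [fwd]
  | succ N ih =>
    cases l with
    | nil => simp at h
    | cons a l =>
      rw [List.take_succ_cons, fwd, ih l (n + 1) (by simpa using h)]
      congr 1
      · simp
      · refine fwd_congr _ _ fun i h1 _ => ?_
        rw [show i - n = (i - (n + 1)) + 1 by omega, List.getD_cons_succ]

lemma dot_revL (l : List ℕ) (f : ℕ → ℕ) (n : ℕ) (h : n + 1 ≤ l.length) :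
    dot l (revL f n) = ∑ k ∈ range (n + 1), l.getD k 0 * f (n - k) := by
  induction n generalizing l with
  | zero =>
    cases l with
    | nil => simp at h
    | cons a l => simp [revL, dot]
  | succ n ih =>
    cases l with
    | nil => simp at h
    | cons a l =>
      rw [revL, dot, ih l (by simpa using h), Finset.sum_range_succ' _ (n + 1)]
      simp only [List.getD_cons_succ, List.getD_cons_zero, Nat.sub_zero, Nat.add_sub_add_right,
        Nat.mul_eq, Nat.add_eq]
      rw [add_comm]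

lemma sksL_length : sksL.length = 313 := by decide +kernel
lemma sigL_length : sigL.length = 313 := by decide +kernel

set_option maxRecDepth 100000 in
lemma sksL_get : ∀ k < 313, sksL.getD k 0 = sk (k + 1) := by
  unfold sk
  decide +kernel

/-- the partial sums of `sk (k+1)` -/
def sgm (n : ℕ) : ℕ := ∑ k ∈ range (n + 1), sk (k + 1)

set_option maxRecDepth 100000 in
lemma sigL_step : ∀ n < 312, sigL.getD (n + 1) 0 = sigL.getD n 0 + sksL.getD (n + 1) 0 := by
  decide +kernel

lemma sigL_get (n : ℕ) (hn : n < 313) : sigL.getD n 0 = sgm n := by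
  induction n with
  | zero =>
    rw [sgm, Finset.sum_range_one, ← sksL_get 0 (by norm_num)]
    rfl
  | succ n ih =>
    rw [sigL_step n (by omega), ih (by omega), sksL_get (n + 1) hn]
    unfold sgm
    rw [Finset.sum_range_succ _ (n + 1)]

lemma sigL_take {N : ℕ} (hN : N ≤ 312) : sigL.take N = fwd sgm 0 N := by
  rw [take_eq_fwd sigL 0 N (by rw [sigL_length]; omega)]
  refine fwd_congr _ _ fun i _ h => ?_
  rw [Nat.sub_zero]
  exact sigL_get i (by omega)

/-- the reversed list of the row with source `w` and initial value `c0` -/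
def rowL (P Q R C c0 : ℕ) (w : ℕ → ℕ) : ℕ → List ℕ
  | 0 => [c0]
  | n + 1 => ((C * (Q * (n + 1) + sgm n * (P + R)) - P * dot sksL (rowL P Q R C c0 w n) - R * w n) /
      (Q * (n + 1))) :: rowL P Q R C c0 w n

/-- the row as a function -/
def rowX (P Q R C c0 : ℕ) (w : ℕ → ℕ) (n : ℕ) : ℕ := (rowL P Q R C c0 w n).headD 0

lemma rowL_eq (P Q R C c0 : ℕ) (w : ℕ → ℕ) (n : ℕ) :
    rowL P Q R C c0 w n = revL (rowX P Q R C c0 w) n := by
  induction n with
  | zero => rfl
  | succ n ih =>
    rw [revL, ← ih, rowX, rowL]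
    simp

/-- its convolution -/
def rowW (P Q R C c0 : ℕ) (w : ℕ → ℕ) (n : ℕ) : ℕ := dot sksL (rowL P Q R C c0 w n)

lemma rowX_zero (P Q R C c0 : ℕ) (w : ℕ → ℕ) : rowX P Q R C c0 w 0 = c0 := rfl

lemma rowX_succ (P Q R C c0 : ℕ) (w : ℕ → ℕ) (n : ℕ) :
    rowX P Q R C c0 w (n + 1) =
      (C * (Q * (n + 1) + sgm n * (P + R)) - P * rowW P Q R C c0 w n - R * w n) / (Q * (n + 1)) := by
  rw [rowX, rowL, rowW]
  rfl

lemma rowW_eq (P Q R C c0 : ℕ) (w : ℕ → ℕ) (n : ℕ) (hn : n < 313) :
    rowW P Q R C c0 w n = ∑ k ∈ range (n + 1), sk (k + 1) * rowX P Q R C c0 w (n - k) := by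
  rw [rowW, rowL_eq, dot_revL _ _ _ (by rw [sksL_length]; omega)]
  refine Finset.sum_congr rfl fun k hk => ?_
  rw [sksL_get k (by have := Finset.mem_range.mp hk; omega)]

lemma stage_eq (P Q R C c0 : ℕ) (w : ℕ → ℕ) (m n : ℕ) :
    stage sksL P Q R C (fwd w n m) (fwd sgm n m) n (rowL P Q R C c0 w n) (revM (rowW P Q R C c0 w) n) =
      (rowL P Q R C c0 w (n + m), revM (rowW P Q R C c0 w) (n + m)) := by
  induction m generalizing n with
  | zero => rfl
  | succ m ih =>
    rw [fwd, fwd, stage, force_eq, force_eq, force_eq]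
    have h := ih (n + 1)
    rw [show n + 1 + m = n + (m + 1) by ring] at h
    exact h

/-- the row of the remainder, reversed -/
def zL (P Q R C : ℕ) (w : ℕ → ℕ) : ℕ → List ℕ
  | 0 => [0]
  | n + 1 => (((P + R) * dot sksL (zL P Q R C w n) +
      R * ((w n - C * sgm n) + (C * sgm n - w n) + 8 * 8 ^ n)) / (Q * (n + 1)) + 1) :: zL P Q R C w n

/-- as a function -/
def zX (P Q R C : ℕ) (w : ℕ → ℕ) (n : ℕ) : ℕ := (zL P Q R C w n).headD 0

lemma zL_eq (P Q R C : ℕ) (w : ℕ → ℕ) (n : ℕ) : zL P Q R C w n = revL (zX P Q R C w) n := by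
  induction n with
  | zero => rfl
  | succ n ih =>
    rw [revL, ← ih, zX, zL]
    simp

lemma zX_succ (P Q R C : ℕ) (w : ℕ → ℕ) (n : ℕ) (hn : n < 313) :
    zX P Q R C w (n + 1) = ((P + R) * (∑ k ∈ range (n + 1), sk (k + 1) * zX P Q R C w (n - k)) +
      R * ((w n - C * sgm n) + (C * sgm n - w n) + 8 * 8 ^ n)) / (Q * (n + 1)) + 1 := by
  have h : dot sksL (zL P Q R C w n) = ∑ k ∈ range (n + 1), sk (k + 1) * zX P Q R C w (n - k) := by
    rw [zL_eq, dot_revL _ _ _ (by rw [sksL_length]; omega)]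
    refine Finset.sum_congr rfl fun k hk => ?_
    rw [sksL_get k (by have := Finset.mem_range.mp hk; omega)]
  rw [← h, zX, zL]
  rfl

lemma estage_eq (P Q R C : ℕ) (w : ℕ → ℕ) (m n : ℕ) :
    estage sksL P Q R C (fwd w n m) (fwd sgm n m) n (8 ^ n) (zL P Q R C w n) =
      zL P Q R C w (n + m) := by
  induction m generalizing n with
  | zero => rfl
  | succ m ih =>
    rw [fwd, fwd, estage, force_eq, force_eq, force_eq, force_eq]
    have h := ih (n + 1)
    rw [show n + 1 + m = n + (m + 1) by ring, show 8 ^ (n + 1) = 8 * 8 ^ n by ring] at h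
    exact h

lemma fin_spec (cls : ℕ → ℕ) (C K1 : ℕ) (x s z : ℕ → ℕ) (m n : ℕ)
    (h : fin cls C K1 n (8 ^ n) (fwd x n m) (fwd s n m) (fwd z n m) = true) :
    ∀ i, n ≤ i → i < n + m →
      (cls i = 1 → C + (s i + K1 * 8 ^ i + z i) ≤ x i) ∧
      (2 ≤ cls i → x i + (s i + K1 * 8 ^ i + z i) ≤ C) := by
  induction m generalizing n with
  | zero =>
    intro i h1 h2
    omega
  | succ m ih =>
    intro i h1 h2
    rw [fwd, fwd, fwd, fin, force_eq, force_eq, show 8 * 8 ^ n = 8 ^ (n + 1) by ring,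
      Bool.and_eq_true] at h
    rcases Nat.eq_or_lt_of_le h1 with rfl | h3
    · refine ⟨fun h4 => ?_, fun h4 => ?_⟩
      · have h5 := h.1
        rw [h4] at h5
        exact Nat.le_of_ble_eq_true h5
      · have h5 := h.1
        rcases hc : cls n with _ | _ | c
        · omega
        · omega
        · rw [hc] at h5
          exact Nat.le_of_ble_eq_true h5
    · exact ih (n + 1) h.2 i (by omega) (by omega)

end Pool.Agent.N809.BP
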