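import Pool.Agent.N809.BP.Check2

/-!
# The finite check: soundness of the rows
-/

set_option autoImplicit false

namespace Pool.Agent.N809.BP

open Finset

/-- `w` approximates `M conv T + C sgm` for `n < N` -/
def ApproxW (C M N : ℕ) (w : ℕ → ℕ) (T : ℕ → ℝ) : Prop :=
  ∀ n < N, |(w n : ℝ) - (M * convR T n + C * sgm n)| ≤ 7 / 4 * 8 ^ n

/-- `x` approximates `M T + C` for `n ≤ N` -/
def ApproxX (C M N : ℕ) (x : ℕ → ℕ) (T : ℕ → ℝ) : Prop :=
  ∀ n ≤ N, |(x n : ℝ) - (M * T n + C)| ≤ 8 ^ n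

lemma sgm_cast (n : ℕ) : (sgm n : ℝ) = ∑ k ∈ range (n + 1), (sk (k + 1) : ℝ) := by
  rw [sgm]
  push_cast
  rfl

lemma conv_approx {C M : ℕ} {x : ℕ → ℕ} {T : ℕ → ℝ} {n : ℕ}
    (h : ∀ i ≤ n, |(x i : ℝ) - (M * T i + C)| ≤ 8 ^ i) :
    |((∑ k ∈ range (n + 1), sk (k + 1) * x (n - k) : ℕ) : ℝ) - (M * convR T n + C * sgm n)| ≤
      7 / 4 * 8 ^ n := by
  have h1 : ((∑ k ∈ range (n + 1), sk (k + 1) * x (n - k) : ℕ) : ℝ) - (M * convR T n + C * sgm n) =
      convR (fun i => (x i : ℝ) - (M * T i + C)) n := by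
    rw [sgm_cast, convR, convR]
    push_cast
    rw [Finset.mul_sum, Finset.mul_sum, ← Finset.sum_add_distrib, ← Finset.sum_sub_distrib]
    exact Finset.sum_congr rfl fun k _ => by ring
  rw [h1]
  have h2 := convR_le (a := fun i => (x i : ℝ) - (M * T i + C)) (n := n) (c := 1) (by norm_num)
    (fun i hi => by rw [one_mul]; exact h i hi)
  rwa [one_mul] at h2

lemma row_approx {P Q R C M N c0 : ℕ} (hQ : 0 < Q) (hPR : P + R ≤ 4 * Q) (hN : N ≤ 312)
    (hC : (M + 1) * 8 ^ (N + 1) ≤ C) {e : ℝ} (he : |e| ≤ 1) (hc0 : (c0 : ℝ) = M * e + C)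
    {T : ℕ → ℝ} (hT : ∀ n, |T n| ≤ 8 ^ n) {w : ℕ → ℕ} (hw : ApproxW C M N w T) :
    ApproxX C M N (rowX P Q R C c0 w) (sq ((P : ℝ) / Q) (fun n => (R : ℝ) / Q * convR T n) e) := by
  set T' := sq ((P : ℝ) / Q) (fun n => (R : ℝ) / Q * convR T n) e with hT'
  have hQ' : (0 : ℝ) < Q := by exact_mod_cast hQ
  have hPR' : (P : ℝ) / Q + (R : ℝ) / Q ≤ 4 := by
    rw [← add_div, div_le_iff₀ hQ']
    exact_mod_cast hPR
  have hT'b : ∀ n, |T' n| ≤ 8 ^ n := fun n => sq_le (by positivity) (by positivity) hPR' hT he n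
  intro n
  induction n using Nat.strong_induction_on with
  | _ n ih =>
    intro hn
    rcases Nat.eq_zero_or_pos n with rfl | hn0
    · rw [rowX_zero, hT', sq_zero, hc0]
      simp
    · obtain ⟨m, rfl⟩ : ∃ m, n = m + 1 := ⟨n - 1, by omega⟩
      have h1 : |((rowW P Q R C c0 w m : ℕ) : ℝ) - (M * convR T' m + C * sgm m)| ≤ 7 / 4 * 8 ^ m := by
        rw [rowW_eq _ _ _ _ _ _ _ (by omega)]
        exact conv_approx fun i hi => ih i (by omega) (by omega)
      have h2 := hw m (by omega)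
      have h3 := sq_succ ((P : ℝ) / Q) (fun n => (R : ℝ) / Q * convR T n) e m
      rw [← hT'] at h3
      have h4 : |convR T' m| ≤ 1 * (7 / 4 * 8 ^ m) :=
        convR_le (by norm_num) fun i _ => by
          rw [one_mul]
          exact hT'b i
      have h5 : |convR T m| ≤ 1 * (7 / 4 * 8 ^ m) :=
        convR_le (by norm_num) fun i _ => by
          rw [one_mul]
          exact hT i
      rw [one_mul] at h4 h5
      set W' : ℝ := ((rowW P Q R C c0 w m : ℕ) : ℝ) with hW'
      set ww : ℝ := (w m : ℝ) with hww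
      have hP : (0 : ℝ) ≤ P := Nat.cast_nonneg P
      have hR : (0 : ℝ) ≤ R := Nat.cast_nonneg R
      have hM : (0 : ℝ) ≤ M := Nat.cast_nonneg M
      have hm : (0 : ℝ) ≤ m := Nat.cast_nonneg m
      have h8 : (0 : ℝ) < 8 ^ m := by positivity
      have hPRr : (P : ℝ) + R ≤ 4 * Q := by exact_mod_cast hPR
      obtain ⟨a1, a2⟩ := abs_le.mp h1
      obtain ⟨b1, b2⟩ := abs_le.mp h2
      obtain ⟨c1, c2⟩ := abs_le.mp h4
      obtain ⟨d1, d2⟩ := abs_le.mp h5
      -- the natural subtraction does not truncate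
      have hCr : ((M : ℝ) + 1) * (8 * 8 ^ m) ≤ C := by
        have h9 : (M + 1) * 8 ^ (m + 1) ≤ C :=
          le_trans (Nat.mul_le_mul_left _ (Nat.pow_le_pow_right (by norm_num) (by omega))) hC
        have h10 : ((M : ℝ) + 1) * 8 ^ (m + 1) ≤ C := by exact_mod_cast h9
        rw [pow_succ] at h10
        linarith
      have e1 : W' ≤ C * sgm m + (M + 1) * (7 / 4 * 8 ^ m) := by
        have : (M : ℝ) * convR T' m ≤ M * (7 / 4 * 8 ^ m) := mul_le_mul_of_nonneg_left c2 hM
        linarith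
      have e2 : ww ≤ C * sgm m + (M + 1) * (7 / 4 * 8 ^ m) := by
        have : (M : ℝ) * convR T m ≤ M * (7 / 4 * 8 ^ m) := mul_le_mul_of_nonneg_left d2 hM
        linarith
      have e3 : (P : ℝ) * W' + R * ww ≤ C * (Q * (m + 1) + sgm m * (P + R)) := by
        have f1 : (P : ℝ) * W' ≤ P * (C * sgm m + (M + 1) * (7 / 4 * 8 ^ m)) :=
          mul_le_mul_of_nonneg_left e1 hP
        have f2 : (R : ℝ) * ww ≤ R * (C * sgm m + (M + 1) * (7 / 4 * 8 ^ m)) :=
          mul_le_mul_of_nonneg_left e2 hR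
        have f3 : ((P : ℝ) + R) * ((M + 1) * (7 / 4 * 8 ^ m)) ≤ 4 * Q * ((M + 1) * (7 / 4 * 8 ^ m)) :=
          mul_le_mul_of_nonneg_right hPRr (by positivity)
        have f4 : (Q : ℝ) * ((M + 1) * (8 * 8 ^ m)) ≤ Q * C := mul_le_mul_of_nonneg_left hCr hQ'.le
        have f5 : (0 : ℝ) ≤ Q * C * m := by positivity
        have f6 : (0 : ℝ) ≤ Q * ((M + 1) * 8 ^ m) := by positivity
        nlinarith
      have e4 : P * rowW P Q R C c0 w m + R * w m ≤ C * (Q * (m + 1) + sgm m * (P + R)) := by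
        have : ((P * rowW P Q R C c0 w m + R * w m : ℕ) : ℝ) ≤
            ((C * (Q * (m + 1) + sgm m * (P + R)) : ℕ) : ℝ) := by
          push_cast
          exact e3
        exact_mod_cast this
      set num := C * (Q * (m + 1) + sgm m * (P + R)) - P * rowW P Q R C c0 w m - R * w m with hnum
      have hnumr : (num : ℝ) = C * (Q * (m + 1) + sgm m * (P + R)) - P * W' - R * ww := by
        rw [hnum, Nat.sub_sub, Nat.cast_sub e4]
        push_cast
        ring
      set den := Q * (m + 1) with hden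
      have hden0 : 0 < den := by positivity
      have hdenr : (den : ℝ) = Q * (m + 1) := by
        rw [hden]
        push_cast
        ring
      have hx : rowX P Q R C c0 w (m + 1) = num / den := rowX_succ P Q R C c0 w m
      have g1 : (den : ℝ) * (rowX P Q R C c0 w (m + 1) : ℕ) ≤ num := by
        rw [hx]
        exact_mod_cast Nat.mul_div_le num den
      have g2 : (num : ℝ) ≤ den * (rowX P Q R C c0 w (m + 1) : ℕ) + den := by
        rw [hx]
        have := (Nat.lt_mul_div_succ num hden0).le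
        have h' : (num : ℝ) ≤ ((den * (num / den + 1) : ℕ) : ℝ) := by exact_mod_cast this
        push_cast at h' ⊢
        linarith
      have g3 : (den : ℝ) * T' (m + 1) = -(P * convR T' m + R * convR T m) := by
        have : (den : ℝ) * T' (m + 1) = Q * (((m : ℝ) + 1) * T' (m + 1)) := by
          rw [hdenr]
          ring
        rw [this, h3]
        field_simp
      have g4 : (num : ℝ) = den * (M * T' (m + 1) + C) - P * (W' - (M * convR T' m + C * sgm m)) -
          R * (ww - (M * convR T m + C * sgm m)) := by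
        have : (den : ℝ) * (M * T' (m + 1) + C) = M * (den * T' (m + 1)) + den * C := by ring
        rw [this, g3, hnumr, hdenr]
        ring
      have g5 : |(P : ℝ) * (W' - (M * convR T' m + C * sgm m)) +
          R * (ww - (M * convR T m + C * sgm m))| ≤ 7 * Q * 8 ^ m := by
        refine (abs_add_le _ _).trans ?_
        rw [abs_mul, abs_mul, abs_of_nonneg hP, abs_of_nonneg hR]
        have k1 := mul_le_mul_of_nonneg_left h1 hP
        have k2 := mul_le_mul_of_nonneg_left h2 hR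
        have k3 := mul_le_mul_of_nonneg_right hPRr (by positivity : (0 : ℝ) ≤ 7 / 4 * 8 ^ m)
        linarith
      obtain ⟨k1, k2⟩ := abs_le.mp g5
      have hdpos : (0 : ℝ) < den := by exact_mod_cast hden0
      have k3 : (7 : ℝ) * Q * 8 ^ m + den ≤ den * 8 ^ (m + 1) := by
        rw [hdenr, pow_succ]
        have : (1 : ℝ) ≤ 8 ^ m := one_le_pow₀ (by norm_num)
        have l1 : (0 : ℝ) ≤ Q * m * (8 ^ m - 1) := by
          have : (0 : ℝ) ≤ 8 ^ m - 1 := by linarith
          positivity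
        have l2 : (0 : ℝ) ≤ Q * (8 ^ m - 1) := by
          have : (0 : ℝ) ≤ 8 ^ m - 1 := by linarith
          positivity
        have l3 : (0 : ℝ) ≤ Q * m * 8 ^ m := by positivity
        nlinarith
      have k4 : |(den : ℝ) * ((rowX P Q R C c0 w (m + 1) : ℕ) - (M * T' (m + 1) + C))| ≤
          den * 8 ^ (m + 1) := by
        rw [abs_le]
        constructor
        · linarith
        · linarith
      rw [abs_mul, abs_of_pos hdpos] at k4
      exact le_of_mul_le_mul_left k4 hdpos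

lemma rowW_approx {P Q R C M N c0 : ℕ} (hN : N ≤ 312) {w : ℕ → ℕ} {T' : ℕ → ℝ}
    (h : ApproxX C M N (rowX P Q R C c0 w) T') : ApproxW C M N (rowW P Q R C c0 w) T' := by
  intro n hn
  rw [rowW_eq _ _ _ _ _ _ _ (by omega)]
  exact conv_approx fun i hi => h i (by omega)

lemma rows_spec {P Q R C M N : ℕ} (hQ : 0 < Q) (hPR : P + R ≤ 4 * Q) (hN : N ≤ 312)
    (hC : (M + 1) * 8 ^ (N + 1) ≤ C) (K k : ℕ) (w S : ℕ → ℕ)
    (hw : ApproxW C M N w (TT ((P : ℝ) / Q) ((R : ℝ) / Q) (k + 1))) :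
    ∃ w' S' : ℕ → ℕ, rows sksL (fwd sgm 0 N) P Q R C K (fwd w 0 N) (fwd S 0 (N + 1)) =
        (fwd w' 0 N, fwd S' 0 (N + 1)) ∧
      ApproxW C M N w' (TT ((P : ℝ) / Q) ((R : ℝ) / Q) (k + 1 + K)) ∧
      ∀ n ≤ N, (S n : ℝ) + ∑ j ∈ range K, M * |TT ((P : ℝ) / Q) ((R : ℝ) / Q) (k + 2 + j) n| ≤
        S' n + K * 8 ^ n := by
  have hQ' : (0 : ℝ) < Q := by exact_mod_cast hQ
  have hPR' : (P : ℝ) / Q + (R : ℝ) / Q ≤ 4 := by
    rw [← add_div, div_le_iff₀ hQ']
    exact_mod_cast hPR
  induction K generalizing k w S with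
  | zero =>
    refine ⟨w, S, rfl, by simpa using hw, fun n _ => by simp⟩
  | succ K ih =>
    have hX := row_approx (c0 := C) (e := 0) hQ hPR hN hC (by norm_num) (by ring)
      (fun n => TT_le (by positivity) (by positivity) hPR' (k + 1) n) hw
    have hXT : ApproxX C M N (rowX P Q R C C w) (TT ((P : ℝ) / Q) ((R : ℝ) / Q) (k + 1 + 1)) := by
      rw [TT_succ, if_neg (Nat.succ_ne_zero k)]
      exact hX
    have hW := rowW_approx hN hXT
    obtain ⟨w', S', h1, h2, h3⟩ := ih (k + 1) (rowW P Q R C C w)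
      (fun n => S n + ((rowX P Q R C C w n - C) + (C - rowX P Q R C C w n))) hW
    refine ⟨w', S', ?_, ?_, ?_⟩
    · rw [← h1, rows]
      have hst := stage_eq P Q R C C w N 0
      rw [zero_add] at hst
      have hrow0 : rowL P Q R C C w 0 = [C] := rfl
      have hrev0 : revM (rowW P Q R C C w) 0 = [] := rfl
      rw [hrow0, hrev0] at hst
      rw [hst]
      simp only
      rw [revM_reverse, rowL_eq, revL_eq, revM_reverse, fwd_zipWith]
    · rw [show k + 1 + (K + 1) = k + 1 + 1 + K by ring]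
      exact h2
    · intro n hn
      have h4 := h3 n hn
      have h5 := hXT n hn
      rw [Finset.sum_range_succ']
      have h6 : ∑ j ∈ range K, (M : ℝ) * |TT ((P : ℝ) / Q) ((R : ℝ) / Q) (k + 2 + (j + 1)) n| =
          ∑ j ∈ range K, (M : ℝ) * |TT ((P : ℝ) / Q) ((R : ℝ) / Q) (k + 1 + 2 + j) n| :=
        Finset.sum_congr rfl fun j _ => by rw [show k + 2 + (j + 1) = k + 1 + 2 + j by ring]
      rw [h6, add_zero]
      have h7 : (M : ℝ) * |TT ((P : ℝ) / Q) ((R : ℝ) / Q) (k + 2) n| ≤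
          (((rowX P Q R C C w n - C) + (C - rowX P Q R C C w n) : ℕ) : ℝ) + 8 ^ n := by
        have hM : (0 : ℝ) ≤ M := Nat.cast_nonneg M
        have h8 : (M : ℝ) * |TT ((P : ℝ) / Q) ((R : ℝ) / Q) (k + 2) n| =
            |M * TT ((P : ℝ) / Q) ((R : ℝ) / Q) (k + 2) n| := by
          rw [abs_mul, abs_of_nonneg hM]
        rw [h8]
        obtain ⟨a1, a2⟩ := abs_le.mp h5
        rcases le_total (rowX P Q R C C w n) C with hle | hle
        · rw [Nat.sub_eq_zero_of_le hle, zero_add, Nat.cast_sub hle, abs_le]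
          have hle' : ((rowX P Q R C C w n : ℕ) : ℝ) ≤ C := by exact_mod_cast hle
          constructor
          · linarith
          · linarith
        · rw [Nat.sub_eq_zero_of_le hle, add_zero, Nat.cast_sub hle, abs_le]
          have hle' : (C : ℝ) ≤ ((rowX P Q R C C w n : ℕ) : ℝ) := by exact_mod_cast hle
          constructor
          · linarith
          · linarith
      push_cast at h4 h7 ⊢
      linarith

end Pool.Agent.N809.BP
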