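import Pool.Agent.N809.BP.Check3

/-!
# The finite check: soundness
-/

set_option autoImplicit false

namespace Pool.Agent.N809.BP

open Finset

lemma natabs_cast (a b : ℕ) : (((a - b) + (b - a) : ℕ) : ℝ) = |(a : ℝ) - b| := by
  rcases le_total a b with h | h
  · have h' : (a : ℝ) ≤ b := by exact_mod_cast h
    rw [Nat.sub_eq_zero_of_le h, zero_add, Nat.cast_sub h, abs_of_nonpos (by linarith)]
    ring
  · have h' : (b : ℝ) ≤ a := by exact_mod_cast h
    rw [Nat.sub_eq_zero_of_le h, add_zero, Nat.cast_sub h, abs_of_nonneg (by linarith)]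

lemma z_spec {P Q R C M N : ℕ} (hQ : 0 < Q) (hN : N ≤ 312) {w : ℕ → ℕ} (K : ℕ)
    (hw : ApproxW C M N w (TT ((P : ℝ) / Q) ((R : ℝ) / Q) K)) {τ : ℝ} (hτ : |τ| ≤ 1) 
    (hK : 0 < K) :
    ∀ n ≤ N, (M : ℝ) * |cf ((P : ℝ) / Q + (R : ℝ) / Q * τ) n - PS ((P : ℝ) / Q) ((R : ℝ) / Q) τ K n| ≤
      zX P Q R C w n * |τ| ^ K := by
  set d0 := (P : ℝ) / Q with hd0
  set h := (R : ℝ) / Q with hh
  have hQ' : (0 : ℝ) < Q := by exact_mod_cast hQ
  have hd0' : 0 ≤ d0 := by positivity
  have hh' : 0 ≤ h := by positivity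
  have hM : (0 : ℝ) ≤ M := Nat.cast_nonneg M
  set D : ℕ → ℝ := fun i => cf (d0 + h * τ) i - PS d0 h τ K i with hD
  intro n
  induction n using Nat.strong_induction_on with
  | _ n ih =>
    intro hn
    rcases Nat.eq_zero_or_pos n with rfl | hn0
    · obtain ⟨K', rfl⟩ : ∃ K', K = K' + 1 := ⟨K - 1, by omega⟩
      rw [D_zero, abs_zero, mul_zero]
      positivity
    · obtain ⟨m, rfl⟩ : ∃ m, n = m + 1 := ⟨n - 1, by omega⟩
      have h1 := D_rec d0 h τ K m
      change ((m : ℝ) + 1) * D (m + 1) = -((d0 + h * τ) * convR D m) - h * convR (TT d0 h K) m * τ ^ K at h1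
      change (M : ℝ) * |D (m + 1)| ≤ _
      set cz : ℕ := ∑ k ∈ range (m + 1), sk (k + 1) * zX P Q R C w (m - k) with hcz
      set V : ℕ := (w m - C * sgm m) + (C * sgm m - w m) + 8 * 8 ^ m with hV
      have hτK : (0 : ℝ) ≤ |τ| ^ K := by positivity
      have h2 : (M : ℝ) * |convR D m| ≤ cz * |τ| ^ K := by
        rw [hcz]
        push_cast
        rw [Finset.sum_mul]
        calc (M : ℝ) * |convR D m| ≤ M * ∑ k ∈ range (m + 1), |(sk (k + 1) : ℝ) * D (m - k)| := by
              gcongr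
              exact Finset.abs_sum_le_sum_abs _ _
          _ = ∑ k ∈ range (m + 1), (sk (k + 1) : ℝ) * (M * |D (m - k)|) := by
              rw [Finset.mul_sum]
              refine Finset.sum_congr rfl fun k _ => ?_
              rw [abs_mul, abs_of_nonneg (Nat.cast_nonneg _ : (0 : ℝ) ≤ (sk (k + 1) : ℝ))]
              ring
          _ ≤ _ := by
              refine Finset.sum_le_sum fun k _ => ?_
              rw [mul_assoc]
              refine mul_le_mul_of_nonneg_left ?_ (Nat.cast_nonneg _)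
              exact ih (m - k) (by omega) (by omega)
      have h3 : (M : ℝ) * |convR (TT d0 h K) m| ≤ V := by
        have h4 := hw m (by omega)
        have h5 : (V : ℝ) = |(w m : ℝ) - C * sgm m| + 8 * 8 ^ m := by
          rw [hV, Nat.cast_add, natabs_cast]
          push_cast
          ring
        rw [h5]
        have h6 : (M : ℝ) * |convR (TT d0 h K) m| = |(M : ℝ) * convR (TT d0 h K) m| := by
          rw [abs_mul, abs_of_nonneg hM]
        rw [h6]
        have h7 : (M : ℝ) * convR (TT d0 h K) m =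
            ((w m : ℝ) - C * sgm m) - ((w m : ℝ) - (M * convR (TT d0 h K) m + C * sgm m)) := by ring
        rw [h7]
        refine (abs_sub _ _).trans ?_
        have : (0 : ℝ) < 8 ^ m := by positivity
        linarith
      have h8 : |d0 + h * τ| ≤ d0 + h := by
        refine (abs_add_le _ _).trans ?_
        rw [abs_mul, abs_of_nonneg hd0', abs_of_nonneg hh']
        nlinarith [abs_nonneg τ]
      have hm1 : (0 : ℝ) < (m : ℝ) + 1 := by positivity
      have h9 : ((m : ℝ) + 1) * (M * |D (m + 1)|) ≤ ((d0 + h) * cz + h * V) * |τ| ^ K := by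
        have e1 : ((m : ℝ) + 1) * (M * |D (m + 1)|) = M * |((m : ℝ) + 1) * D (m + 1)| := by
          rw [abs_mul, abs_of_pos hm1]
          ring
        rw [e1, h1]
        have e2 : |-((d0 + h * τ) * convR D m) - h * convR (TT d0 h K) m * τ ^ K| ≤
            |d0 + h * τ| * |convR D m| + h * |convR (TT d0 h K) m| * |τ| ^ K := by
          refine (abs_sub _ _).trans ?_
          rw [abs_neg, abs_mul, abs_mul, abs_mul, abs_pow, abs_of_nonneg hh']
        have e3 := mul_le_mul_of_nonneg_left e2 hM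
        have e4 : |d0 + h * τ| * (M * |convR D m|) ≤ (d0 + h) * (cz * |τ| ^ K) :=
          mul_le_mul h8 h2 (by positivity) (by positivity)
        have e5 : h * (M * |convR (TT d0 h K) m|) * |τ| ^ K ≤ h * V * |τ| ^ K := by
          refine mul_le_mul_of_nonneg_right ?_ hτK
          exact mul_le_mul_of_nonneg_left h3 hh'
        calc _ ≤ _ := e3
          _ = |d0 + h * τ| * (M * |convR D m|) + h * (M * |convR (TT d0 h K) m|) * |τ| ^ K := by ring
          _ ≤ (d0 + h) * (cz * |τ| ^ K) + h * V * |τ| ^ K := add_le_add e4 e5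
          _ = _ := by ring
      have hz := zX_succ P Q R C w m (by omega)
      set num : ℕ := (P + R) * cz + R * V with hnum
      have hden0 : 0 < Q * (m + 1) := by positivity
      have g1 : (num : ℝ) ≤ Q * (m + 1) * (zX P Q R C w (m + 1) : ℕ) := by
        rw [hz]
        have := (Nat.lt_mul_div_succ num hden0).le
        exact_mod_cast this
      have g2 : (num : ℝ) = Q * ((d0 + h) * cz + h * V) := by
        rw [hnum, hd0, hh]
        push_cast
        field_simp
      have g3 : (d0 + h) * cz + h * V ≤ (m + 1) * (zX P Q R C w (m + 1) : ℕ) := by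
        rw [g2, mul_assoc] at g1
        exact le_of_mul_le_mul_left g1 hQ'
      have g4 : ((m : ℝ) + 1) * (M * |D (m + 1)|) ≤
          ((m : ℝ) + 1) * ((zX P Q R C w (m + 1) : ℕ) * |τ| ^ K) := by
        refine h9.trans ?_
        rw [← mul_assoc]
        exact mul_le_mul_of_nonneg_right g3 hτK
      exact le_of_mul_le_mul_left g4 hm1

lemma PS_split (d0 h τ : ℝ) (K n : ℕ) :
    PS d0 h τ (K + 1) n = TT d0 h 1 n + ∑ j ∈ range K, TT d0 h (2 + j) n * τ ^ (j + 1) := by
  rw [PS, Finset.sum_range_succ', add_comm, pow_zero, mul_one, zero_add]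
  congr 1
  refine Finset.sum_congr rfl fun j _ => ?_
  rw [show j + 1 + 1 = 2 + j by ring]

lemma tail_le {M : ℝ} (hM : 0 ≤ M) {τ : ℝ} (hτ : |τ| ≤ 1) (F : ℕ → ℝ) (K e : ℕ) :
    M * |∑ j ∈ range K, F j * τ ^ (j + e)| ≤ ∑ j ∈ range K, M * |F j| := by
  rw [← Finset.mul_sum]
  refine mul_le_mul_of_nonneg_left ?_ hM
  refine (Finset.abs_sum_le_sum_abs _ _).trans ?_
  refine Finset.sum_le_sum fun j _ => ?_
  rw [abs_mul, abs_pow]
  exact mul_le_of_le_one_right (abs_nonneg _) (pow_le_one₀ (abs_nonneg _) hτ)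

theorem check_sound {cls : ℕ → ℕ} {P Q R K N M C : ℕ} (hM : 0 < M) (hQ : 0 < Q) (hPR : P + R ≤ 4 * Q)
    (hN : N ≤ 312) (hC : (M + 1) * 8 ^ (N + 1) ≤ C) (h : check cls P Q R K N M C = true)
    {τ : ℝ} (hτ : |τ| ≤ 1) {n : ℕ} (hn : n ≤ N) :
    (cls n = 1 → 0 ≤ cf ((P : ℝ) / Q + (R : ℝ) / Q * τ) n) ∧
    (2 ≤ cls n → cf ((P : ℝ) / Q + (R : ℝ) / Q * τ) n ≤ 0) := by
  have hw0 : ApproxW C M N (fun i => C * sgm i) (TT ((P : ℝ) / Q) ((R : ℝ) / Q) 0) := by
    intro i _
    have : convR (TT ((P : ℝ) / Q) ((R : ℝ) / Q) 0) i = 0 := by simp [convR, TT]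
    rw [this]
    push_cast
    simp
  have hX := row_approx (c0 := C + M) (e := 1) hQ hPR hN hC (by norm_num) (by push_cast; ring)
    (T := TT ((P : ℝ) / Q) ((R : ℝ) / Q) 0) (fun n => by simp [TT]) hw0
  have hXT : ApproxX C M N (rowX P Q R C (C + M) (fun i => C * sgm i))
      (TT ((P : ℝ) / Q) ((R : ℝ) / Q) 1) := by
    rw [TT_succ, if_pos rfl]
    exact hX
  have hW := rowW_approx hN hXT
  set X0 := rowX P Q R C (C + M) (fun i => C * sgm i) with hX0
  set W0 := rowW P Q R C (C + M) (fun i => C * sgm i) with hW0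
  obtain ⟨w', S', h1, h2, h3⟩ := rows_spec hQ hPR hN hC K 0 W0 (fun _ => 0) hW
  rw [check, sigL_take hN, fwd_map] at h
  have hst := stage_eq P Q R C (C + M) (fun i => C * sgm i) N 0
  rw [zero_add] at hst
  have hrow0 : rowL P Q R C (C + M) (fun i => C * sgm i) 0 = [C + M] := rfl
  have hrev0 : revM (rowW P Q R C (C + M) (fun i => C * sgm i)) 0 = [] := rfl
  rw [hrow0, hrev0] at hst
  rw [hst] at h
  simp only at h
  rw [revM_reverse, ← hW0, fwd_replicate 0, h1] at h
  simp only at h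
  have hest := estage_eq P Q R C w' N 0
  rw [zero_add, show zL P Q R C w' 0 = [0] from rfl, pow_zero] at hest
  rw [hest, zL_eq, revL_eq, revM_reverse, rowL_eq, revL_eq, revM_reverse, ← hX0] at h
  rw [show (1 : ℕ) = 8 ^ 0 from rfl] at h
  have hfin := fin_spec cls C (K + 8 ^ 0) X0 S' (zX P Q R C w') (N + 1) 0 h n (Nat.zero_le _) (by omega)
  rw [pow_zero] at hfin
  -- the real estimate
  have hz := z_spec (P := P) (Q := Q) (R := R) (C := C) (M := M) (N := N) hQ hN (K + 1)
    (by rw [show 0 + 1 + K = K + 1 by ring] at h2; exact h2) hτ (Nat.succ_pos K) n hn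
  have hz' : (M : ℝ) * |cf ((P : ℝ) / Q + (R : ℝ) / Q * τ) n -
      PS ((P : ℝ) / Q) ((R : ℝ) / Q) τ (K + 1) n| ≤ (zX P Q R C w' n : ℕ) := by
    refine hz.trans (mul_le_of_le_one_right (Nat.cast_nonneg _) (pow_le_one₀ (abs_nonneg _) hτ))
  rw [PS_split] at hz'
  have hM' : (0 : ℝ) < M := by exact_mod_cast hM
  have hs := h3 n hn
  have ht := tail_le hM'.le hτ (fun j => TT ((P : ℝ) / Q) ((R : ℝ) / Q) (2 + j) n) K 1
  have hx := hXT n hn
  rw [show (0 + 2 : ℕ) = 2 from rfl] at hs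
  push_cast at hs
  set F := cf ((P : ℝ) / Q + (R : ℝ) / Q * τ) n
  set T1 := TT ((P : ℝ) / Q) ((R : ℝ) / Q) 1 n
  set TL := ∑ j ∈ range K, TT ((P : ℝ) / Q) ((R : ℝ) / Q) (2 + j) n * τ ^ (j + 1)
  have hMa : ∀ y : ℝ, (M : ℝ) * |y| = |M * y| := fun y => by
    rw [abs_mul, abs_of_pos hM']
  rw [hMa] at hz' ht
  obtain ⟨a1, a2⟩ := abs_le.mp hz'
  obtain ⟨b1, b2⟩ := abs_le.mp ht
  obtain ⟨c1, c2⟩ := abs_le.mp hx
  constructor
  · intro hc
    have h5 : ((C + (S' n + (K + 1) * 8 ^ n + zX P Q R C w' n) : ℕ) : ℝ) ≤ (X0 n : ℕ) := by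
      exact_mod_cast hfin.1 hc
    push_cast at h5
    have h6 : 0 ≤ (M : ℝ) * F := by
      have : (M : ℝ) * F = M * (F - (T1 + TL)) + M * T1 + M * TL := by ring
      rw [this]
      linarith
    exact nonneg_of_mul_nonneg_right h6 hM'
  · intro hc
    have h5 : ((X0 n + (S' n + (K + 1) * 8 ^ n + zX P Q R C w' n) : ℕ) : ℝ) ≤ (C : ℕ) := by
      exact_mod_cast hfin.2 hc
    push_cast at h5
    have h6 : (M : ℝ) * F ≤ 0 := by
      have : (M : ℝ) * F = M * (F - (T1 + TL)) + M * T1 + M * TL := by ring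
      rw [this]
      linarith
    exact nonpos_of_mul_nonpos_right h6 hM'

end Pool.Agent.N809.BP
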