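import Pool.Agent.N809.BP.Check4

/-!
# The finite check at the center 3 for the class 2
-/

set_option autoImplicit false

namespace Pool.Agent.N809.BP

open Finset

lemma TT_one (d0 h : ℝ) (n : ℕ) : TT d0 h 1 n = cf d0 n := by
  induction n using Nat.strong_induction_on with
  | _ n ih =>
    rcases Nat.eq_zero_or_pos n with rfl | hn
    · rw [TT_succ, sq_zero, cf_zero, if_pos rfl]
    · obtain ⟨m, rfl⟩ : ∃ m, n = m + 1 := ⟨n - 1, by omega⟩
      have h1 := sq_succ d0 (fun n => h * convR (TT d0 h 0) n) (if 0 = 0 then 1 else 0) m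
      rw [← TT_succ, zero_add] at h1
      have h2 : convR (TT d0 h 0) m = 0 := by simp [convR, TT]
      have h3 := cf_rec d0 m
      have h4 : convR (TT d0 h 1) m = convR (cf d0) m := by
        unfold convR
        refine Finset.sum_congr rfl fun k _ => ?_
        rw [ih (m - k) (by omega)]
      have hm : (0 : ℝ) < (m : ℝ) + 1 := by positivity
      rw [h2, h4] at h1
      have h5 : ((m : ℝ) + 1) * TT d0 h 1 (m + 1) = ((m : ℝ) + 1) * cf d0 (m + 1) := by
        rw [h1, h3]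
        ring
      exact mul_left_cancel₀ hm.ne' h5

lemma PS_split2 (d0 h τ : ℝ) (K n : ℕ) :
    PS d0 h τ (K + 2) n = TT d0 h 1 n +
      τ * (TT d0 h 2 n + ∑ j ∈ range K, TT d0 h (3 + j) n * τ ^ (j + 1)) := by
  rw [PS_split, Finset.sum_range_succ', mul_add, Finset.mul_sum]
  have : ∑ j ∈ range K, TT d0 h (2 + (j + 1)) n * τ ^ (j + 1 + 1) =
      ∑ j ∈ range K, τ * (TT d0 h (3 + j) n * τ ^ (j + 1)) :=
    Finset.sum_congr rfl fun j _ => by
      rw [show 2 + (j + 1) = 3 + j by ring]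
      ring
  rw [this, add_zero]
  ring

theorem check3_sound {cls : ℕ → ℕ} {P Q R K N M C : ℕ} (hM : 0 < M) (hQ : 0 < Q) (hPR : P + R ≤ 4 * Q)
    (hP3 : P = 3 * Q)
    (hN : N ≤ 312) (hC : (M + 1) * 8 ^ (N + 1) ≤ C) (h : check3 cls P Q R K N M C = true)
    {τ : ℝ} (hτ : |τ| ≤ 1) (hτ0 : τ ≤ 0) {n : ℕ} (hn : n ≤ N) (hv : cf 3 n = 0) (hc : cls n = 1) :
    cf (3 + (R : ℝ) / Q * τ) n ≤ 0 := by
  have hQ' : (0 : ℝ) < Q := by exact_mod_cast hQ
  have hPQ : (P : ℝ) / Q = 3 := by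
    rw [hP3]
    push_cast
    field_simp
  have hw0 : ApproxW C M N (fun i => C * sgm i) (TT ((P : ℝ) / Q) ((R : ℝ) / Q) 0) := by
    intro i _
    have : convR (TT ((P : ℝ) / Q) ((R : ℝ) / Q) 0) i = 0 := by simp [convR, TT]
    rw [this]
    push_cast
    simp
  have hPR' : (P : ℝ) / Q + (R : ℝ) / Q ≤ 4 := by
    rw [← add_div, div_le_iff₀ hQ']
    exact_mod_cast hPR
  have hX := row_approx (c0 := C + M) (e := 1) hQ hPR hN hC (by norm_num) (by push_cast; ring)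
    (T := TT ((P : ℝ) / Q) ((R : ℝ) / Q) 0) (fun n => by simp [TT]) hw0
  have hXT : ApproxX C M N (rowX P Q R C (C + M) (fun i => C * sgm i))
      (TT ((P : ℝ) / Q) ((R : ℝ) / Q) 1) := by
    rw [TT_succ, if_pos rfl]
    exact hX
  have hW := rowW_approx hN hXT
  set W0 := rowW P Q R C (C + M) (fun i => C * sgm i) with hW0
  have hX1 := row_approx (c0 := C) (e := 0) hQ hPR hN hC (by norm_num) (by ring)
      (fun n => TT_le (by positivity) (by positivity) hPR' 1 n) hW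
  have hXT1 : ApproxX C M N (rowX P Q R C C W0) (TT ((P : ℝ) / Q) ((R : ℝ) / Q) 2) := by
    rw [TT_succ, if_neg (by norm_num)]
    exact hX1
  have hW1 := rowW_approx hN hXT1
  set X1 := rowX P Q R C C W0 with hX1'
  set W1 := rowW P Q R C C W0 with hW1'
  obtain ⟨w', S', h1, h2, h3⟩ := rows_spec hQ hPR hN hC K 1 W1 (fun _ => 0) hW1
  rw [check3, sigL_take hN, fwd_map] at h
  have hst := stage_eq P Q R C (C + M) (fun i => C * sgm i) N 0
  rw [zero_add] at hst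
  have hrow0 : rowL P Q R C (C + M) (fun i => C * sgm i) 0 = [C + M] := rfl
  have hrev0 : revM (rowW P Q R C (C + M) (fun i => C * sgm i)) 0 = [] := rfl
  rw [hrow0, hrev0] at hst
  rw [hst] at h
  simp only at h
  rw [revM_reverse, ← hW0] at h
  have hst1 := stage_eq P Q R C C W0 N 0
  rw [zero_add] at hst1
  have hrow1 : rowL P Q R C C W0 0 = [C] := rfl
  have hrev1 : revM (rowW P Q R C C W0) 0 = [] := rfl
  rw [hrow1, hrev1] at hst1
  rw [hst1] at h
  simp only at h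
  rw [revM_reverse, ← hW1', fwd_replicate 0, h1] at h
  simp only at h
  have hest := estage_eq P Q R C w' N 0
  rw [zero_add, show zL P Q R C w' 0 = [0] from rfl, pow_zero] at hest
  rw [hest, zL_eq, revL_eq, revM_reverse, rowL_eq, revL_eq, revM_reverse, ← hX1'] at h
  rw [show fin cls C (K + 2) 0 1 = fin cls C (K + 2) 0 (8 ^ 0) from rfl] at h
  have hfin := fin_spec cls C (K + 2) X1 S' (zX P Q R C w') (N + 1) 0 h n (Nat.zero_le _) (by omega)
  -- the real estimate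
  have hz := z_spec (P := P) (Q := Q) (R := R) (C := C) (M := M) (N := N) hQ hN (K + 2)
    (by rw [show 1 + 1 + K = K + 2 by ring] at h2; exact h2) hτ (Nat.succ_pos _) n hn
  have hz' : (M : ℝ) * |cf ((P : ℝ) / Q + (R : ℝ) / Q * τ) n -
      PS ((P : ℝ) / Q) ((R : ℝ) / Q) τ (K + 2) n| ≤ (zX P Q R C w' n : ℕ) * |τ| := by
    refine hz.trans (mul_le_mul_of_nonneg_left ?_ (Nat.cast_nonneg _))
    rw [pow_succ]
    exact mul_le_of_le_one_left (abs_nonneg _) (pow_le_one₀ (abs_nonneg _) hτ)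
  rw [PS_split2, TT_one, hPQ, hv, zero_add] at hz'
  have hM' : (0 : ℝ) < M := by exact_mod_cast hM
  have hs := h3 n hn
  have ht := tail_le hM'.le hτ (fun j => TT 3 ((R : ℝ) / Q) (3 + j) n) K 1
  have hx := hXT1 n hn
  rw [hPQ] at hx
  rw [hPQ, show (1 + 2 : ℕ) = 3 from rfl] at hs
  push_cast at hs
  set F := cf (3 + (R : ℝ) / Q * τ) n
  set T2 := TT 3 ((R : ℝ) / Q) 2 n
  set TL := ∑ j ∈ range K, TT 3 ((R : ℝ) / Q) (3 + j) n * τ ^ (j + 1)
  have hMa : ∀ y : ℝ, (M : ℝ) * |y| = |M * y| := fun y => by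
    rw [abs_mul, abs_of_pos hM']
  rw [hMa] at hz' ht
  rw [abs_of_nonpos hτ0] at hz'
  obtain ⟨a1, a2⟩ := abs_le.mp hz'
  obtain ⟨b1, b2⟩ := abs_le.mp ht
  obtain ⟨c1, c2⟩ := abs_le.mp hx
  have h5 : ((C + (S' n + (K + 2) * 8 ^ n + zX P Q R C w' n) : ℕ) : ℝ) ≤ (X1 n : ℕ) := by
    exact_mod_cast hfin.1 hc
  push_cast at h5
  have h8 : (0 : ℝ) < 8 ^ n := by positivity
  have h7 : (zX P Q R C w' n : ℝ) ≤ M * (T2 + TL) := by linarith
  have h9 : τ * (M * (T2 + TL)) ≤ τ * (zX P Q R C w' n : ℝ) := mul_le_mul_of_nonpos_left h7 hτ0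
  have h6 : (M : ℝ) * F ≤ 0 := by
    have : (M : ℝ) * F = M * (F - τ * (T2 + TL)) + τ * (M * (T2 + TL)) := by ring
    rw [this]
    linarith
  exact nonpos_of_mul_nonpos_right h6 hM'

/-- all classes -/
def clsA (n : ℕ) : ℕ := if n < 6 then 0 else if n % 3 = 0 then 1 else 2

/-- the classes 0 and 1 -/
def clsB (n : ℕ) : ℕ := if n < 6 then 0 else if n % 3 = 0 then 1 else if n % 3 = 1 then 2 else 0

/-- the class 2 -/
def clsC (n : ℕ) : ℕ := if n < 6 then 0 else if n % 3 = 2 then 2 else 0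

/-- the class 2, reversed sign -/
def clsD (n : ℕ) : ℕ := if n < 6 then 0 else if n % 3 = 2 then 1 else 0

/-- `M` -/
def Mc (N : ℕ) : ℕ := 8 ^ (N + 8)

/-- `C` -/
def Cc (N : ℕ) : ℕ := (8 ^ (N + 8) + 1) * 8 ^ (N + 1)

end Pool.Agent.N809.BP
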