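import Pool.Agent.N809.BP.Gen

/-!
# The finite check: the algorithm
-/

set_option autoImplicit false

namespace Pool.Agent.N809.BP

/-- evaluation of `n` before `f` is called -/
def force {α : Type} (n : ℕ) (f : ℕ → α) : α :=
  match n with
  | 0 => f 0
  | m + 1 => f (m + 1)

lemma force_eq {α : Type} (n : ℕ) (f : ℕ → α) : force n f = f n := by
  cases n <;> rfl

/-- dot product -/
def dot : List ℕ → List ℕ → ℕ
  | a :: as, b :: bs => Nat.add (Nat.mul a b) (dot as bs)
  | _, _ => 0

/-- one row: from the list of the `W_{k-1}(n)` to the (reversed) lists of the `X_k(n)` and `W_k(n)` -/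
def stage (sks : List ℕ) (P Q R C : ℕ) : List ℕ → List ℕ → ℕ → List ℕ → List ℕ → List ℕ × List ℕ
  | wp :: wps, sg :: sgs, n, rev, acc =>
    force (dot sks rev) fun w =>
    force ((C * (Q * (n + 1) + sg * (P + R)) - P * w - R * wp) / (Q * (n + 1))) fun x =>
    force (n + 1) fun n' =>
    stage sks P Q R C wps sgs n' (x :: rev) (w :: acc)
  | _, _, _, rev, acc => (rev, acc)

/-- the row of the remainder -/
def estage (sks : List ℕ) (P Q R C : ℕ) : List ℕ → List ℕ → ℕ → ℕ → List ℕ → List ℕ
  | w :: ws, sg :: sgs, n, e8, rev =>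
    force (dot sks rev) fun z =>
    force (((P + R) * z + R * ((w - C * sg) + (C * sg - w) + 8 * e8)) / (Q * (n + 1)) + 1) fun x =>
    force (n + 1) fun n' =>
    force (8 * e8) fun e8' =>
    estage sks P Q R C ws sgs n' e8' (x :: rev)
  | _, _, _, _, rev => rev

/-- the rows `k` of the expansion, adding up the absolute values -/
def rows (sks sigs : List ℕ) (P Q R C : ℕ) : ℕ → List ℕ → List ℕ → List ℕ × List ℕ
  | 0, wps, S => (wps, S)
  | k + 1, wps, S =>
    match stage sks P Q R C wps sigs 0 [C] [] with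
    | (rx, rw) => rows sks sigs P Q R C k rw.reverse
        (List.zipWith (fun x s => s + ((x - C) + (C - x))) rx.reverse S)

/-- the final comparison; `cls n = 0` : no condition, `1` : positive, `2` : negative -/
def fin (cls : ℕ → ℕ) (C K1 : ℕ) : ℕ → ℕ → List ℕ → List ℕ → List ℕ → Bool
  | n, e8, x :: xs, s :: ss, z :: zs =>
    (match cls n with
      | 0 => true
      | 1 => Nat.ble (C + (s + K1 * e8 + z)) x
      | _ => Nat.ble (x + (s + K1 * e8 + z)) C) &&
    force (n + 1) fun n' => force (8 * e8) fun e8' => fin cls C K1 n' e8' xs ss zs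
  | _, _, [], [], [] => true
  | _, _, _, _, _ => false

/-- the sums of divisors prime to `3` -/
def sksL : List ℕ := [1, 3, 1, 7, 6, 3, 8, 15, 1, 18, 12, 7, 14, 24, 6, 31, 18, 3, 20, 42, 8, 36, 24, 15, 31, 42, 1, 56, 30, 18, 32, 63, 12, 54, 48, 7, 38, 60, 14, 90, 42, 24, 44, 84, 6, 72, 48, 31, 57, 93, 18, 98, 54, 3, 72, 120, 20, 90, 60, 42, 62, 96, 8, 127, 84, 36, 68, 126, 24, 144, 72, 15, 74, 114, 31, 140, 96, 42, 80, 186, 1, 126, 84, 56, 108, 132, 30, 180, 90, 18, 112, 168, 32, 144, 120, 63, 98, 171, 12, 217, 102, 54, 104, 210, 48, 162, 108, 7, 110, 216, 38, 248, 114, 60, 144, 210, 14, 180, 144, 90, 133, 186, 42, 224, 156, 24, 128, 255, 44, 252, 132, 84, 160, 204, 6, 270, 138, 72, 140, 336, 48, 216, 168, 31, 180, 222, 57, 266, 150, 93, 152, 300, 18, 288, 192, 98, 158, 240, 54, 378, 192, 3, 164, 294, 72, 252, 168, 120, 183, 324, 20, 308, 174, 90, 248, 372, 60, 270, 180, 42, 182, 336, 62, 360, 228, 96, 216, 336, 8, 360, 192, 127, 194, 294, 84, 399, 198, 36, 200, 465, 68, 306, 240,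 126, 252, 312, 24, 434, 240, 144, 212, 378, 72, 324, 264, 15, 256, 330, 74, 504, 252, 114, 224, 504, 31, 342, 228, 140, 230, 432, 96, 450, 234, 42, 288, 420, 80, 432, 240, 186, 242, 399, 1, 434, 342, 126, 280, 480, 84, 468, 252, 56, 288, 384, 108, 511, 258, 132, 304, 588, 30, 396, 264, 180, 324, 480, 90, 476, 270, 18, 272, 558, 112, 414, 372, 168, 278, 420, 32, 720, 282, 144, 284, 504, 120, 504, 336, 63, 307, 540, 98, 518, 294, 171, 360, 570, 12, 450, 336, 217, 352, 456, 102, 620, 372, 54, 308, 672, 104, 576, 312, 210, 314]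

/-- their partial sums -/
def sigL : List ℕ := [1, 4, 5, 12, 18, 21, 29, 44, 45, 63, 75, 82, 96, 120, 126, 157, 175, 178, 198, 240, 248, 284, 308, 323, 354, 396, 397, 453, 483, 501, 533, 596, 608, 662, 710, 717, 755, 815, 829, 919, 961, 985, 1029, 1113, 1119, 1191, 1239, 1270, 1327, 1420, 1438, 1536, 1590, 1593, 1665, 1785, 1805, 1895, 1955, 1997, 2059, 2155, 2163, 2290, 2374, 2410, 2478, 2604, 2628, 2772, 2844, 2859, 2933, 3047, 3078, 3218, 3314, 3356, 3436, 3622, 3623, 3749, 3833, 3889, 3997, 4129, 4159, 4339, 4429, 4447, 4559, 4727, 4759, 4903, 5023, 5086, 5184, 5355, 5367, 5584, 5686, 5740, 5844, 6054, 6102, 6264, 6372, 6379, 6489, 6705, 6743, 6991, 7105, 7165, 7309, 7519, 7533, 7713, 7857, 7947, 8080, 8266, 8308, 8532, 8688, 8712, 8840, 9095, 9139, 9391, 9523, 9607, 9767, 9971, 9977, 10247, 10385, 10457, 10597, 10933, 10981, 11197, 11365, 11396, 11576, 11798, 11855, 12121, 12271, 12364, 12516, 12816, 12834, 13122, 13314, 13412, 13570, 13810, 13864, 14242, 14434, 14437, 14601,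 14895, 14967, 15219, 15387, 15507, 15690, 16014, 16034, 16342, 16516, 16606, 16854, 17226, 17286, 17556, 17736, 17778, 17960, 18296, 18358, 18718, 18946, 19042, 19258, 19594, 19602, 19962, 20154, 20281, 20475, 20769, 20853, 21252, 21450, 21486, 21686, 22151, 22219, 22525, 22765, 22891, 23143, 23455, 23479, 23913, 24153, 24297, 24509, 24887, 24959, 25283, 25547, 25562, 25818, 26148, 26222, 26726, 26978, 27092, 27316, 27820, 27851, 28193, 28421, 28561, 28791, 29223, 29319, 29769, 30003, 30045, 30333, 30753, 30833, 31265, 31505, 31691, 31933, 32332, 32333, 32767, 33109, 33235, 33515, 33995, 34079, 34547, 34799, 34855, 35143, 35527, 35635, 36146, 36404, 36536, 36840, 37428, 37458, 37854, 38118, 38298, 38622, 39102, 39192, 39668, 39938, 39956, 40228, 40786, 40898, 41312, 41684, 41852, 42130, 42550, 42582, 43302, 43584, 43728, 44012, 44516, 44636, 45140, 45476, 45539, 45846, 46386, 46484, 47002, 47296, 47467, 47827, 48397, 48409, 48859, 49195, 49412, 49764, 50220, 50322, 50942, 51314, 51368,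 51676, 52348, 52452, 53028, 53340, 53550, 53864]

/-- the check around `P / Q` with half width `R / Q` (rows `0, ..., K`) -/
def check (cls : ℕ → ℕ) (P Q R K N M C : ℕ) : Bool :=
  match stage sksL P Q R C ((sigL.take N).map (fun s => C * s)) (sigL.take N) 0 [C + M] [] with
  | (rx, rw) =>
    match rows sksL (sigL.take N) P Q R C K rw.reverse (List.replicate (N + 1) 0) with
    | (ws, S) =>
      fin cls C (K + 1) 0 1 rx.reverse S (estage sksL P Q R C ws (sigL.take N) 0 1 [0]).reverse

/-- the check at the center `3` for the class `2` -/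
def check3 (cls : ℕ → ℕ) (P Q R K N M C : ℕ) : Bool :=
  match stage sksL P Q R C ((sigL.take N).map (fun s => C * s)) (sigL.take N) 0 [C + M] [] with
  | (_, rw) =>
    match stage sksL P Q R C rw.reverse (sigL.take N) 0 [C] [] with
    | (rx, rw) =>
      match rows sksL (sigL.take N) P Q R C K rw.reverse (List.replicate (N + 1) 0) with
      | (ws, S) =>
        fin cls C (K + 2) 0 1 rx.reverse S (estage sksL P Q R C ws (sigL.take N) 0 1 [0]).reverse

end Pool.Agent.N809.BP
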