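import Pool.Agent.N809.BP.DBound

/-!
# The transformation at the cusp `i / 3`
-/

set_option autoImplicit false

namespace Pool.Agent.N809.BP

open Complex Finset Filter Topology
open scoped Real
open Pool.Agent.N809.DA

lemma Psi_sub_I (w : ℂ) : Psi (w - I) = Psi w := by
  have := Psi_add_I (w - I)
  rw [sub_add_cancel] at this
  exact this.symm

lemma arg_lt_of_re_pos {w : ℂ} (hw : 0 < w.re) : -(π / 2) < arg w ∧ arg w < π / 2 := by
  have := Complex.abs_arg_lt_pi_div_two_iff.2 (Or.inl hw)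
  rw [abs_lt] at this
  exact this

theorem LG_trans {u : ℂ} (hu : 0 < u.re) :
    LG (I / 3 + u) = π / (54 * u) - π * u / 6 + I * π / 18 + LG (1 / (9 * u) - I / 3) := by
  have hu0 : u ≠ 0 := by
    rintro rfl
    simp at hu
  set w : ℂ := I / 3 + u with hw
  have hwre : 0 < w.re := by
    have h13 : (I / 3 : ℂ).re = 0 := by
      rw [show (I / 3 : ℂ) = ((1 / 3 : ℝ) : ℂ) * I by push_cast; ring, Complex.re_ofReal_mul]
      simp
    rw [hw, Complex.add_re, h13, zero_add]
    exact hu
  have hw0 : w ≠ 0 := by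
    intro h
    rw [h] at hwre
    simp at hwre
  set v : ℂ := w⁻¹ + I + I + I with hv
  have hvre : 0 < v.re := by
    rw [hv]
    simp only [Complex.add_re, Complex.I_re, add_zero]
    exact inv_re_pos hwre
  have hv0 : v ≠ 0 := by
    intro h
    rw [h] at hvre
    simp at hvre
  have hvw : v * w = 3 * I * u := by
    have h1 : v * w = 1 + 3 * I * w := by
      rw [hv]
      field_simp
      ring
    rw [h1, hw]
    linear_combination I_sq
  have h3u : 0 < (3 * u).re := by simpa using hu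
  have t1 := psi_trans h3u
  have t2 := psi_trans hwre
  have t3 := psi_trans hvre
  have p1 : Psi (3 * w) = Psi (3 * u) := by
    rw [show 3 * w = 3 * u + I by rw [hw]; ring, Psi_add_I]
  have p2 : Psi v = Psi w⁻¹ := by
    rw [hv, Psi_add_I, Psi_add_I, Psi_add_I]
  have hvinv : v⁻¹ = 1 / (9 * u) - I / 3 := by
    have h1 : v⁻¹ = w / (3 * I * u) := by
      rw [← hvw]
      field_simp
    rw [h1, hw]
    have hI : (I : ℂ) ≠ 0 := I_ne_zero
    field_simp
    linear_combination (27 : ℂ) * u * I_sq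
  have p3 : Psi (3 * u)⁻¹ = Psi (3 * v⁻¹) := by
    rw [show (3 * u)⁻¹ = 3 * v⁻¹ + I by rw [hvinv]; field_simp; ring, Psi_add_I]
  have hlog : Complex.log v + Complex.log w = Complex.log (3 * u) + I * π / 2 := by
    have a1 := arg_lt_of_re_pos hvre
    have a2 := arg_lt_of_re_pos hwre
    have a3 := arg_lt_of_re_pos h3u
    have hpi := Real.pi_pos
    have e1 : Complex.log (v * w) = Complex.log v + Complex.log w :=
      Complex.log_mul hv0 hw0 ⟨by linarith [a1.1, a2.1], by linarith [a1.2, a2.2]⟩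
    have e2 : Complex.log ((3 * u) * I) = Complex.log (3 * u) + Complex.log I := by
      refine Complex.log_mul (by simpa using hu0) I_ne_zero ⟨?_, ?_⟩
      · rw [arg_I]; linarith [a3.1]
      · rw [arg_I]; linarith [a3.2]
    rw [← e1, hvw, show 3 * I * u = (3 * u) * I by ring, e2, log_I]
    ring
  unfold LG
  rw [p1, t1, t2, ← p2, t3, p3, ← hvinv]
  have q1 : (3 * u)⁻¹ = 1 / (3 * u) := by rw [one_div]
  have q2 : v⁻¹ = 1 / (9 * u) - I / 3 := hvinv
  have q3 : v = w⁻¹ + 3 * I := by rw [hv]; ring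
  rw [q1]
  have q4 : (π : ℂ) * v⁻¹ / 12 = π * (1 / (9 * u) - I / 3) / 12 := by rw [q2]
  rw [q4]
  have q5 : (π : ℂ) * v / 12 = π * (w⁻¹ + 3 * I) / 12 := by rw [q3]
  rw [q5]
  have q6 : (π : ℂ) * w / 12 = π * (I / 3 + u) / 12 := by rw [hw]
  rw [q6]
  have q7 : (π : ℂ) / (54 * u) = π * (1 / u) / 54 := by field_simp
  have q8 : (1 : ℂ) / (3 * u) = (1 / u) / 3 := by field_simp
  have q9 : (1 : ℂ) / (9 * u) = (1 / u) / 9 := by field_simp
  rw [q7, q8, q9]
  linear_combination (-(1 / 2) : ℂ) * hlog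

end Pool.Agent.N809.BP
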