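import Pool.Agent.N809.BP.Modular
import Pool.Agent.N809.DA.Num

/-!
# The bound for `|G|` on the minor arcs
-/

set_option autoImplicit false

namespace Pool.Agent.N809.BP

open Complex Finset Filter Topology
open scoped Real
open Pool.Agent.N809.DA

lemma e0866 {u : ℝ} (hu : 0.866 ≤ u) : Real.exp (-(2 * π * u)) ≤ 0.0044 := by
  have hpi := Real.pi_gt_d6
  refine (exp_neg_le (f := 0.4412) 5 (by norm_num) (by push_cast; nlinarith)).trans (by norm_num)

lemma PsiR_866 {u : ℝ} (hu : 0.866 ≤ u) : PsiR u ≤ 0.0045 := by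
  have h := e0866 hu
  have h0 := Real.exp_pos (-(2 * π * u))
  refine (psiR_le h0.le (by linarith)).trans ?_
  rw [div_le_iff₀ (by linarith)]
  nlinarith

lemma abs_Psi_re {w : ℂ} (hw : 0.866 ≤ w.re) : |(Psi w).re| ≤ 0.0045 :=
  (Complex.abs_re_le_norm _).trans ((norm_Psi_le (by linarith)).trans (PsiR_866 hw))

lemma ge_866 {Y : ℝ} (hY : 0 < Y) (h : 3 ≤ 4 * Y ^ 2) : 0.866 ≤ Y := by
  by_contra hlt
  push Not at hlt
  nlinarith

lemma log_pi_div : 0.045 ≤ Real.log (π / 3) := by
  have hpi := Real.pi_gt_d6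
  have h := Real.one_sub_inv_le_log_of_pos (x := π / 3) (by positivity)
  rw [inv_div] at h
  have h2 : 3 / π ≤ 0.955 := by
    rw [div_le_iff₀ Real.pi_pos]
    linarith
  linarith

lemma h_lower {Y : ℝ} (hY : 0 < Y) : 0.26125 ≤ π * Y / 12 - Real.log Y / 4 := by
  have h1 := Real.log_le_sub_one_of_pos (x := π / 3 * Y) (by positivity)
  rw [Real.log_mul (by positivity) hY.ne'] at h1
  have := log_pi_div
  linarith

lemma log_26 : 0.95 ≤ Real.log 2.6 := by
  rw [Real.le_log_iff_exp_le (by norm_num)]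
  have h1 : Real.exp 0.95 = Real.exp 1 * Real.exp (-0.05) := by
    rw [← Real.exp_add]
    norm_num
  have h2 := Real.exp_one_lt_d9
  have h3 : Real.exp (-0.05) ≤ 1 / (1 + 0.05) := by
    rw [Real.exp_neg, ← one_div]
    apply one_div_le_one_div_of_le (by norm_num)
    linarith [Real.add_one_le_exp (0.05 : ℝ)]
  rw [h1]
  calc Real.exp 1 * Real.exp (-0.05) ≤ 2.7182818286 * (1 / (1 + 0.05)) := by
        gcongr
    _ ≤ 2.6 := by norm_num

lemma h_upper {Y : ℝ} (h1 : 0.866 ≤ Y) (h2 : Y ≤ 2.6) : π * Y / 12 - Real.log Y / 4 ≤ 0.45 := by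
  have hpi := Real.pi_lt_d6
  have hY : 0 < Y := by linarith
  rcases le_total Y 1.2 with h | h
  · have h3 := Real.one_sub_inv_le_log_of_pos hY
    have h4 : Y⁻¹ ≤ 1.155 := by
      rw [inv_le_comm₀ hY (by norm_num)]
      refine le_trans ?_ h1
      norm_num
    nlinarith
  · have h3 := Real.log_le_sub_one_of_pos (x := 2.6 / Y) (by positivity)
    rw [Real.log_div (by norm_num) hY.ne'] at h3
    have h4 := log_26
    have h5 : 2.6 / Y ≤ 4 * (0.7918 - 0.2083 * Y) := by
      rw [div_le_iff₀ hY]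
      nlinarith [mul_nonneg (sub_nonneg.2 h) (sub_nonneg.2 h2)]
    nlinarith

lemma HH_lower {w : ℂ} (hw : 0 < w.re) : 0.2567 ≤ HH w := by
  obtain ⟨c, d, hcd, hY⟩ := exists_fd hw
  obtain ⟨w', hre, hpos, hH⟩ := HH_rep hcd hw
  rw [← hre] at hY
  have h1 := ge_866 hpos hY
  have h2 := abs_le.1 (abs_Psi_re h1)
  have h3 := h_lower hpos
  rw [← hH]
  unfold HH
  linarith [h2.1]

lemma log_three_bounds : 1.098 ≤ Real.log 3 ∧ Real.log 3 ≤ 1.099 := by
  have h2 := Real.log_two_gt_d9
  have h2' := Real.log_two_lt_d9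
  have e : Real.log 3 = 2 * Real.log 2 - Real.log (4 / 3) := by
    rw [Real.log_div (by norm_num) (by norm_num), show (4 : ℝ) = 2 ^ 2 by norm_num, Real.log_pow]
    push_cast
    ring
  constructor
  · -- log (4/3) ≤ 0.2882
    have h3 : Real.log (4 / 3) ≤ 0.2882 := by
      rw [Real.log_le_iff_le_exp (by norm_num)]
      have h4 : Real.exp 0.2882 = Real.exp 0.014410 ^ 20 := by
        rw [← Real.exp_nat_mul]
        norm_num
      have h5 := Real.quadratic_le_exp_of_nonneg (x := 0.014410) (by norm_num)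
      rw [h4]
      calc (4 / 3 : ℝ) ≤ (1 + 0.014410 + 0.014410 ^ 2 / 2) ^ 20 := by norm_num
        _ ≤ _ := by gcongr
    rw [e]
    linarith
  · have h3 : 0.2876 ≤ Real.log (4 / 3) := by
      rw [Real.le_log_iff_exp_le (by norm_num)]
      have h4 : Real.exp 0.2876 = (Real.exp (-0.00719))⁻¹ ^ 40 := by
        rw [← Real.exp_neg, ← Real.exp_nat_mul]
        norm_num
      rw [h4]
      have h6 : (Real.exp (-0.00719))⁻¹ ≤ (1 - 0.00719 + 0.0000255)⁻¹ := by
        apply inv_anti₀ (by norm_num)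
        have h7 : Real.exp (-0.00719) = (Real.exp 0.00719)⁻¹ := Real.exp_neg _
        have h8 : Real.exp 0.00719 ≤ 1 + 0.00719 + 0.00719 ^ 2 := by
          have := Real.exp_bound' (x := 0.00719) (by norm_num) (by norm_num) (n := 2) (by norm_num)
          simp [Finset.sum_range_succ] at this
          norm_num at this ⊢
          linarith
        rw [h7, ← one_div]
        rw [le_div_iff₀ (Real.exp_pos _)]
        have h9 : Real.exp 0.00719 ≤ 1 + 0.00719 + 0.0000262 := by
          have := Real.exp_bound' (x := 0.00719) (by norm_num) (by norm_num) (n := 3) (by norm_num)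
          simp [Finset.sum_range_succ, Nat.factorial] at this
          norm_num at this ⊢
          linarith
        calc (1 - 0.00719 + 0.0000255) * Real.exp 0.00719
            ≤ (1 - 0.00719 + 0.0000255) * (1 + 0.00719 + 0.0000262) := by
              apply mul_le_mul_of_nonneg_left h9 (by norm_num)
          _ ≤ 1 := by norm_num
      calc (Real.exp (-0.00719))⁻¹ ^ 40 ≤ (1 - 0.00719 + 0.0000255)⁻¹ ^ 40 := by
            gcongr
        _ ≤ 4 / 3 := by norm_num
    rw [e]
    linarith

/-- `log |G|`, up to the elementary factor -/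
noncomputable def DD (w : ℂ) : ℝ := HH (3 * w) - HH w + Real.log 3 / 4

lemma re_LG {w : ℂ} (hw : 0 < w.re) : (LG w).re = DD w - π * w.re / 6 := by
  unfold DD HH LG
  have h3 : (3 * w).re = 3 * w.re := by simp
  rw [h3, Real.log_mul (by norm_num) hw.ne', Complex.sub_re]
  ring

theorem DD_bound {w : ℂ} (hw : 0 < w.re) : DD w ≤ 0.5 ∨ ∃ c d : ℤ, IsCoprime c d ∧ ¬ (3 ∣ d) ∧
    3 ≤ 4 * (3 * w.re / ((d - 3 * c * w.im) ^ 2 + (3 * c * w.re) ^ 2)) ^ 2 ∧
    DD w ≤ π / 6 * (w.re / ((d - 3 * c * w.im) ^ 2 + (3 * c * w.re) ^ 2)) + 0.01 := by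
  have h3w : 0 < (3 * w).re := by simpa using hw
  have hre3 : (3 * w).re = 3 * w.re := by simp
  have him3 : (3 * w).im = 3 * w.im := by simp
  obtain ⟨c, d, hcd, hY⟩ := exists_fd h3w
  obtain ⟨w3, hre, hpos, hH⟩ := HH_rep hcd h3w
  rw [← hre] at hY
  rw [hre3, him3] at hre
  have hY3 := ge_866 hpos hY
  have hP3 := abs_le.1 (abs_Psi_re hY3)
  have hl3 := log_three_bounds
  have hpi := Real.pi_gt_d6
  have hHH3 : HH (3 * w) ≤ π * w3.re / 12 - Real.log w3.re / 4 + 0.0045 := by
    rw [← hH]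
    unfold HH
    linarith [hP3.2]
  by_cases h3 : (3 : ℤ) ∣ d
  · left
    obtain ⟨e, rfl⟩ := h3
    have hce : IsCoprime c e := hcd.of_mul_right_right
    obtain ⟨w', hre', hpos', hH'⟩ := HH_rep hce hw
    have hrel : w'.re = 3 * w3.re := by
      rw [hre', hre]
      push_cast
      have e1 : ((3 * (e : ℝ)) - c * (3 * w.im)) ^ 2 + (c * (3 * w.re)) ^ 2 =
          9 * ((e - c * w.im) ^ 2 + (c * w.re) ^ 2) := by ring
      rw [e1]
      have hne : ((e - c * w.im) ^ 2 + (c * w.re) ^ 2 : ℝ) ≠ 0 := by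
        intro h0
        rw [h0, div_zero] at hre'
        linarith
      field_simp
      norm_num
    have hP' := abs_le.1 (abs_Psi_re (w := w') (by linarith))
    have hHHw : π * w'.re / 12 - Real.log w'.re / 4 - 0.0045 ≤ HH w := by
      rw [← hH']
      unfold HH
      linarith [hP'.1]
    rw [hrel, Real.log_mul (by norm_num) hpos.ne'] at hHHw
    unfold DD
    nlinarith
  · rcases le_total w3.re 2.6 with h26 | h26
    · left
      have h1 := h_upper hY3 h26
      have h2 := HH_lower hw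
      unfold DD
      linarith
    · right
      have hcop : IsCoprime (3 * c) d := by
        apply IsCoprime.mul_left _ hcd
        exact (Int.isCoprime_iff_gcd_eq_one.2 (by
          have hp : Nat.Prime 3 := Nat.prime_three
          have := (Nat.Prime.coprime_iff_not_dvd hp (n := d.natAbs)).2 (by
            intro h
            exact h3 (Int.natCast_dvd.2 h))
          simpa [Int.gcd] using this))
      obtain ⟨w', hre', hpos', hH'⟩ := HH_rep hcop hw
      push_cast at hre'
      have hden : ((d : ℝ) - 3 * c * w.im) ^ 2 + (3 * c * w.re) ^ 2 =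
          ((d : ℝ) - c * (3 * w.im)) ^ 2 + (c * (3 * w.re)) ^ 2 := by ring
      have hrel : w'.re = w3.re / 3 := by
        rw [hre', hre, hden]
        ring
      have hrel2 : 3 * w.re / (((d : ℝ) - 3 * c * w.im) ^ 2 + (3 * c * w.re) ^ 2) = w3.re := by
        rw [hden, hre]
      have hrel3 : w.re / (((d : ℝ) - 3 * c * w.im) ^ 2 + (3 * c * w.re) ^ 2) = w3.re / 3 := by
        rw [← hrel, hre']
      refine ⟨c, d, hcd, h3, ?_, ?_⟩
      · rw [hrel2]
        exact hY
      · rw [hrel3]
        have hP' := abs_le.1 (abs_Psi_re (w := w') (by rw [hrel]; linarith))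
        have hHHw : π * w'.re / 12 - Real.log w'.re / 4 - 0.0045 ≤ HH w := by
          rw [← hH']
          unfold HH
          linarith [hP'.1]
        rw [hrel, Real.log_div hpos.ne' (by norm_num)] at hHHw
        unfold DD
        linarith

end Pool.Agent.N809.BP
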