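import Pool.Agent.N809.BP.Err

/-!
# Bounds for the difference of the remainders at `d` and at `3`
-/

set_option autoImplicit false

namespace Pool.Agent.N809.BP

open Complex Finset Filter Topology MeasureTheory
open scoped Real ComplexConjugate
open Pool.Agent.N809.DA

lemma diff_le {f f' : ℝ → ℂ} {d C : ℝ} (hd3 : d ≤ 3) (hf : ∀ s ∈ Set.Icc d 3, HasDerivAt f (f' s) s)
    (hC : ∀ s ∈ Set.Icc d 3, ‖f' s‖ ≤ C) : ‖f d - f 3‖ ≤ (3 - d) * C := by
  have h := (convex_Icc d 3).norm_image_sub_le_of_norm_hasDerivWithin_le (f := f) (f' := f') (C := C)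
    (fun s hs => (hf s hs).hasDerivWithinAt) hC (Set.right_mem_Icc.2 hd3) (Set.left_mem_Icc.2 hd3)
  rw [Real.norm_eq_abs, abs_of_nonpos (by linarith)] at h
  linarith

lemma PsiR_small {y : ℝ} (hy : 0 < y) (hy2 : y ≤ 0.05) : PsiR y ≤ π / (12 * y) := by
  have hpi := Real.pi_pos
  rw [PsiR_trans hy]
  have h1 : Real.log y ≤ -1 := by
    have := Real.log_le_log hy hy2
    have h2 : Real.log 0.05 ≤ -1 := by
      rw [Real.log_le_iff_le_exp (by norm_num), Real.exp_neg]
      have := Real.exp_one_lt_d9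
      rw [le_inv_comm₀ (by norm_num) (Real.exp_pos 1)]
      linarith
    linarith
  have h2 : PsiR (1 / y) ≤ 0.0045 := by
    apply PsiR_866
    rw [le_div_iff₀ hy]
    linarith
  nlinarith [mul_pos hpi hy]

lemma norm_LG {y : ℝ} (hy : 0 < y) (hy2 : y ≤ 0.0131) (ξ : ℝ) :
    ‖LG ((y : ℂ) + ξ * I)‖ ≤ π / (9 * y) := by
  have hpi := Real.pi_pos
  have hw : 0 < ((y : ℂ) + ξ * I).re := by rw [line_re]; exact hy
  have hw3 : 0 < (3 * ((y : ℂ) + ξ * I)).re := by simpa using hw
  have h1 := norm_Psi_le hw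
  have h3 := norm_Psi_le hw3
  have e3 : (3 * ((y : ℂ) + ξ * I)).re = 3 * y := by simp
  rw [line_re] at h1
  rw [e3] at h3
  have k1 := PsiR_small hy (by linarith)
  have k3 := PsiR_small (y := 3 * y) (by linarith) (by linarith)
  unfold LG
  refine (norm_sub_le _ _).trans ?_
  have : π / (12 * (3 * y)) + π / (12 * y) = π / (9 * y) := by
    field_simp
    norm_num
  linarith

lemma FF_diff {d : ℝ} (hd0 : 0 ≤ d) (hd3 : d ≤ 3) (n : ℕ) {y b : ℝ} (hy : 0 < y) (hy2 : y ≤ 0.0131)
    (hb : 0 ≤ b) (ξ : ℝ) (hD : DD ((y : ℂ) + ξ * I) ≤ b) :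
    ‖FF d n y ξ - FF 3 n y ξ‖ ≤ (3 - d) * (π / (9 * y) * Real.exp (3 * b + BB d n * y)) := by
  have hpi := Real.pi_pos
  refine diff_le (f := fun s => FF s n y ξ) (f' := fun s => FF s n y ξ * LG ((y : ℂ) + ξ * I)) hd3 ?_ ?_
  · intro s _
    unfold FF NB
    have h1 : HasDerivAt (fun s : ℝ => (s : ℂ) * LG ((y : ℂ) + ξ * I) + 2 * π * n * ((y : ℂ) + ξ * I))
        (LG ((y : ℂ) + ξ * I)) s := by
      have := ((hasDerivAt_id s).ofReal_comp.mul_const (LG ((y : ℂ) + ξ * I))).add_const
        (2 * π * n * ((y : ℂ) + ξ * I))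
      simpa using this
    exact h1.cexp
  · intro s hs
    rw [norm_mul, norm_FF s n hy, mul_comm]
    have h1 := norm_LG hy hy2 ξ
    have h2 : s * DD ((y : ℂ) + ξ * I) + BB s n * y ≤ 3 * b + BB d n * y := by
      have hs0 : 0 ≤ s := hd0.trans hs.1
      have a1 : s * DD ((y : ℂ) + ξ * I) ≤ s * b := mul_le_mul_of_nonneg_left hD hs0
      have a2 : s * b ≤ 3 * b := mul_le_mul_of_nonneg_right hs.2 hb
      have a3 : BB s n * y ≤ BB d n * y := by
        apply mul_le_mul_of_nonneg_right _ hy.le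
        unfold BB
        have := mul_le_mul_of_nonneg_right hs.1 hpi.le
        linarith
      linarith
    have h3 := Real.exp_le_exp.2 h2
    exact mul_le_mul h1 h3 (Real.exp_pos _).le (by positivity)

lemma KK_diff {d : ℝ} (hd0 : 0 ≤ d) (hd3 : d ≤ 3) (n : ℕ) {y η : ℝ} (hy : 0 < y) (hy2 : y ≤ 0.0131)
    (hη : |η| ≤ √3 * y) :
    ‖KK d n y η - KK 3 n y η‖ ≤ (3 - d) * (0.00002 / y * Real.exp (BB d n * y)) := by
  have hpi := Real.pi_pos
  have hpi4 := Real.pi_lt_d4
  obtain ⟨h1, h2⟩ := norm_LG_dual hy hy2 hη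
  have hv := v_ge hy hη
  set v : ℝ := y / (y ^ 2 + η ^ 2) with hvdef
  have hv0 : 0 < v := lt_of_lt_of_le (by positivity) hv
  set u : ℂ := (y : ℂ) + η * I with hu
  set L : ℂ := LG (dual y η) with hL
  set E' : ℂ := π / 18 * I + (π / 54 * u⁻¹ - π / 6 * u) with hE'
  have hnu : ‖u‖ ≤ 2 * y := by
    rw [← sq_le_sq₀ (norm_nonneg _) (by positivity), ← Complex.normSq_eq_norm_sq, hu, line_normSq]
    have : η ^ 2 ≤ (√3 * y) ^ 2 := by
      rw [← sq_abs η]
      exact pow_le_pow_left₀ (abs_nonneg _) hη 2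
    rw [mul_pow, Real.sq_sqrt (by norm_num)] at this
    nlinarith
  have hnu2 : ‖u⁻¹‖ ≤ 1 / y := by
    rw [norm_inv, ← one_div]
    apply one_div_le_one_div_of_le hy
    have := Complex.re_le_norm u
    rw [hu, line_re] at this
    exact this
  have hnE : ‖E'‖ ≤ 0.0582 / y + 0.19 := by
    have a1 : ‖(π / 18 * I : ℂ)‖ = π / 18 := by
      rw [norm_mul, Complex.norm_I, mul_one]
      rw [show (π / 18 : ℂ) = ((π / 18 : ℝ) : ℂ) by push_cast; rfl, Complex.norm_real,
        Real.norm_of_nonneg (by positivity)]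
    have a2 : ‖(π / 54 * u⁻¹ : ℂ)‖ ≤ π / 54 * (1 / y) := by
      rw [norm_mul, show (π / 54 : ℂ) = ((π / 54 : ℝ) : ℂ) by push_cast; rfl, Complex.norm_real,
        Real.norm_of_nonneg (by positivity)]
      gcongr
    have a3 : ‖(π / 6 * u : ℂ)‖ ≤ π / 6 * (2 * y) := by
      rw [norm_mul, show (π / 6 : ℂ) = ((π / 6 : ℝ) : ℂ) by push_cast; rfl, Complex.norm_real,
        Real.norm_of_nonneg (by positivity)]
      gcongr
    have a4 := norm_add_le (π / 18 * I : ℂ) (π / 54 * u⁻¹ - π / 6 * u)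
    have a5 := norm_sub_le (π / 54 * u⁻¹ : ℂ) (π / 6 * u)
    have a6 : π / 54 * (1 / y) ≤ 0.0582 / y := by
      rw [mul_one_div]
      gcongr
      linarith
    nlinarith
  have hLsmall : ‖L‖ ≤ 0.000003 := by linarith
  refine diff_le (f := fun s => KK s n y η)
    (f' := fun s => cexp (ph s n * I) * EA s n y η * (E' * (cexp (s * L) - 1) + cexp (s * L) * L)) hd3 ?_ ?_
  · intro s _
    have e1 : (fun s : ℝ => KK s n y η) = fun s : ℝ => cexp ((s : ℂ) * E' + (2 * π * n / 3 * I +
        2 * π * n * u)) * (cexp ((s : ℂ) * L) - 1) := by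
      funext s
      rw [KK_eq s n hy]
      unfold EA
      rw [← Complex.exp_add]
      congr 2
      unfold ph AA BB
      rw [hE', ← hu]
      push_cast
      ring
    rw [e1]
    have d1 : HasDerivAt (fun s : ℝ => (s : ℂ) * E' + (2 * π * n / 3 * I + 2 * π * n * u)) E' s := by
      have := ((hasDerivAt_id s).ofReal_comp.mul_const E').add_const (2 * π * n / 3 * I + 2 * π * n * u)
      simpa using this
    have d2 : HasDerivAt (fun s : ℝ => (s : ℂ) * L) L s := by
      have := ((hasDerivAt_id s).ofReal_comp.mul_const L)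
      simpa using this
    have d3 := d1.cexp.mul (d2.cexp.sub_const 1)
    refine d3.congr_deriv ?_
    have e2 : cexp (ph s n * I) * EA s n y η = cexp ((s : ℂ) * E' + (2 * π * n / 3 * I + 2 * π * n * u)) := by
      unfold EA
      rw [← Complex.exp_add]
      congr 1
      unfold ph AA BB
      rw [hE', ← hu]
      push_cast
      ring
    rw [e2]
    ring
  · intro s hs
    have hs0 : 0 ≤ s := hd0.trans hs.1
    rw [norm_mul, norm_mul, Complex.norm_exp_ofReal_mul_I, one_mul, norm_EA, ← hvdef]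
    have hsL : ‖(s : ℂ) * L‖ ≤ 3 * ‖L‖ := by
      rw [norm_mul, Complex.norm_real, Real.norm_of_nonneg hs0]
      exact mul_le_mul_of_nonneg_right hs.2 (norm_nonneg _)
    have b1 := Complex.norm_exp_sub_one_le (x := (s : ℂ) * L) (by linarith)
    have b2 : ‖cexp (s * L)‖ ≤ 1.001 := by
      have : cexp (s * L) = (cexp (s * L) - 1) + 1 := by ring
      rw [this]
      refine (norm_add_le _ _).trans ?_
      rw [norm_one]
      linarith
    have b3 : ‖E' * (cexp (s * L) - 1) + cexp (s * L) * L‖ ≤ ((0.0582 / y + 0.19) * 6 + 1.001) * ‖L‖ := by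
      refine (norm_add_le _ _).trans ?_
      rw [norm_mul, norm_mul]
      have c1 : ‖E'‖ * ‖cexp (s * L) - 1‖ ≤ (0.0582 / y + 0.19) * (2 * (3 * ‖L‖)) := by
        apply mul_le_mul hnE (b1.trans (by linarith)) (norm_nonneg _) (by positivity)
      have c2 : ‖cexp (s * L)‖ * ‖L‖ ≤ 1.001 * ‖L‖ := mul_le_mul_of_nonneg_right b2 (norm_nonneg _)
      linarith
    have h5 := KK_aux (d := s) hs.2 hv0.le
    have h6 := e_neg_y hy hy2
    have h7 : Real.exp (-(π / 6 * v)) ≤ Real.exp (-(π / (24 * y))) := by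
      apply Real.exp_le_exp.2
      have : π / (24 * y) = π / 6 * (1 / (4 * y)) := by
        field_simp
        norm_num
      rw [this]
      have := mul_le_mul_of_nonneg_left hv (by positivity : 0 ≤ π / 6)
      linarith
    have a3 : Real.exp (BB s n * y) ≤ Real.exp (BB d n * y) := by
      apply Real.exp_le_exp.2
      apply mul_le_mul_of_nonneg_right _ hy.le
      unfold BB
      have := mul_le_mul_of_nonneg_right hs.1 hpi.le
      linarith
    rw [Real.exp_add]
    have hA := Real.exp_pos (AA s * v)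
    have hBs := Real.exp_pos (BB s n * y)
    have hy1 : (0.0582 / y + 0.19) * 6 + 1.001 ≤ 0.38 / y := by
      have : 1 ≤ 0.0131 / y := by
        rw [le_div_iff₀ hy]
        linarith
      have e : 0.0131 / y = 0.0131 * (1 / y) := by ring
      have e2 : 0.0582 / y = 0.0582 * (1 / y) := by ring
      have e3 : 0.38 / y = 0.38 * (1 / y) := by ring
      rw [e] at this
      rw [e2, e3]
      linarith
    calc Real.exp (AA s * v) * Real.exp (BB s n * y) * ‖E' * (cexp (s * L) - 1) + cexp (s * L) * L‖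
        ≤ Real.exp (AA s * v) * Real.exp (BB d n * y) *
          (0.38 / y * (1.01 * Real.exp (-(2 * π * (v / 9))))) := by
          gcongr
          refine b3.trans ?_
          apply mul_le_mul hy1 h1 (norm_nonneg _) (by positivity)
      _ = 0.3838 / y * Real.exp (BB d n * y) * (Real.exp (AA s * v) * Real.exp (-(2 * π * (v / 9)))) := by
          ring
      _ ≤ 0.3838 / y * Real.exp (BB d n * y) * 0.00005 := by
          gcongr
          linarith
      _ ≤ 0.00002 / y * Real.exp (BB d n * y) := by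
          have e2 : 0.3838 / y * Real.exp (BB d n * y) * 0.00005 =
            0.00001919 * (1 / y * Real.exp (BB d n * y)) := by ring
          have e3 : 0.00002 / y * Real.exp (BB d n * y) = 0.00002 * (1 / y * Real.exp (BB d n * y)) := by ring
          rw [e2, e3]
          have : 0 < 1 / y * Real.exp (BB d n * y) := by positivity
          nlinarith

/-- the bound for the difference of the remainders -/
theorem RR_diff {d : ℝ} (hd0 : 0 ≤ d) (hd3 : d ≤ 3) (n : ℕ) {y : ℝ} (hy : 0 < y) (hy2 : y ≤ 0.0131) :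
    ‖RR d n y - RR 3 n y‖ ≤ (3 - d) * (Real.exp (BB d n * y) * (0.0001 +
      π / (9 * y) * (0.5 * Real.exp (3 * (π / (486 * y) + 0.01)) +
      4.4292 * y * Real.exp (3 * (π / (216 * y) + 0.01))))) := by
  obtain ⟨h31, h32⟩ := sqrt3
  have hpi := Real.pi_pos
  have s2 : √3 * y < 1.73206 * y := by gcongr
  have s0 : 0 < √3 * y := by positivity
  have hB := Real.exp_pos (BB d n * y)
  have hd : 0 ≤ 3 - d := by linarith
  have hKd := KK_continuous d n hy
  have hK3 := KK_continuous 3 n hy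
  have hFd := FF_continuous d n hy
  have hF3 := FF_continuous 3 n hy
  have h1 : ‖∫ η in (-(√3 * y))..(√3 * y), (KK d n y η - KK 3 n y η)‖ ≤
      (3 - d) * (0.0001 * Real.exp (BB d n * y)) := by
    have := intervalIntegral.norm_integral_le_of_norm_le_const (a := -(√3 * y)) (b := √3 * y)
      (f := fun η => KK d n y η - KK 3 n y η)
      (C := (3 - d) * (0.00002 / y * Real.exp (BB d n * y))) (fun η hη => by
        rw [Set.uIoc_of_le (by linarith)] at hη
        exact KK_diff hd0 hd3 n hy hy2 (abs_le.2 ⟨hη.1.le, hη.2⟩))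
    refine this.trans ?_
    rw [abs_of_nonneg (by linarith)]
    have e1 : (3 - d) * (0.00002 / y * Real.exp (BB d n * y)) * (√3 * y - -(√3 * y)) =
        (3 - d) * (0.00004 * √3 * Real.exp (BB d n * y)) := by
      field_simp
      ring
    rw [e1]
    apply mul_le_mul_of_nonneg_left _ hd
    nlinarith
  have h2 := minor_integral (G := fun ξ => FF d n y ξ - FF 3 n y ξ) (hFd.sub hF3)
    (C6 := (3 - d) * (π / (9 * y) * Real.exp (3 * (π / (216 * y) + 0.01) + BB d n * y)))
    (C9 := (3 - d) * (π / (9 * y) * Real.exp (3 * (π / (486 * y) + 0.01) + BB d n * y))) hy hy2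
    (by positivity) (by positivity)
    (fun ξ h0 h1 h3 => FF_diff hd0 hd3 n hy hy2 (by positivity) ξ (DD_le6 hy hy2 h0 h1 h3))
    (fun ξ h0 h1 h6 h3 => FF_diff hd0 hd3 n hy hy2 (by positivity) ξ (DD_le9 hy hy2 h0 h1 h6 h3))
  have e : RR d n y - RR 3 n y = (∫ η in (-(√3 * y))..(√3 * y), (KK d n y η - KK 3 n y η)) +
      ((∫ ξ in (0 : ℝ)..(1 / 3 - √3 * y), (FF d n y ξ - FF 3 n y ξ)) +
        ∫ ξ in (1 / 3 + √3 * y)..(1 / 2), (FF d n y ξ - FF 3 n y ξ)) := by
    unfold RR
    rw [intervalIntegral.integral_sub (hKd.intervalIntegrable _ _) (hK3.intervalIntegrable _ _),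
      intervalIntegral.integral_sub (hFd.intervalIntegrable _ _) (hF3.intervalIntegrable _ _),
      intervalIntegral.integral_sub (hFd.intervalIntegrable _ _) (hF3.intervalIntegrable _ _)]
    ring
  rw [e]
  refine (norm_add_le _ _).trans ?_
  rw [Real.exp_add, Real.exp_add] at h2
  refine (add_le_add h1 h2).trans (le_of_eq ?_)
  ring

end Pool.Agent.N809.BP
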