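import Pool.Agent.N809.BP.Major

/-!
# Bounds for the remainder
-/

set_option autoImplicit false

namespace Pool.Agent.N809.BP

open Complex Finset Filter Topology MeasureTheory
open scoped Real ComplexConjugate
open Pool.Agent.N809.DA

lemma sqrt3 : 1.73205 < √3 ∧ √3 < 1.73206 := by
  constructor
  · rw [Real.lt_sqrt (by norm_num)]
    norm_num
  · rw [Real.sqrt_lt' (by norm_num)]
    norm_num

lemma minor_integral {G : ℝ → ℂ} (hG : Continuous G) {y C6 C9 : ℝ} (hy : 0 < y) (hy2 : y ≤ 0.0131)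
    (h6 : 0 ≤ C6) (h9 : 0 ≤ C9)
    (hG6 : ∀ ξ : ℝ, 0 ≤ ξ → ξ ≤ 1 / 2 → √3 * y ≤ |ξ - 1 / 3| → ‖G ξ‖ ≤ C6)
    (hG9 : ∀ ξ : ℝ, 0 ≤ ξ → ξ ≤ 1 / 2 → 1.1181 * y ≤ |ξ - 1 / 6| → 2.8285 * y ≤ |ξ - 1 / 3| → ‖G ξ‖ ≤ C9) :
    ‖(∫ ξ in (0 : ℝ)..(1 / 3 - √3 * y), G ξ) + ∫ ξ in (1 / 3 + √3 * y)..(1 / 2), G ξ‖ ≤
      C9 / 2 + 4.4292 * y * C6 := by
  obtain ⟨h31, h32⟩ := sqrt3
  have s1 : 1.73205 * y < √3 * y := by gcongr
  have s2 : √3 * y < 1.73206 * y := by gcongr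
  have i1 : ‖∫ ξ in (0 : ℝ)..(1 / 6 - 1.1181 * y), G ξ‖ ≤ C9 * (1 / 6 - 1.1181 * y) := by
    have := intervalIntegral.norm_integral_le_of_norm_le_const (a := 0) (b := 1 / 6 - 1.1181 * y) (f := G)
      (C := C9) (fun ξ hξ => by
        rw [Set.uIoc_of_le (by linarith)] at hξ
        refine hG9 ξ hξ.1.le (by linarith [hξ.2]) ?_ ?_
        · rw [abs_of_nonpos (by linarith [hξ.2])]; linarith [hξ.2]
        · rw [abs_of_nonpos (by linarith [hξ.2])]; linarith [hξ.2])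
    rwa [sub_zero, abs_of_nonneg (by linarith)] at this
  have i2 : ‖∫ ξ in (1 / 6 - 1.1181 * y)..(1 / 6 + 1.1181 * y), G ξ‖ ≤ C6 * (2.2362 * y) := by
    have := intervalIntegral.norm_integral_le_of_norm_le_const (a := 1 / 6 - 1.1181 * y)
      (b := 1 / 6 + 1.1181 * y) (f := G) (C := C6) (fun ξ hξ => by
        rw [Set.uIoc_of_le (by linarith)] at hξ
        refine hG6 ξ (by linarith [hξ.1]) (by linarith [hξ.2]) ?_
        rw [abs_of_nonpos (by linarith [hξ.2])]; linarith [hξ.2])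
    rwa [abs_of_nonneg (by linarith), show 1 / 6 + 1.1181 * y - (1 / 6 - 1.1181 * y) = 2.2362 * y by ring] at this
  have i3 : ‖∫ ξ in (1 / 6 + 1.1181 * y)..(1 / 3 - 2.8285 * y), G ξ‖ ≤ C9 * (1 / 6 - 3.9466 * y) := by
    have := intervalIntegral.norm_integral_le_of_norm_le_const (a := 1 / 6 + 1.1181 * y)
      (b := 1 / 3 - 2.8285 * y) (f := G) (C := C9) (fun ξ hξ => by
        rw [Set.uIoc_of_le (by linarith)] at hξ
        refine hG9 ξ (by linarith [hξ.1]) (by linarith [hξ.2]) ?_ ?_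
        · rw [abs_of_nonneg (by linarith [hξ.1])]; linarith [hξ.1]
        · rw [abs_of_nonpos (by linarith [hξ.2])]; linarith [hξ.2])
    rwa [abs_of_nonneg (by linarith), show 1 / 3 - 2.8285 * y - (1 / 6 + 1.1181 * y) = 1 / 6 - 3.9466 * y by ring] at this
  have i4 : ‖∫ ξ in (1 / 3 - 2.8285 * y)..(1 / 3 - √3 * y), G ξ‖ ≤ C6 * (2.8285 * y - √3 * y) := by
    have := intervalIntegral.norm_integral_le_of_norm_le_const (a := 1 / 3 - 2.8285 * y)
      (b := 1 / 3 - √3 * y) (f := G) (C := C6) (fun ξ hξ => by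
        rw [Set.uIoc_of_le (by linarith)] at hξ
        refine hG6 ξ (by linarith [hξ.1]) (by linarith [hξ.2]) ?_
        rw [abs_of_nonpos (by linarith [hξ.2])]; linarith [hξ.2])
    rwa [abs_of_nonneg (by linarith), show 1 / 3 - √3 * y - (1 / 3 - 2.8285 * y) = 2.8285 * y - √3 * y by ring] at this
  have i5 : ‖∫ ξ in (1 / 3 + √3 * y)..(1 / 3 + 2.8285 * y), G ξ‖ ≤ C6 * (2.8285 * y - √3 * y) := by
    have := intervalIntegral.norm_integral_le_of_norm_le_const (a := 1 / 3 + √3 * y)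
      (b := 1 / 3 + 2.8285 * y) (f := G) (C := C6) (fun ξ hξ => by
        rw [Set.uIoc_of_le (by linarith)] at hξ
        refine hG6 ξ (by linarith [hξ.1]) (by linarith [hξ.2]) ?_
        rw [abs_of_nonneg (by linarith [hξ.1])]; linarith [hξ.1])
    rwa [abs_of_nonneg (by linarith), show 1 / 3 + 2.8285 * y - (1 / 3 + √3 * y) = 2.8285 * y - √3 * y by ring] at this
  have i6 : ‖∫ ξ in (1 / 3 + 2.8285 * y)..(1 / 2), G ξ‖ ≤ C9 * (1 / 6 - 2.8285 * y) := by
    have := intervalIntegral.norm_integral_le_of_norm_le_const (a := 1 / 3 + 2.8285 * y)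
      (b := 1 / 2) (f := G) (C := C9) (fun ξ hξ => by
        rw [Set.uIoc_of_le (by linarith)] at hξ
        refine hG9 ξ (by linarith [hξ.1]) (by linarith [hξ.2]) ?_ ?_
        · rw [abs_of_nonneg (by linarith [hξ.1])]; linarith [hξ.1]
        · rw [abs_of_nonneg (by linarith [hξ.1])]; linarith [hξ.1])
    rwa [abs_of_nonneg (by linarith), show 1 / 2 - (1 / 3 + 2.8285 * y) = 1 / 6 - 2.8285 * y by ring] at this
  have hi : ∀ a b : ℝ, IntervalIntegrable G volume a b := fun a b => hG.intervalIntegrable a b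
  rw [← intervalIntegral.integral_add_adjacent_intervals (a := 0) (b := 1 / 6 - 1.1181 * y)
      (c := 1 / 3 - √3 * y) (hi _ _) (hi _ _),
    ← intervalIntegral.integral_add_adjacent_intervals (a := 1 / 6 - 1.1181 * y) (b := 1 / 6 + 1.1181 * y)
      (c := 1 / 3 - √3 * y) (hi _ _) (hi _ _),
    ← intervalIntegral.integral_add_adjacent_intervals (a := 1 / 6 + 1.1181 * y) (b := 1 / 3 - 2.8285 * y)
      (c := 1 / 3 - √3 * y) (hi _ _) (hi _ _),
    ← intervalIntegral.integral_add_adjacent_intervals (a := 1 / 3 + √3 * y) (b := 1 / 3 + 2.8285 * y)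
      (c := 1 / 2) (hi _ _) (hi _ _)]
  have t1 := norm_add_le (∫ ξ in (0 : ℝ)..(1 / 6 - 1.1181 * y), G ξ)
    ((∫ ξ in (1 / 6 - 1.1181 * y)..(1 / 6 + 1.1181 * y), G ξ) +
      ((∫ ξ in (1 / 6 + 1.1181 * y)..(1 / 3 - 2.8285 * y), G ξ) + ∫ ξ in (1 / 3 - 2.8285 * y)..(1 / 3 - √3 * y), G ξ))
  have t2 := norm_add_le (∫ ξ in (1 / 6 - 1.1181 * y)..(1 / 6 + 1.1181 * y), G ξ)
      ((∫ ξ in (1 / 6 + 1.1181 * y)..(1 / 3 - 2.8285 * y), G ξ) + ∫ ξ in (1 / 3 - 2.8285 * y)..(1 / 3 - √3 * y), G ξ)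
  have t3 := norm_add_le (∫ ξ in (1 / 6 + 1.1181 * y)..(1 / 3 - 2.8285 * y), G ξ)
    (∫ ξ in (1 / 3 - 2.8285 * y)..(1 / 3 - √3 * y), G ξ)
  have t4 := norm_add_le (∫ ξ in (1 / 3 + √3 * y)..(1 / 3 + 2.8285 * y), G ξ)
    (∫ ξ in (1 / 3 + 2.8285 * y)..(1 / 2), G ξ)
  refine (norm_add_le _ _).trans ?_
  have hfin : C9 * (1 / 6 - 1.1181 * y) + C6 * (2.2362 * y) + C9 * (1 / 6 - 3.9466 * y) +
      C6 * (2.8285 * y - √3 * y) + C6 * (2.8285 * y - √3 * y) + C9 * (1 / 6 - 2.8285 * y) ≤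
      C9 / 2 + 4.4292 * y * C6 := by
    nlinarith [mul_nonneg h9 hy.le, mul_nonneg h6 (sub_nonneg.2 s1.le)]
  linarith

lemma v_ge {y η : ℝ} (hy : 0 < y) (hη : |η| ≤ √3 * y) : 1 / (4 * y) ≤ y / (y ^ 2 + η ^ 2) := by
  rw [div_le_div_iff₀ (by positivity) (by positivity)]
  have h1 : η ^ 2 ≤ 3 * y ^ 2 := by
    rw [← sq_abs η]
    calc |η| ^ 2 ≤ (√3 * y) ^ 2 := pow_le_pow_left₀ (abs_nonneg _) hη 2
      _ = 3 * y ^ 2 := by rw [mul_pow, Real.sq_sqrt (by norm_num)]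
  nlinarith

lemma e_neg_1333 {v : ℝ} (hv : 19.08 ≤ v) : Real.exp (-(2 * π * (v / 9))) ≤ 0.000002 := by
  have hpi := Real.pi_gt_d6
  refine (exp_neg_le (f := 0.31) 13 (by norm_num) (by push_cast; nlinarith)).trans (by norm_num)

lemma norm_LG_dual {y η : ℝ} (hy : 0 < y) (hy2 : y ≤ 0.0131) (hη : |η| ≤ √3 * y) :
    ‖LG (dual y η)‖ ≤ 1.01 * Real.exp (-(2 * π * ((y / (y ^ 2 + η ^ 2)) / 9))) ∧
    Real.exp (-(2 * π * ((y / (y ^ 2 + η ^ 2)) / 9))) ≤ 0.000002 := by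
  have hv := v_ge hy hη
  set v : ℝ := y / (y ^ 2 + η ^ 2) with hvdef
  have hv2 : 19.08 ≤ v := by
    refine le_trans ?_ hv
    rw [le_div_iff₀ (by positivity)]
    linarith
  have hr := e_neg_1333 hv2
  refine ⟨?_, hr⟩
  set r : ℝ := Real.exp (-(2 * π * (v / 9))) with hrdef
  have hr0 : 0 < r := Real.exp_pos _
  have hre : (dual y η).re = v / 9 := dual_re y η
  have hpos : 0 < (dual y η).re := by rw [hre]; linarith
  have hpos3 : 0 < (3 * dual y η).re := by simpa using hpos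
  have h1 := norm_Psi_le hpos
  have h3 := norm_Psi_le hpos3
  have hre3 : (3 * dual y η).re = 3 * (v / 9) := by
    rw [← hre]
    simp
  rw [hre] at h1
  rw [hre3] at h3
  have k1 : PsiR (v / 9) ≤ r / (1 - 3 * r) := psiR_le hr0.le (by linarith)
  have hr3 : Real.exp (-(2 * π * (3 * (v / 9)))) = r ^ 3 := by
    rw [hrdef, ← Real.exp_nat_mul]
    congr 1
    push_cast
    ring
  have k3 : PsiR (3 * (v / 9)) ≤ r ^ 3 / (1 - 3 * r ^ 3) := by
    have := psiR_le (r := Real.exp (-(2 * π * (3 * (v / 9))))) (Real.exp_pos _).le (by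
      rw [hr3]
      nlinarith [mul_pos hr0 hr0, mul_pos (mul_pos hr0 hr0) hr0])
    rw [hr3] at this
    unfold PsiR
    rw [hr3]
    exact this
  have k1' : r / (1 - 3 * r) ≤ 1.001 * r := by
    rw [div_le_iff₀ (by linarith)]
    nlinarith
  have k3' : r ^ 3 / (1 - 3 * r ^ 3) ≤ 0.001 * r := by
    have hr2 : r ^ 3 ≤ 0.000002 * r := by
      have : r ^ 2 ≤ 0.000002 := by nlinarith
      nlinarith
    rw [div_le_iff₀ (by nlinarith)]
    nlinarith
  unfold LG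
  refine (norm_sub_le _ _).trans ?_
  linarith

lemma KK_aux {d v : ℝ} (h3 : d ≤ 3) (hv : 0 ≤ v) :
    Real.exp (AA d * v) * Real.exp (-(2 * π * (v / 9))) ≤ Real.exp (-(π / 6 * v)) := by
  rw [← Real.exp_add]
  apply Real.exp_le_exp.2
  unfold AA
  have hpi := Real.pi_pos
  have : d * π / 54 * v ≤ 3 * π / 54 * v := by gcongr
  nlinarith

lemma e_neg_y {y : ℝ} (hy : 0 < y) (hy2 : y ≤ 0.0131) : Real.exp (-(π / (24 * y))) ≤ 0.00005 := by
  have hpi := Real.pi_gt_d6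
  have h : (9 : ℝ) + 0.99 ≤ π / (24 * y) := by
    rw [le_div_iff₀ (by positivity)]
    nlinarith
  refine (exp_neg_le (f := 0.99) 9 (by norm_num) (by push_cast; linarith)).trans (by norm_num)

lemma norm_KK {d : ℝ} (hd0 : 0 ≤ d) (hd3 : d ≤ 3) (n : ℕ) {y η : ℝ} (hy : 0 < y) (hy2 : y ≤ 0.0131)
    (hη : |η| ≤ √3 * y) : ‖KK d n y η‖ ≤ 0.001 * Real.exp (BB d n * y) := by
  obtain ⟨h1, h2⟩ := norm_LG_dual hy hy2 hη
  have hv := v_ge hy hη
  rw [KK_eq d n hy, norm_mul, norm_mul, Complex.norm_exp_ofReal_mul_I, one_mul, norm_EA]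
  set v : ℝ := y / (y ^ 2 + η ^ 2) with hvdef
  have hv0 : 0 < v := lt_of_lt_of_le (by positivity) hv
  have hLG : ‖(d : ℂ) * LG (dual y η)‖ ≤ 3.03 * Real.exp (-(2 * π * (v / 9))) := by
    rw [norm_mul, Complex.norm_real, Real.norm_of_nonneg hd0]
    have := Real.exp_pos (-(2 * π * (v / 9)))
    calc d * ‖LG (dual y η)‖ ≤ 3 * (1.01 * Real.exp (-(2 * π * (v / 9)))) := by
          apply mul_le_mul hd3 h1 (norm_nonneg _) (by norm_num)
      _ = _ := by ring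
  have h4 := Complex.norm_exp_sub_one_le (x := (d : ℂ) * LG (dual y η)) (by linarith)
  have h5 := KK_aux hd3 hv0.le
  have h6 := e_neg_y hy hy2
  have h7 : Real.exp (-(π / 6 * v)) ≤ Real.exp (-(π / (24 * y))) := by
    apply Real.exp_le_exp.2
    have hpi := Real.pi_pos
    have : π / (24 * y) = π / 6 * (1 / (4 * y)) := by
      field_simp
      norm_num
    rw [this]
    have := mul_le_mul_of_nonneg_left hv (by positivity : 0 ≤ π / 6)
    linarith
  rw [Real.exp_add]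
  have hB := Real.exp_pos (BB d n * y)
  have hA := Real.exp_pos (AA d * v)
  calc Real.exp (AA d * v) * Real.exp (BB d n * y) * ‖cexp ((d : ℂ) * LG (dual y η)) - 1‖
      ≤ Real.exp (AA d * v) * Real.exp (BB d n * y) * (2 * (3.03 * Real.exp (-(2 * π * (v / 9))))) := by
        gcongr
        linarith
    _ = 6.06 * Real.exp (BB d n * y) * (Real.exp (AA d * v) * Real.exp (-(2 * π * (v / 9)))) := by ring
    _ ≤ 6.06 * Real.exp (BB d n * y) * 0.00005 := by
        gcongr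
        linarith
    _ ≤ 0.001 * Real.exp (BB d n * y) := by nlinarith

lemma KK_continuous (d : ℝ) (n : ℕ) {y : ℝ} (hy : 0 < y) : Continuous (KK d n y) := by
  unfold KK
  exact ((FF_continuous d n hy).comp (by fun_prop)).sub (continuous_const.mul (EA_continuous d n hy))

/-- the bound for the remainder -/
theorem RR_bound {d : ℝ} (hd0 : 0 ≤ d) (hd3 : d ≤ 3) (n : ℕ) {y : ℝ} (hy : 0 < y) (hy2 : y ≤ 0.0131) :
    ‖RR d n y‖ ≤ Real.exp (BB d n * y) * (0.5001 * Real.exp (d * (π / (486 * y) + 0.01)) +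
      4.4292 * y * Real.exp (d * (π / (216 * y) + 0.01))) := by
  obtain ⟨h31, h32⟩ := sqrt3
  have hpi := Real.pi_pos
  have s2 : √3 * y < 1.73206 * y := by gcongr
  have s0 : 0 < √3 * y := by positivity
  have hB := Real.exp_pos (BB d n * y)
  have h1 : ‖∫ η in (-(√3 * y))..(√3 * y), KK d n y η‖ ≤ 0.0001 * Real.exp (BB d n * y) := by
    have := intervalIntegral.norm_integral_le_of_norm_le_const (a := -(√3 * y)) (b := √3 * y) (f := KK d n y)
      (C := 0.001 * Real.exp (BB d n * y)) (fun η hη => by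
        rw [Set.uIoc_of_le (by linarith)] at hη
        exact norm_KK hd0 hd3 n hy hy2 (abs_le.2 ⟨hη.1.le, hη.2⟩))
    refine this.trans ?_
    rw [abs_of_nonneg (by linarith)]
    nlinarith
  have h2 := minor_integral (FF_continuous d n hy) (C6 := Real.exp (d * (π / (216 * y) + 0.01) + BB d n * y))
    (C9 := Real.exp (d * (π / (486 * y) + 0.01) + BB d n * y)) hy hy2 (Real.exp_pos _).le (Real.exp_pos _).le
    (fun ξ h0 h1 h3 => by
      rw [norm_FF d n hy]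
      apply Real.exp_le_exp.2
      have := DD_le6 hy hy2 h0 h1 h3
      have := mul_le_mul_of_nonneg_left this hd0
      linarith)
    (fun ξ h0 h1 h6 h3 => by
      rw [norm_FF d n hy]
      apply Real.exp_le_exp.2
      have := DD_le9 hy hy2 h0 h1 h6 h3
      have := mul_le_mul_of_nonneg_left this hd0
      linarith)
  unfold RR
  refine (norm_add_le _ _).trans ?_
  rw [Real.exp_add, Real.exp_add] at h2
  have h3 : 1 ≤ Real.exp (d * (π / (486 * y) + 0.01)) := by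
    apply Real.one_le_exp
    positivity
  nlinarith

end Pool.Agent.N809.BP
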