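import Pool.Agent.N809.BP.Check5

/-!
# The finite check: the runs with small `N`
-/

set_option autoImplicit false
set_option maxRecDepth 100000

namespace Pool.Agent.N809.BP

lemma run5a : check clsA 11 5 1 6 43 (Mc 43) (Cc 43) = true := by decide +kernel
lemma run5b : check clsA 49 20 1 6 43 (Mc 43) (Cc 43) = true := by decide +kernel
lemma run6a : check clsB 27 10 2 6 79 (Mc 79) (Cc 79) = true := by decide +kernel
lemma run6b : check clsB 59 20 1 6 79 (Mc 79) (Cc 79) = true := by decide +kernel
lemma run6c : check clsC 43 16 3 6 79 (Mc 79) (Cc 79) = true := by decide +kernel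
lemma run6d : check3 clsD 48 16 2 6 79 (Mc 79) (Cc 79) = true := by decide +kernel
lemma run4a : check clsA 9 16 1 6 120 (Mc 120) (Cc 120) = true := by decide +kernel
lemma run4b : check clsA 11 16 1 6 120 (Mc 120) (Cc 120) = true := by decide +kernel
lemma run4c : check clsA 33 40 3 6 120 (Mc 120) (Cc 120) = true := by decide +kernel
lemma run4d : check clsA 19 20 1 6 120 (Mc 120) (Cc 120) = true := by decide +kernel

end Pool.Agent.N809.BP
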