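import Pool.Agent.N809.BP.Check5

/-!
# The finite check: the runs with `N = 189`
-/

set_option autoImplicit false
set_option maxRecDepth 100000

namespace Pool.Agent.N809.BP

lemma run3a : check clsA 11 30 1 6 189 (Mc 189) (Cc 189) = true := by decide +kernel
lemma run3b : check clsA 9 20 1 6 189 (Mc 189) (Cc 189) = true := by decide +kernel

end Pool.Agent.N809.BP
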