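import Pool.Agent.N809.BP.Check5

/-!
# The finite check: the runs with `N = 273` and `N = 312`
-/

set_option autoImplicit false
set_option maxRecDepth 100000

namespace Pool.Agent.N809.BP

lemma run2a : check clsA 17 60 2 6 273 (Mc 273) (Cc 273) = true := by decide +kernel
lemma run2b : check clsA 39 120 1 6 273 (Mc 273) (Cc 273) = true := by decide +kernel
lemma run1 : check clsA 47799 200000 2201 6 312 (Mc 312) (Cc 312) = true := by decide +kernel

end Pool.Agent.N809.BP
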