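import Pool.Agent.N809.BP.Pieces

/-!
# The sign of the coefficients for large `n`: the class `2` near `d = 3`
-/

set_option autoImplicit false

namespace Pool.Agent.N809.BP

open Complex Finset Filter Topology MeasureTheory
open scoped Real ComplexConjugate
open Pool.Agent.N809.DA

lemma ineq6 {S T : ℝ} (hS : 8.5 ≤ S) (hT0 : 0 < T) (hT : T ≤ 6.878 * S) :
    0.0001 * T * Real.exp (-(1.5 * S)) + 0.34907 * T ^ 2 * (Real.exp 0.03 * Real.exp (-(37 / 30 * S))) +
      1.5462 * T * (Real.exp 0.03 * Real.exp (-(0.9 * S))) ≤ 0.174 * 1.737 / √(S + 0.8) := by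
  have hX : 0 < S + 0.8 := by linarith
  have hsq : 0 < √(S + 0.8) := Real.sqrt_pos.2 hX
  have hlin := sqrt_le_lin (s0 := 3.04) (S0 := 8.5) (by norm_num) (by norm_num) hS
  have hS0 : 0 < S := by linarith
  rw [le_div_iff₀ hsq]
  have hD : Real.exp 0.03 ≤ 1.031 := by
    have := exp_D (d := 3) (D := 1.031) (by norm_num) (by norm_num) (by norm_num)
    norm_num at this ⊢
    exact this
  have m1 := mul_exp_le (X := S) (X₀ := 8.5) (m := 0.4) (by norm_num) (by norm_num) hS
  have m2 := mul_exp_le (X := S + 0.8) (X₀ := 9.3) (m := 13 / 30) (by norm_num) (by norm_num) (by linarith)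
  have m3 := mul_exp_le (X := S) (X₀ := 8.5) (m := 0.45) (by norm_num) (by norm_num) hS
  have m4 := mul_exp_le (X := S + 0.8) (X₀ := 9.3) (m := 0.45) (by norm_num) (by norm_num) (by linarith)
  -- first product
  have p1 : S ^ 2 * (S + 0.8) * Real.exp (-(37 / 30 * S)) ≤ 0.019065 := by
    have e1 : S ^ 2 * (S + 0.8) * Real.exp (-(37 / 30 * S)) =
        (S * Real.exp (-(0.4 * S))) * (S * Real.exp (-(0.4 * S))) *
          ((S + 0.8) * Real.exp (-(13 / 30 * (S + 0.8)))) * Real.exp (13 / 30 * 0.8) := by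
      have : Real.exp (-(37 / 30 * S)) = Real.exp (-(0.4 * S)) * Real.exp (-(0.4 * S)) *
          Real.exp (-(13 / 30 * (S + 0.8))) * Real.exp (13 / 30 * 0.8) := by
        rw [← Real.exp_add, ← Real.exp_add, ← Real.exp_add]
        congr 1
        ring
      rw [this]
      ring
    have e2 : (8.5 : ℝ) ^ 2 * 9.3 * Real.exp (-(37 / 30 * 8.5)) =
        (8.5 * Real.exp (-(0.4 * 8.5))) * (8.5 * Real.exp (-(0.4 * 8.5))) *
          (9.3 * Real.exp (-(13 / 30 * 9.3))) * Real.exp (13 / 30 * 0.8) := by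
      have : Real.exp (-(37 / 30 * 8.5)) = Real.exp (-(0.4 * 8.5)) * Real.exp (-(0.4 * 8.5)) *
          Real.exp (-(13 / 30 * 9.3)) * Real.exp (13 / 30 * 0.8) := by
        rw [← Real.exp_add, ← Real.exp_add, ← Real.exp_add]
        congr 1
        norm_num
      rw [this]
      ring
    have h5 : Real.exp (-(37 / 30 * 8.5)) ≤ 0.00002838 :=
      (exp_neg_le (f := 0.4833) 10 (by norm_num) (by norm_num)).trans (by norm_num)
    have e3 : (8.5 : ℝ) ^ 2 * 9.3 * Real.exp (-(37 / 30 * 8.5)) ≤ 0.019075 := by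
      nlinarith
    have h6 : (8.5 : ℝ) ^ 2 * 9.3 * Real.exp (-(37 / 30 * 8.5)) ≤ 0.019065 + 0.00001 := by linarith
    have h7 : Real.exp (-(37 / 30 * 8.5)) ≤ 0.000028373 + 0.0000000001 :=
      (exp_neg_le (f := 0.48333) 10 (by norm_num) (by norm_num)).trans (by norm_num)
    have e4 : (8.5 : ℝ) ^ 2 * 9.3 * Real.exp (-(37 / 30 * 8.5)) ≤ 0.019065 := by
      nlinarith
    refine le_trans ?_ e4
    rw [e1, e2]
    gcongr
  have p2 : S * (S + 0.8) * Real.exp (-(0.9 * S)) ≤ 0.03874 := by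
    have e1 : S * (S + 0.8) * Real.exp (-(0.9 * S)) =
        (S * Real.exp (-(0.45 * S))) * ((S + 0.8) * Real.exp (-(0.45 * (S + 0.8)))) * Real.exp (0.45 * 0.8) := by
      have : Real.exp (-(0.9 * S)) = Real.exp (-(0.45 * S)) * Real.exp (-(0.45 * (S + 0.8))) *
          Real.exp (0.45 * 0.8) := by
        rw [← Real.exp_add, ← Real.exp_add]
        congr 1
        ring
      rw [this]
      ring
    have e2 : (8.5 : ℝ) * 9.3 * Real.exp (-(0.9 * 8.5)) =
        (8.5 * Real.exp (-(0.45 * 8.5))) * (9.3 * Real.exp (-(0.45 * 9.3))) * Real.exp (0.45 * 0.8) := by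
      have : Real.exp (-(0.9 * 8.5)) = Real.exp (-(0.45 * 8.5)) * Real.exp (-(0.45 * 9.3)) *
          Real.exp (0.45 * 0.8) := by
        rw [← Real.exp_add, ← Real.exp_add]
        congr 1
        norm_num
      rw [this]
      ring
    have h5 : Real.exp (-(0.9 * 8.5)) ≤ 0.00049 :=
      (exp_neg_le (f := 0.65) 7 (by norm_num) (by norm_num)).trans (by norm_num)
    have e3 : (8.5 : ℝ) * 9.3 * Real.exp (-(0.9 * 8.5)) ≤ 0.03874 := by
      nlinarith
    refine le_trans ?_ e3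
    rw [e1, e2]
    gcongr
  have p3 : S * (S + 0.8) * Real.exp (-(1.5 * S)) ≤ 0.03874 := by
    refine le_trans ?_ p2
    gcongr
    linarith
  have hE := Real.exp_pos (-(37 / 30 * S))
  have hE2 := Real.exp_pos (-(0.9 * S))
  have hE3 := Real.exp_pos (-(1.5 * S))
  have hT2 : T ^ 2 ≤ (6.878 * S) ^ 2 := pow_le_pow_left₀ hT0.le hT 2
  calc (0.0001 * T * Real.exp (-(1.5 * S)) + 0.34907 * T ^ 2 * (Real.exp 0.03 * Real.exp (-(37 / 30 * S))) +
      1.5462 * T * (Real.exp 0.03 * Real.exp (-(0.9 * S)))) * √(S + 0.8)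
      ≤ (0.0001 * (6.878 * S) * Real.exp (-(1.5 * S)) +
        0.34907 * (6.878 * S) ^ 2 * (1.031 * Real.exp (-(37 / 30 * S))) +
      1.5462 * (6.878 * S) * (1.031 * Real.exp (-(0.9 * S)))) * ((S + 0.8) / 3.04) := by
        gcongr
    _ = (0.0001 * 6.878 * (S * (S + 0.8) * Real.exp (-(1.5 * S))) +
        0.34907 * 6.878 ^ 2 * 1.031 * (S ^ 2 * (S + 0.8) * Real.exp (-(37 / 30 * S))) +
        1.5462 * 6.878 * 1.031 * (S * (S + 0.8) * Real.exp (-(0.9 * S)))) / 3.04 := by ring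
    _ ≤ (0.0001 * 6.878 * 0.03874 + 0.34907 * 6.878 ^ 2 * 1.031 * 0.019065 +
        1.5462 * 6.878 * 1.031 * 0.03874) / 3.04 := by gcongr
    _ ≤ 0.174 * 1.737 := by norm_num

theorem piece6b {d : ℝ} {m : ℕ} (h1 : 5 / 2 ≤ d) (h2 : d ≤ 3) (hn : 80 ≤ 3 * m + 2)
    (hv : cf 3 (3 * m + 2) = 0) : cf d (3 * m + 2) ≤ 0 := by
  have hpi := Real.pi_gt_d6
  have hpi2 := Real.pi_lt_d6
  obtain ⟨a1, a2⟩ := AA_bounds d (by linarith)
  have hAB := AB_ge (a := 5 / 2) (by norm_num) h1 (by linarith) (by norm_num) hn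
  have hApos : 0 < AA d := by linarith
  obtain ⟨ρ, S, hρ, hS1, e1, e2, e3⟩ := exists_rho hApos (BB_pos h2 (by omega : 1 ≤ 3 * m + 2))
  have hS : (8.5 : ℝ) ^ 2 ≤ S ^ 2 := by
    rw [e3]
    refine le_trans ?_ hAB
    norm_num
  have hSS : 8.5 ≤ S := le_of_sq_le_sq hS hS1.le
  have hρ2 : ρ ≤ 0.0262 := by
    have : S * ρ ≤ S * 0.0262 := by rw [← e1]; nlinarith
    exact le_of_mul_le_mul_left this hS1
  have hR := RR_diff (d := d) (by linarith) h2 (3 * m + 2) (y := ρ / 2) (by positivity) (by linarith)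
  have hI := I1_ge' (S := S) (by linarith)
  have hf := cf_formula d (3 * m + 2) (y := ρ / 2) (by positivity)
  have hf3 := cf_formula 3 (3 * m + 2) (y := ρ / 2) (by positivity)
  rw [hv, cos_two, show (3 - 3 : ℝ) * π / 18 = 0 by ring, Real.sin_zero] at hf3
  rw [JJ_eq hρ e1 e2, cos_two] at hf
  have hRre : (RR d (3 * m + 2) (ρ / 2)).re ≤ ‖RR d (3 * m + 2) (ρ / 2) - RR 3 (3 * m + 2) (ρ / 2)‖ := by
    have := (le_abs_self _).trans (Complex.abs_re_le_norm (RR d (3 * m + 2) (ρ / 2) - RR 3 (3 * m + 2) (ρ / 2)))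
    rw [Complex.sub_re] at this
    linarith
  -- the sine
  have hd3 : 0 ≤ 3 - d := by linarith
  have hsin : 0.174 * (3 - d) ≤ Real.sin ((3 - d) * π / 18) := by
    rcases hd3.lt_or_eq with hlt | heq
    · have hx0 : 0 < (3 - d) * π / 18 := by positivity
      have h3 := Real.sin_gt_sub_cube hx0
      have hx1 : (3 - d) * π / 18 ≤ 0.0873 := by
        rw [div_le_iff₀ (by norm_num)]
        nlinarith
      have hx2 : 0.1745 * (3 - d) ≤ (3 - d) * π / 18 := by
        rw [le_div_iff₀ (by norm_num)]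
        nlinarith
      have hx3 : ((3 - d) * π / 18) ^ 3 ≤ 0.00763 * ((3 - d) * π / 18) := by
        have : ((3 - d) * π / 18) ^ 2 ≤ 0.00763 := by nlinarith
        calc ((3 - d) * π / 18) ^ 3 = ((3 - d) * π / 18) ^ 2 * ((3 - d) * π / 18) := by ring
          _ ≤ _ := mul_le_mul_of_nonneg_right this hx0.le
      nlinarith
    · rw [← heq]
      simp
  -- the bound
  have hT : 1 / ρ ≤ 6.878 * S := by
    rw [div_le_iff₀ hρ, mul_assoc, ← e1]
    linarith
  have hi := ineq6 hSS (T := 1 / ρ) (by positivity) hT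
  have hSd : S = d * π / (54 * ρ) := by
    have : AA d = d * π / 54 := rfl
    rw [this] at e1
    field_simp
    linarith
  have hX : 0 < S + 0.8 := by linarith
  have hsq : 0 < √(S + 0.8) := Real.sqrt_pos.2 hX
  have hbound : Real.exp (BB d (3 * m + 2) * (ρ / 2)) * (0.0001 +
      π / (9 * (ρ / 2)) * (0.5 * Real.exp (3 * (π / (486 * (ρ / 2)) + 0.01)) +
      4.4292 * (ρ / 2) * Real.exp (3 * (π / (216 * (ρ / 2)) + 0.01)))) ≤ 0.174 * (ρ * I1 S) := by
    have g1 : BB d (3 * m + 2) * (ρ / 2) = S / 2 := by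
      rw [e2]
      field_simp
    have g2 : 3 * (π / (486 * (ρ / 2)) + 0.01) ≤ 4 / 15 * S + 0.03 := by
      have : 3 * (π / (486 * (ρ / 2))) = 2 / 3 * (π / (54 * ρ)) := by
        field_simp
        ring
      have h5 : S = d * (π / (54 * ρ)) := by rw [hSd]; ring
      have h6 : 0 < π / (54 * ρ) := by positivity
      nlinarith
    have g3 : 3 * (π / (216 * (ρ / 2)) + 0.01) ≤ 3 / 5 * S + 0.03 := by
      have : 3 * (π / (216 * (ρ / 2))) = 3 / 2 * (π / (54 * ρ)) := by
        field_simp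
        ring
      have h5 : S = d * (π / (54 * ρ)) := by rw [hSd]; ring
      have h6 : 0 < π / (54 * ρ) := by positivity
      nlinarith
    have g4 : π / (9 * (ρ / 2)) ≤ 0.69814 * (1 / ρ) := by
      rw [show π / (9 * (ρ / 2)) = (2 * π / 9) * (1 / ρ) by field_simp]
      gcongr
      linarith
    rw [g1]
    have k1 : Real.exp (3 * (π / (486 * (ρ / 2)) + 0.01)) ≤ Real.exp (4 / 15 * S + 0.03) := Real.exp_le_exp.2 g2
    have k2 : Real.exp (3 * (π / (216 * (ρ / 2)) + 0.01)) ≤ Real.exp (3 / 5 * S + 0.03) := Real.exp_le_exp.2 g3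
    have k3 : Real.exp (S / 2) = Real.exp (2 * S) * Real.exp (-(1.5 * S)) := by
      rw [← Real.exp_add]
      congr 1
      ring
    have k4 : Real.exp (S / 2) * Real.exp (4 / 15 * S + 0.03) =
        Real.exp (2 * S) * (Real.exp 0.03 * Real.exp (-(37 / 30 * S))) := by
      rw [← Real.exp_add, ← Real.exp_add, ← Real.exp_add]
      congr 1
      ring
    have k5 : Real.exp (S / 2) * Real.exp (3 / 5 * S + 0.03) =
        Real.exp (2 * S) * (Real.exp 0.03 * Real.exp (-(0.9 * S))) := by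
      rw [← Real.exp_add, ← Real.exp_add, ← Real.exp_add]
      congr 1
      ring
    calc Real.exp (S / 2) * (0.0001 + π / (9 * (ρ / 2)) *
          (0.5 * Real.exp (3 * (π / (486 * (ρ / 2)) + 0.01)) +
          4.4292 * (ρ / 2) * Real.exp (3 * (π / (216 * (ρ / 2)) + 0.01))))
        ≤ Real.exp (S / 2) * (0.0001 + 0.69814 * (1 / ρ) *
          (0.5 * Real.exp (4 / 15 * S + 0.03) + 4.4292 * (ρ / 2) * Real.exp (3 / 5 * S + 0.03))) := by
          gcongr
      _ = 0.0001 * Real.exp (S / 2) + 0.34907 * (1 / ρ) * (Real.exp (S / 2) * Real.exp (4 / 15 * S + 0.03)) +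
          0.69814 * 2.2146 * (Real.exp (S / 2) * Real.exp (3 / 5 * S + 0.03)) := by
          field_simp
          ring
      _ = ρ * Real.exp (2 * S) * (0.0001 * (1 / ρ) * Real.exp (-(1.5 * S)) +
          0.34907 * (1 / ρ) ^ 2 * (Real.exp 0.03 * Real.exp (-(37 / 30 * S))) +
          0.69814 * 2.2146 * (1 / ρ) * (Real.exp 0.03 * Real.exp (-(0.9 * S)))) := by
          rw [k4, k5, k3]
          field_simp
      _ ≤ ρ * Real.exp (2 * S) * (0.0001 * (1 / ρ) * Real.exp (-(1.5 * S)) +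
          0.34907 * (1 / ρ) ^ 2 * (Real.exp 0.03 * Real.exp (-(37 / 30 * S))) +
          1.5462 * (1 / ρ) * (Real.exp 0.03 * Real.exp (-(0.9 * S)))) := by
          gcongr
          norm_num
      _ ≤ ρ * Real.exp (2 * S) * (0.174 * 1.737 / √(S + 0.8)) := by
          apply mul_le_mul_of_nonneg_left hi
          positivity
      _ = 0.174 * (ρ * (1.737 * Real.exp (2 * S) / √(S + 0.8))) := by ring
      _ ≤ 0.174 * (ρ * I1 S) := by gcongr
  have hI0 : 0 ≤ ρ * I1 S := by
    have : 0 ≤ I1 S := le_trans (by positivity) hI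
    positivity
  have hfin : (RR d (3 * m + 2) (ρ / 2)).re ≤ (3 - d) * (0.174 * (ρ * I1 S)) := by
    refine hRre.trans (hR.trans ?_)
    exact mul_le_mul_of_nonneg_left hbound hd3
  have hlast := mul_le_mul_of_nonneg_right hsin hI0
  rw [hf]
  nlinarith

end Pool.Agent.N809.BP
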