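import Pool.Agent.N809.BP.Large2

/-!
# The sign of the coefficients for large `n`: the pieces
-/

set_option autoImplicit false

namespace Pool.Agent.N809.BP

open Complex Finset Filter Topology MeasureTheory
open scoped Real ComplexConjugate
open Pool.Agent.N809.DA

/-- the asserted signs -/
def Good (d : ℝ) (n : ℕ) : Prop := (n % 3 = 0 → 0 ≤ cf d n) ∧ (n % 3 ≠ 0 → cf d n ≤ 0)

lemma AB_ge {a d : ℝ} {N n : ℕ} (ha : 0 ≤ a) (hd : a ≤ d) (hd3 : d ≤ 3) (hN : 1 ≤ N) (hn : N ≤ n) :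
    9.8696 * (a * (12 * N - a)) / 324 ≤ AA d * BB d n := by
  have hpi := Real.pi_gt_d6
  have e : AA d * BB d n = π ^ 2 * (d * (12 * n - d)) / 324 := by
    unfold AA BB
    ring
  rw [e]
  have hN' : (1 : ℝ) ≤ N := by exact_mod_cast hN
  have hn' : (N : ℝ) ≤ n := by exact_mod_cast hn
  have h1 : a * (12 * N - a) ≤ d * (12 * n - d) := by
    have h2 : a * (12 * N - a) ≤ d * (12 * N - d) := by
      nlinarith [mul_nonneg (sub_nonneg.2 hd) (by linarith : (0 : ℝ) ≤ 12 * N - d - a)]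
    have h3 : d * (12 * N - d) ≤ d * (12 * n - d) := by
      apply mul_le_mul_of_nonneg_left _ (ha.trans hd)
      linarith
    linarith
  have h4 : 0 ≤ a * (12 * N - a) := by
    apply mul_nonneg ha
    linarith
  have h5 : (9.8696 : ℝ) ≤ π ^ 2 := by nlinarith
  have h6 : 9.8696 * (a * (12 * N - a)) ≤ π ^ 2 * (d * (12 * n - d)) :=
    mul_le_mul h5 h1 h4 (by positivity)
  linarith

lemma BB_pos {d : ℝ} {n : ℕ} (hd3 : d ≤ 3) (hn : 1 ≤ n) : 0 < BB d n := by
  have hpi := Real.pi_pos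
  unfold BB
  have hn' : (1 : ℝ) ≤ n := by exact_mod_cast hn
  nlinarith

lemma sin_ge {d b x κ : ℝ} (hd : d ≤ b) (hd0 : 0 ≤ d) (hx0 : 0 < x) (hx1 : x ≤ 1)
    (hx : x * 18 ≤ (3 - b) * 3.14159) (hb : b < 3) (hκ : κ ≤ x - x ^ 3 / 4) :
    κ ≤ Real.sin ((3 - d) * π / 18) := by
  have hpi := Real.pi_gt_d6
  have hpi2 := Real.pi_lt_d4
  have h1 := Real.sin_gt_sub_cube hx0
  have hx3 : 0 < x ^ 3 := by positivity
  have h2 : x ≤ (3 - d) * π / 18 := by
    rw [le_div_iff₀ (by norm_num)]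
    nlinarith
  have h3 : Real.sin x ≤ Real.sin ((3 - d) * π / 18) := by
    apply Real.sin_le_sin_of_le_of_le_pi_div_two (by linarith) _ h2
    nlinarith
  linarith

lemma exp_D {d D : ℝ} (h0 : 0 ≤ d) (hd : d ≤ 3) (h : 1 + 0.01 * d * 1.03 ≤ D) : Real.exp (0.01 * d) ≤ D := by
  have h1 := Real.exp_bound' (x := 0.01 * d) (by positivity) (by linarith) (n := 2) (by norm_num)
  refine h1.trans ?_
  simp only [Finset.sum_range_succ, Finset.sum_range_zero, Nat.factorial]
  norm_num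
  nlinarith [mul_nonneg h0 h0, mul_nonneg h0 (sub_nonneg.2 hd)]

lemma good_of_direct {d : ℝ} {n : ℕ} {S0 s0 E1 E2 κ A1 D : ℝ} (hd0 : 0 < d) (hd3 : d ≤ 3) (hn : 1 ≤ n)
    (h4 : 4.7 ≤ S0) (h0 : 0 < s0) (hs : s0 ^ 2 ≤ S0 + 0.8)
    (hE1 : Real.exp (-(23 / 18 * S0)) ≤ E1) (hE2 : Real.exp (-S0) ≤ E2) (hA1 : 0 < A1)
    (hD : Real.exp (0.01 * d) ≤ D)
    (hfin : (0.5001 / A1 * (S0 * (S0 + 0.8)) * E1 + 2.2146 * (S0 + 0.8) * E2) * D ≤ κ * 1.737 * s0)
    (hA : A1 ≤ AA d) (hAS : AA d ≤ 0.0262 * S0) (hS : S0 ^ 2 ≤ AA d * BB d n) (hκ : 0 ≤ κ)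
    (hκ2 : κ ≤ 1 / 2) (hsin : κ ≤ Real.sin ((3 - d) * π / 18)) : Good d n := by
  obtain ⟨h5, h6⟩ := direct hd0 hd3 (BB_pos hd3 hn) h4 h0 hs hE1 hE2 hA1 hD hfin hA hAS hS hκ
  obtain ⟨m, hm | hm | hm⟩ : ∃ m, n = 3 * m ∨ n = 3 * m + 1 ∨ n = 3 * m + 2 := ⟨n / 3, by omega⟩
  · subst hm
    refine ⟨fun _ => h5 (hκ2.trans (cos_zero hd0.le hd3 m)), fun h => absurd (by omega) h⟩
  · subst hm
    refine ⟨fun h => by omega, fun _ => h6 (hκ2.trans (cos_one hd0.le hd3 m))⟩
  · subst hm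
    refine ⟨fun h => by omega, fun _ => h6 ?_⟩
    rw [cos_two, neg_neg]
    exact hsin

lemma AA_bounds (d : ℝ) (h0 : 0 ≤ d) : 0.058177 * d ≤ AA d ∧ AA d ≤ 0.058178 * d := by
  have hpi := Real.pi_gt_d6
  have hpi2 := Real.pi_lt_d6
  unfold AA
  constructor
  · rw [le_div_iff₀ (by norm_num)]
    nlinarith
  · rw [div_le_iff₀ (by norm_num)]
    nlinarith

theorem piece1 {d : ℝ} {n : ℕ} (h1 : 0.22799 ≤ d) (h2 : d ≤ 1 / 4) (hn : 313 ≤ n) : Good d n := by
  obtain ⟨a1, a2⟩ := AA_bounds d (by linarith)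
  have hAB := AB_ge (a := 0.22799) (by norm_num) h1 (by linarith) (by norm_num) hn
  refine good_of_direct (S0 := 5.1) (s0 := 2.4289) (E1 := 0.001503) (E2 := 0.0061) (κ := 0.4522)
    (A1 := 0.01326) (D := 1.0026) (by linarith) (by linarith) (by omega) (by norm_num) (by norm_num)
    (by norm_num) ?_ ?_ (by norm_num) (exp_D (by linarith) (by linarith) (by linarith)) (by norm_num)
    (by linarith) (by linarith) ?_ (by norm_num) (by norm_num)
    (sin_ge (b := 1 / 4) (x := 0.4799) h2 (by linarith) (by norm_num) (by norm_num) (by norm_num)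
      (by norm_num) (by norm_num))
  · exact (exp_neg_le (f := 0.5166) 6 (by norm_num) (by norm_num)).trans (by norm_num)
  · exact (exp_neg_le (f := 0.1) 5 (by norm_num) (by norm_num)).trans (by norm_num)
  · refine le_trans ?_ hAB
    norm_num

theorem piece2 {d : ℝ} {n : ℕ} (h1 : 1 / 4 ≤ d) (h2 : d ≤ 1 / 3) (hn : 274 ≤ n) : Good d n := by
  obtain ⟨a1, a2⟩ := AA_bounds d (by linarith)
  have hAB := AB_ge (a := 1 / 4) (by norm_num) h1 (by linarith) (by norm_num) hn
  refine good_of_direct (S0 := 5) (s0 := 2.408) (E1 := 0.001693) (E2 := 0.00674) (κ := 0.44)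
    (A1 := 0.01454) (D := 1.0035) (by linarith) (by linarith) (by omega) (by norm_num) (by norm_num)
    (by norm_num) ?_ ?_ (by norm_num) (exp_D (by linarith) (by linarith) (by linarith)) (by norm_num)
    (by linarith) (by linarith) ?_ (by norm_num) (by norm_num)
    (sin_ge (b := 1 / 3) (x := 0.4654) h2 (by linarith) (by norm_num) (by norm_num) (by norm_num)
      (by norm_num) (by norm_num))
  · exact (exp_neg_le (f := 0.3888) 6 (by norm_num) (by norm_num)).trans (by norm_num)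
  · exact (exp_neg_le (f := 0) 5 (by norm_num) (by norm_num)).trans (by norm_num)
  · refine le_trans ?_ hAB
    norm_num

theorem piece3 {d : ℝ} {n : ℕ} (h1 : 1 / 3 ≤ d) (h2 : d ≤ 1 / 2) (hn : 190 ≤ n) : Good d n := by
  obtain ⟨a1, a2⟩ := AA_bounds d (by linarith)
  have hAB := AB_ge (a := 1 / 3) (by norm_num) h1 (by linarith) (by norm_num) hn
  refine good_of_direct (S0 := 4.8) (s0 := 2.3664) (E1 := 0.002171) (E2 := 0.00864) (κ := 0.4155)
    (A1 := 0.01939) (D := 1.0052) (by linarith) (by linarith) (by omega) (by norm_num) (by norm_num)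
    (by norm_num) ?_ ?_ (by norm_num) (exp_D (by linarith) (by linarith) (by linarith)) (by norm_num)
    (by linarith) (by linarith) ?_ (by norm_num) (by norm_num)
    (sin_ge (b := 1 / 2) (x := 0.4363) h2 (by linarith) (by norm_num) (by norm_num) (by norm_num)
      (by norm_num) (by norm_num))
  · exact (exp_neg_le (f := 0.1333) 6 (by norm_num) (by norm_num)).trans (by norm_num)
  · exact (exp_neg_le (f := 0.8) 4 (by norm_num) (by norm_num)).trans (by norm_num)
  · refine le_trans ?_ hAB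
    norm_num

theorem piece4 {d : ℝ} {n : ℕ} (h1 : 1 / 2 ≤ d) (h2 : d ≤ 1) (hn : 121 ≤ n) : Good d n := by
  obtain ⟨a1, a2⟩ := AA_bounds d (by linarith)
  have hAB := AB_ge (a := 1 / 2) (by norm_num) h1 (by linarith) (by norm_num) hn
  refine good_of_direct (S0 := 4.7) (s0 := 2.3452) (E1 := 0.002466) (E2 := 0.00942) (κ := 0.3383)
    (A1 := 0.02908) (D := 1.0103) (by linarith) (by linarith) (by omega) (by norm_num) (by norm_num)
    (by norm_num) ?_ ?_ (by norm_num) (exp_D (by linarith) (by linarith) (by linarith)) (by norm_num)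
    (by linarith) (by linarith) ?_ (by norm_num) (by norm_num)
    (sin_ge (b := 1) (x := 0.349) h2 (by linarith) (by norm_num) (by norm_num) (by norm_num)
      (by norm_num) (by norm_num))
  · exact (exp_neg_le (f := 0.0055) 6 (by norm_num) (by norm_num)).trans (by norm_num)
  · exact (exp_neg_le (f := 0.7) 4 (by norm_num) (by norm_num)).trans (by norm_num)
  · refine le_trans ?_ hAB
    norm_num

theorem piece5 {d : ℝ} {n : ℕ} (h1 : 2 ≤ d) (h2 : d ≤ 5 / 2) (hn : 44 ≤ n) : Good d n := by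
  obtain ⟨a1, a2⟩ := AA_bounds d (by linarith)
  have hAB := AB_ge (a := 2) (by norm_num) h1 (by linarith) (by norm_num) hn
  refine good_of_direct (S0 := 5.6) (s0 := 2.5298) (E1 := 0.000782) (E2 := 0.00379) (κ := 0.087)
    (A1 := 0.1163) (D := 1.026) (by linarith) (by linarith) (by omega) (by norm_num) (by norm_num)
    (by norm_num) ?_ ?_ (by norm_num) (exp_D (by linarith) (by linarith) (by linarith)) (by norm_num)
    (by linarith) (by linarith) ?_ (by norm_num) (by norm_num)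
    (sin_ge (b := 5 / 2) (x := 0.0872) h2 (by linarith) (by norm_num) (by norm_num) (by norm_num)
      (by norm_num) (by norm_num))
  · exact (exp_neg_le (f := 0.1555) 7 (by norm_num) (by norm_num)).trans (by norm_num)
  · exact (exp_neg_le (f := 0.6) 5 (by norm_num) (by norm_num)).trans (by norm_num)
  · refine le_trans ?_ hAB
    norm_num

/-- the classes `0` and `1` for `d` between `5/2` and `3` -/
theorem piece6a {d : ℝ} {n : ℕ} (h1 : 5 / 2 ≤ d) (h2 : d ≤ 3) (hn : 80 ≤ n) :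
    (n % 3 = 0 → 0 ≤ cf d n) ∧ (n % 3 = 1 → cf d n ≤ 0) := by
  obtain ⟨a1, a2⟩ := AA_bounds d (by linarith)
  have hAB := AB_ge (a := 5 / 2) (by norm_num) h1 (by linarith) (by norm_num) hn
  obtain ⟨h5, h6⟩ := direct (d := d) (n := n) (S0 := 8.5) (s0 := 3.04) (E1 := 0.0000204) (E2 := 0.000207)
    (κ := 1 / 2)
    (A1 := 0.1454) (D := 1.031) (by linarith) (by linarith) (BB_pos h2 (by omega)) (by norm_num) (by norm_num)
    (by norm_num) ((exp_neg_le (f := 0.86) 10 (by norm_num) (by norm_num)).trans (by norm_num))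
    ((exp_neg_le (f := 0.5) 8 (by norm_num) (by norm_num)).trans (by norm_num)) (by norm_num)
    (exp_D (by linarith) (by linarith) (by linarith)) (by norm_num)
    (by linarith) (by linarith) (by refine le_trans ?_ hAB; norm_num) (by norm_num)
  constructor
  · intro h
    obtain ⟨m, rfl⟩ : ∃ m, n = 3 * m := ⟨n / 3, by omega⟩
    exact h5 (cos_zero (by linarith) h2 m)
  · intro h
    obtain ⟨m, rfl⟩ : ∃ m, n = 3 * m + 1 := ⟨n / 3, by omega⟩
    exact h6 (cos_one (by linarith) h2 m)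

end Pool.Agent.N809.BP
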