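import Pool.Agent.N809.BP.Prod
import Pool.Agent.R259.Jac2

/-!
# The coefficients of the cube in the class 2 vanish
-/

set_option autoImplicit false

namespace Pool.Agent.N809.BP

open Complex Finset Filter Topology
open scoped Real ArithmeticFunction.sigma
open Pool.Agent.N809.DA

/-- the terms of Jacobi's series -/
noncomputable def Jt (j : ℕ) (z : ℂ) : ℂ := (-1) ^ j * (2 * (j : ℂ) + 1) * z ^ (j * (j + 1) / 2)

/-- Jacobi's series -/
noncomputable def Jc (z : ℂ) : ℂ := ∑' j : ℕ, Jt j z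

/-- the cube of the product -/
noncomputable def Hc (z : ℂ) : ℂ := cexp (-(3 * psi z))

lemma norm_Jt (j : ℕ) (z : ℂ) : ‖Jt j z‖ = Pool.Agent.R259.Jac.t j ‖z‖ := by
  unfold Jt Pool.Agent.R259.Jac.t
  rw [norm_mul, norm_mul, norm_pow, norm_pow, norm_neg, norm_one, one_pow, one_mul]
  congr 1
  have : (2 * (j : ℂ) + 1) = ((2 * (j : ℝ) + 1 : ℝ) : ℂ) := by push_cast; rfl
  rw [this, Complex.norm_real, Real.norm_of_nonneg (by positivity)]

lemma t_mono {j : ℕ} {a b : ℝ} (h0 : 0 ≤ a) (h : a ≤ b) :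
    Pool.Agent.R259.Jac.t j a ≤ Pool.Agent.R259.Jac.t j b := by
  unfold Pool.Agent.R259.Jac.t
  gcongr

lemma summable_Jt {z : ℂ} (hz : ‖z‖ < 1) : Summable (fun j => Jt j z) := by
  refine Summable.of_norm ?_
  simp_rw [norm_Jt]
  exact Pool.Agent.R259.Jac.t_summable (norm_nonneg z) hz

lemma Jc_differentiable : DifferentiableOn ℂ Jc (Metric.ball 0 1) := by
  intro z hz
  rw [Metric.mem_ball, dist_zero_right] at hz
  obtain ⟨r, hr1, hr2⟩ := exists_between hz
  have h0 : 0 ≤ r := (norm_nonneg z).trans hr1.le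
  have h1 : DifferentiableOn ℂ (fun w => ∑' j : ℕ, Jt j w) (Metric.ball 0 r) := by
    refine differentiableOn_tsum_of_summable_norm (Pool.Agent.R259.Jac.t_summable h0 hr2) ?_
      Metric.isOpen_ball ?_
    · intro j
      unfold Jt
      fun_prop
    · intro j w hw
      rw [Metric.mem_ball, dist_zero_right] at hw
      rw [norm_Jt]
      exact t_mono (norm_nonneg w) hw.le
  have h2 : DifferentiableAt ℂ Jc z :=
    (h1 z (by rwa [Metric.mem_ball, dist_zero_right])).differentiableAt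
      (Metric.isOpen_ball.mem_nhds (by rwa [Metric.mem_ball, dist_zero_right]))
  exact h2.differentiableWithinAt

lemma Hc_differentiable : DifferentiableOn ℂ Hc (Metric.ball 0 1) := by
  intro z hz
  rw [Metric.mem_ball, dist_zero_right] at hz
  exact (((hasDerivAt_psi hz).const_mul 3).neg.cexp).differentiableAt.differentiableWithinAt

lemma Hc_real {q : ℝ} (h0 : 0 < q) (h1 : q < 1) : Hc q = Jc q := by
  have hz : ‖(q : ℂ)‖ < 1 := by
    rw [Complex.norm_real, Real.norm_of_nonneg h0.le]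
    exact h1
  have h2 := tendsto_GP hz
  have h3 := (Complex.continuous_ofReal.tendsto _).comp (Pool.Agent.R259.Jac.G_tendsto h0 h1)
  have h4 : cexp (-psi q) = ((Pool.Agent.R259.Jac.Gi q : ℝ) : ℂ) := by
    refine tendsto_nhds_unique h2 (h3.congr fun N => ?_)
    simp only [Function.comp]
    unfold Pool.Agent.R259.Jac.G GP
    push_cast
    rfl
  have h5 : Hc q = cexp (-psi q) ^ 3 := by
    unfold Hc
    rw [← Complex.exp_nat_mul]
    congr 1
    push_cast
    ring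
  rw [h5, h4, ← Complex.ofReal_pow, ← Pool.Agent.R259.Jac.jacobi h0 h1, Complex.ofReal_tsum]
  unfold Jc
  refine tsum_congr fun j => ?_
  unfold Jt Pool.Agent.R259.Jac.t
  push_cast
  ring

lemma Hc_eq {z : ℂ} (hz : ‖z‖ < 1) : Hc z = Jc z := by
  have hf : AnalyticOnNhd ℂ Hc (Metric.ball 0 1) := Hc_differentiable.analyticOnNhd Metric.isOpen_ball
  have hg : AnalyticOnNhd ℂ Jc (Metric.ball 0 1) := Jc_differentiable.analyticOnNhd Metric.isOpen_ball
  have hU : IsPreconnected (Metric.ball (0 : ℂ) 1) := (convex_ball 0 1).isPreconnected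
  have h0 : ((1 / 2 : ℝ) : ℂ) ∈ Metric.ball (0 : ℂ) 1 := by
    rw [Metric.mem_ball, dist_zero_right, Complex.norm_real, Real.norm_of_nonneg (by norm_num)]
    norm_num
  have hfreq : ∃ᶠ w in 𝓝[≠] ((1 / 2 : ℝ) : ℂ), Hc w = Jc w := by
    have ht : Tendsto (fun n : ℕ => (((1 / 2 + 1 / ((n : ℝ) + 3)) : ℝ) : ℂ)) atTop
        (𝓝[≠] ((1 / 2 : ℝ) : ℂ)) := by
      refine tendsto_nhdsWithin_iff.mpr ⟨?_, Eventually.of_forall fun n => ?_⟩
      · refine (Complex.continuous_ofReal.tendsto _).comp ?_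
        have h1 : Tendsto (fun n : ℕ => (n : ℝ) + 3) atTop atTop :=
          tendsto_natCast_atTop_atTop.atTop_add tendsto_const_nhds
        have h2 := (tendsto_const_nhds (x := (1 : ℝ))).div_atTop h1
        have h3 := (tendsto_const_nhds (x := (1 / 2 : ℝ))).add h2
        rwa [add_zero] at h3
      · rw [Set.mem_compl_iff, Set.mem_singleton_iff, Complex.ofReal_inj]
        have : (0 : ℝ) < 1 / ((n : ℝ) + 3) := by positivity
        linarith
    refine ht.frequently (Frequently.of_forall fun n => ?_)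
    refine Hc_real (by positivity) ?_
    have : 1 / ((n : ℝ) + 3) ≤ 1 / 3 := by
      apply one_div_le_one_div_of_le (by norm_num)
      linarith [(Nat.cast_nonneg n : (0 : ℝ) ≤ n)]
    linarith
  exact hf.eqOn_of_preconnected_of_frequently_eq hg hU h0 hfreq (by rwa [Metric.mem_ball, dist_zero_right])

lemma tri_mod (j : ℕ) : j * (j + 1) / 2 % 3 = 0 ∨ j * (j + 1) / 2 % 3 = 1 := by
  obtain ⟨k, hk⟩ := (Nat.even_mul_succ_self j).two_dvd
  rw [hk, Nat.mul_div_cancel_left k (by norm_num)]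
  have h1 : (j * (j + 1)) % 3 = (2 * k) % 3 := by rw [hk]
  rw [Nat.mul_mod, Nat.add_mod] at h1
  have h2 : j % 3 = 0 ∨ j % 3 = 1 ∨ j % 3 = 2 := by omega
  rcases h2 with h | h | h <;> rw [h] at h1 <;> norm_num at h1 <;> omega

/-- the cube root of unity -/
lemma exists_omega : ∃ ω : ℂ, 1 + ω + ω ^ 2 = 0 ∧ ‖ω‖ = 1 ∧ ω ^ 3 = 1 := by
  have h := Complex.isPrimitiveRoot_exp 3 (by norm_num)
  refine ⟨_, ?_, ?_, h.pow_eq_one⟩
  · have := h.geom_sum_eq_zero (by norm_num)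
    rw [Finset.sum_range_succ, Finset.sum_range_succ, Finset.sum_range_one, pow_zero, pow_one] at this
    exact this
  · exact h.norm'_eq_one (by norm_num)

lemma Jc_class {ω : ℂ} (h1 : 1 + ω + ω ^ 2 = 0) (h2 : ‖ω‖ = 1) (h3 : ω ^ 3 = 1) {z : ℂ} (hz : ‖z‖ < 1) :
    Jc z + ω * Jc (ω * z) + ω ^ 2 * Jc (ω ^ 2 * z) = 0 := by
  have hz1 : ‖ω * z‖ < 1 := by rw [norm_mul, h2, one_mul]; exact hz
  have hz2 : ‖ω ^ 2 * z‖ < 1 := by rw [norm_mul, norm_pow, h2, one_pow, one_mul]; exact hz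
  have hs := ((summable_Jt hz).hasSum.add ((summable_Jt hz1).hasSum.mul_left ω)).add
    ((summable_Jt hz2).hasSum.mul_left (ω ^ 2))
  have h0 : ∀ j, Jt j z + ω * Jt j (ω * z) + ω ^ 2 * Jt j (ω ^ 2 * z) = 0 := by
    intro j
    unfold Jt
    set T := j * (j + 1) / 2 with hT
    have h4 : T = 3 * (T / 3) + T % 3 := by omega
    have h5 : ω ^ T = ω ^ (T % 3) := by
      conv_lhs => rw [h4, pow_add, pow_mul, h3, one_pow, one_mul]
    rw [mul_pow, mul_pow, ← pow_mul, mul_comm 2 T, pow_mul, h5]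
    rcases tri_mod j with h | h
    · rw [← hT] at h
      rw [h, pow_zero, one_pow]
      linear_combination ((-1) ^ j * (2 * (j : ℂ) + 1) * z ^ T) * h1
    · rw [← hT] at h
      rw [h, pow_one]
      have h6 : ω ^ 4 = ω := by rw [show 4 = 3 + 1 by norm_num, pow_add, h3, one_mul, pow_one]
      linear_combination ((-1) ^ j * (2 * (j : ℂ) + 1) * z ^ T) * (h1 + h6)
  have h6 := hs.unique (by simpa only [h0] using hasSum_zero)
  exact h6

lemma gb_class {ω : ℂ} (h1 : 1 + ω + ω ^ 2 = 0) (h2 : ‖ω‖ = 1) (h3 : ω ^ 3 = 1) {z : ℂ} (hz : ‖z‖ < 1) :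
    gb 3 z + ω * gb 3 (ω * z) + ω ^ 2 * gb 3 (ω ^ 2 * z) = 0 := by
  have hz1 : ‖ω * z‖ < 1 := by rw [norm_mul, h2, one_mul]; exact hz
  have hz2 : ‖ω ^ 2 * z‖ < 1 := by rw [norm_mul, norm_pow, h2, one_pow, one_mul]; exact hz
  have hgb : ∀ w : ℂ, ‖w‖ < 1 → gb 3 w = cexp (3 * psi (w ^ 3)) * Jc w := by
    intro w hw
    rw [← Hc_eq hw, Hc, gb, ← Complex.exp_add]
    congr 1
    push_cast
    ring
  have e1 : (ω * z) ^ 3 = z ^ 3 := by rw [mul_pow, h3, one_mul]
  have e2 : (ω ^ 2 * z) ^ 3 = z ^ 3 := by rw [mul_pow, ← pow_mul, mul_comm 2 3, pow_mul, h3, one_pow, one_mul]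
  rw [hgb z hz, hgb _ hz1, hgb _ hz2, e1, e2]
  linear_combination cexp (3 * psi (z ^ 3)) * Jc_class h1 h2 h3 hz

/-- the Taylor series -/
lemma hasSum_gb (d : ℝ) {z : ℂ} (hz : ‖z‖ < 1) : HasSum (fun n : ℕ => (cf d n : ℂ) * z ^ n) (gb d z) := by
  have h := Complex.hasSum_taylorSeries_on_ball (gb_differentiable d)
    (show z ∈ Metric.ball (0 : ℂ) 1 by rwa [Metric.mem_ball, dist_zero_right])
  refine h.congr_fun fun n => ?_
  rw [iteratedDeriv_gb, sub_zero, smul_eq_mul, smul_eq_mul]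
  have : (n.factorial : ℂ) ≠ 0 := by exact_mod_cast n.factorial_ne_zero
  field_simp

lemma coeff_zero {a : ℕ → ℂ} (h : ∀ z : ℂ, ‖z‖ < 1 → HasSum (fun n => a n * z ^ n) 0) (n : ℕ) : a n = 0 := by
  set p : FormalMultilinearSeries ℂ ℂ ℂ := FormalMultilinearSeries.ofScalars ℂ a with hp
  have hr : (1 : ENNReal) ≤ p.radius := by
    refine ENNReal.le_of_forall_nnreal_lt fun r hr => ?_
    apply FormalMultilinearSeries.le_radius_of_summable
    have hr1 : (r : ℝ) < 1 := by exact_mod_cast hr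
    have h1 := (h (r : ℝ) (by rw [Complex.norm_real, Real.norm_of_nonneg r.coe_nonneg]; exact hr1)).summable.norm
    refine h1.congr fun n => ?_
    rw [hp, FormalMultilinearSeries.ofScalars_norm, norm_mul, norm_pow, Complex.norm_real,
      Real.norm_of_nonneg r.coe_nonneg]
  have hps : HasFPowerSeriesOnBall (fun _ : ℂ => (0 : ℂ)) p 0 1 := by
    refine ⟨hr, by norm_num, fun {y} hy => ?_⟩
    have hy' : ‖y‖ < 1 := by
      rw [show (1 : ENNReal) = ENNReal.ofReal 1 by simp, Metric.eball_ofReal, Metric.mem_ball,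
        dist_zero_right] at hy
      exact hy
    have h2 := h y hy'
    refine h2.congr_fun fun n => ?_
    rw [hp, FormalMultilinearSeries.ofScalars_apply_eq, smul_eq_mul]
  have h3 : p = 0 := HasFPowerSeriesAt.eq_zero (x := 0) ⟨1, hps⟩
  have h4 : p n (fun _ => 1) = 0 := by rw [h3]; rfl
  rw [hp, FormalMultilinearSeries.ofScalars_apply_eq, one_pow, smul_eq_mul, mul_one] at h4
  exact h4

theorem cf_three (m : ℕ) : cf 3 (3 * m + 2) = 0 := by
  obtain ⟨ω, h1, h2, h3⟩ := exists_omega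
  have h4 : ∀ z : ℂ, ‖z‖ < 1 →
      HasSum (fun n : ℕ => ((cf 3 n : ℂ) * (1 + ω * ω ^ n + ω ^ 2 * (ω ^ 2) ^ n)) * z ^ n) 0 := by
    intro z hz
    have hz1 : ‖ω * z‖ < 1 := by rw [norm_mul, h2, one_mul]; exact hz
    have hz2 : ‖ω ^ 2 * z‖ < 1 := by rw [norm_mul, norm_pow, h2, one_pow, one_mul]; exact hz
    have hs := ((hasSum_gb 3 hz).add ((hasSum_gb 3 hz1).mul_left ω)).add ((hasSum_gb 3 hz2).mul_left (ω ^ 2))
    rw [gb_class h1 h2 h3 hz] at hs
    refine hs.congr_fun fun n => ?_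
    rw [mul_pow, mul_pow]
    ring
  have h5 := coeff_zero h4 (3 * m + 2)
  have h6 : 1 + ω * ω ^ (3 * m + 2) + ω ^ 2 * (ω ^ 2) ^ (3 * m + 2) = 3 := by
    have e1 : ω * ω ^ (3 * m + 2) = 1 := by
      rw [← pow_succ', show 3 * m + 2 + 1 = 3 * (m + 1) by ring, pow_mul, h3, one_pow]
    have e2 : ω ^ 2 * (ω ^ 2) ^ (3 * m + 2) = 1 := by
      rw [← pow_succ', ← pow_mul, show 2 * (3 * m + 2 + 1) = 3 * (2 * (m + 1)) by ring, pow_mul, h3, one_pow]
    rw [e1, e2]
    norm_num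
  rw [h6] at h5
  have h7 : (cf 3 (3 * m + 2) : ℂ) = 0 := by
    rcases mul_eq_zero.mp h5 with h | h
    · exact h
    · norm_num at h
  exact_mod_cast h7

end Pool.Agent.N809.BP
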