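import Pool.Agent.N809.BP.Fin1
import Pool.Agent.N809.BP.Fin2
import Pool.Agent.N809.BP.Fin3
import Pool.Agent.N809.BP.Vanish
import Pool.Agent.N809.BP.Pieces
import Pool.Agent.N809.BP.Piece6

/-!
# The signs of all coefficients
-/

set_option autoImplicit false

namespace Pool.Agent.N809.BP

open Finset

lemma skv : sk 1 = 1 ∧ sk 2 = 3 ∧ sk 3 = 1 ∧ sk 4 = 7 ∧ sk 5 = 6 := by
  unfold sk
  decide +kernel

lemma sk_one : (sk 1 : ℝ) = 1 := by rw [skv.1]; norm_num
lemma sk_two : (sk 2 : ℝ) = 3 := by rw [skv.2.1]; norm_num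
lemma sk_three : (sk 3 : ℝ) = 1 := by rw [skv.2.2.1]; norm_num
lemma sk_four : (sk 4 : ℝ) = 7 := by rw [skv.2.2.2.1]; norm_num
lemma sk_five : (sk 5 : ℝ) = 6 := by rw [skv.2.2.2.2]; norm_num

lemma cf_one (d : ℝ) : cf d 1 = -d := by
  have h := cf_succ d 0
  simp only [Finset.sum_range_succ, Finset.sum_range_zero] at h
  norm_num [cf_zero, sk_one] at h
  linarith

lemma cf_two (d : ℝ) : cf d 2 = d * (d - 3) / 2 := by
  have h := cf_succ d 1
  simp only [Finset.sum_range_succ, Finset.sum_range_zero] at h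
  norm_num [cf_zero, cf_one, sk_one, sk_two] at h
  linarith

lemma cf_three' (d : ℝ) : cf d 3 = -(d * (d ^ 2 - 9 * d + 2)) / 6 := by
  have h := cf_succ d 2
  simp only [Finset.sum_range_succ, Finset.sum_range_zero] at h
  norm_num [cf_zero, cf_one, cf_two, sk_one, sk_two, sk_three] at h
  linarith

lemma cf_four (d : ℝ) : cf d 4 = d * (d ^ 3 - 18 * d ^ 2 + 35 * d - 42) / 24 := by
  have h := cf_succ d 3
  simp only [Finset.sum_range_succ, Finset.sum_range_zero] at h
  norm_num [cf_zero, cf_one, cf_two, cf_three', sk_one, sk_two, sk_three, sk_four] at h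
  linarith

lemma cf_five (d : ℝ) : cf d 5 = -(d * ((d - 1) * (d - 2) * (d - 3)) * (d - 24)) / 120 := by
  have h := cf_succ d 4
  simp only [Finset.sum_range_succ, Finset.sum_range_zero] at h
  norm_num [cf_zero, cf_one, cf_two, cf_three', cf_four, sk_one, sk_two, sk_three, sk_four, sk_five] at h
  linarith

/-- the range of the exponent -/
def Dom (d : ℝ) : Prop := ((9 - Real.sqrt 73) / 2 ≤ d ∧ d ≤ 1) ∨ (2 ≤ d ∧ d ≤ 3)

lemma sqrt73 : 8.54400374 < Real.sqrt 73 ∧ Real.sqrt 73 < 8.54400375 := by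
  constructor
  · rw [Real.lt_sqrt (by norm_num)]
    norm_num
  · rw [Real.sqrt_lt' (by norm_num)]
    norm_num

lemma Dom.bounds {d : ℝ} (h : Dom d) : 0.22799 ≤ d ∧ d ≤ 3 := by
  have h1 := sqrt73
  rcases h with h | h
  · constructor
    · linarith [h.1, h1.2]
    · linarith [h.2]
  · constructor
    · linarith [h.1]
    · exact h.2

lemma small {d : ℝ} (h : Dom d) {n : ℕ} (hn : n < 6) : Good d n := by
  obtain ⟨h1, h2⟩ := h.bounds
  have h0 : 0 < d := by linarith
  have hn' : n = 0 ∨ n = 1 ∨ n = 2 ∨ n = 3 ∨ n = 4 ∨ n = 5 := by omega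
  rcases hn' with rfl | rfl | rfl | rfl | rfl | rfl
  · exact ⟨fun _ => by rw [cf_zero]; norm_num, fun h => absurd rfl h⟩
  · refine ⟨fun h => absurd h (by norm_num), fun _ => ?_⟩
    rw [cf_one]
    linarith
  · refine ⟨fun h => absurd h (by norm_num), fun _ => ?_⟩
    rw [cf_two]
    have : d * (d - 3) ≤ 0 := mul_nonpos_of_nonneg_of_nonpos h0.le (by linarith)
    linarith
  · refine ⟨fun _ => ?_, fun h => absurd rfl h⟩
    rw [cf_three']
    have h3 : d ^ 2 - 9 * d + 2 ≤ 0 := by
      have h4 : (9 - Real.sqrt 73) / 2 ≤ d := by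
        rcases h with h | h
        · exact h.1
        · linarith [h.1, sqrt73.1]
      have h5 : Real.sqrt 73 ^ 2 = 73 := Real.sq_sqrt (by norm_num)
      have h6 : d ≤ (9 + Real.sqrt 73) / 2 := by linarith [sqrt73.1]
      nlinarith [mul_nonneg (sub_nonneg.mpr h4) (sub_nonneg.mpr h6)]
    have : d * (d ^ 2 - 9 * d + 2) ≤ 0 := mul_nonpos_of_nonneg_of_nonpos h0.le h3
    linarith
  · refine ⟨fun h => absurd h (by norm_num), fun _ => ?_⟩
    rw [cf_four]
    have h3 : d ^ 3 - 18 * d ^ 2 + 35 * d - 42 ≤ 0 := by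
      nlinarith [sq_nonneg (d - 1), mul_nonneg h0.le (sub_nonneg.mpr h2), mul_nonneg (mul_nonneg h0.le h0.le) (sub_nonneg.mpr h2)]
    have : d * (d ^ 3 - 18 * d ^ 2 + 35 * d - 42) ≤ 0 := mul_nonpos_of_nonneg_of_nonpos h0.le h3
    linarith
  · refine ⟨fun h => absurd h (by norm_num), fun _ => ?_⟩
    rw [cf_five]
    have h3 : (d - 1) * (d - 2) * (d - 3) ≤ 0 := by
      rcases h with h | h
      · have e1 : 0 ≤ (1 - d) * (2 - d) := mul_nonneg (by linarith [h.2]) (by linarith [h.2])
        have e2 : (d - 1) * (d - 2) * (d - 3) = ((1 - d) * (2 - d)) * (d - 3) := by ring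
        rw [e2]
        exact mul_nonpos_of_nonneg_of_nonpos e1 (by linarith)
      · have e1 : 0 ≤ (d - 1) * (d - 2) := mul_nonneg (by linarith [h.1]) (by linarith [h.1])
        exact mul_nonpos_of_nonneg_of_nonpos e1 (by linarith)
    have h4 : 0 ≤ d * ((d - 1) * (d - 2) * (d - 3)) * (d - 24) := by
      have e1 : d * ((d - 1) * (d - 2) * (d - 3)) ≤ 0 := mul_nonpos_of_nonneg_of_nonpos h0.le h3
      exact mul_nonneg_of_nonpos_of_nonpos e1 (by linarith)
    linarith

lemma exists_tau {P Q R : ℕ} (hQ : 0 < Q) (hR : 0 < R) {d : ℝ} (h1 : (P : ℝ) / Q - (R : ℝ) / Q ≤ d)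
    (h2 : d ≤ (P : ℝ) / Q + (R : ℝ) / Q) :
    ∃ τ : ℝ, |τ| ≤ 1 ∧ d = (P : ℝ) / Q + (R : ℝ) / Q * τ ∧ (d ≤ (P : ℝ) / Q → τ ≤ 0) := by
  have hQ' : (0 : ℝ) < Q := by exact_mod_cast hQ
  have hR' : (0 : ℝ) < R := by exact_mod_cast hR
  have hRQ : (0 : ℝ) < (R : ℝ) / Q := by positivity
  refine ⟨(d - (P : ℝ) / Q) / ((R : ℝ) / Q), ?_, ?_, ?_⟩
  · rw [abs_div, abs_of_pos hRQ, div_le_one hRQ, abs_le]
    constructor <;> linarith
  · rw [mul_div_cancel₀ _ hRQ.ne']
    ring
  · intro h
    exact div_nonpos_of_nonpos_of_nonneg (by linarith) hRQ.le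

lemma Mc_pos (N : ℕ) : 0 < Mc N := by unfold Mc; positivity

lemma Cc_ge (N : ℕ) : (Mc N + 1) * 8 ^ (N + 1) ≤ Cc N := le_rfl

lemma good_check {P Q R N : ℕ} (hrun : check clsA P Q R 6 N (Mc N) (Cc N) = true) (hQ : 0 < Q) (hR : 0 < R)
    (hPR : P + R ≤ 4 * Q) (hN : N ≤ 312) {d : ℝ} (h1 : (P : ℝ) / Q - (R : ℝ) / Q ≤ d)
    (h2 : d ≤ (P : ℝ) / Q + (R : ℝ) / Q) {n : ℕ} (h6 : 6 ≤ n) (hn : n ≤ N) : Good d n := by
  obtain ⟨τ, hτ, rfl, -⟩ := exists_tau hQ hR h1 h2
  have h := check_sound (Mc_pos N) hQ hPR hN (Cc_ge N) hrun hτ hn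
  refine ⟨fun hc => h.1 ?_, fun hc => h.2 ?_⟩
  · unfold clsA
    rw [if_neg (by omega), if_pos hc]
  · unfold clsA
    rw [if_neg (by omega), if_neg hc]

lemma good_checkB {P Q R N : ℕ} (hrun : check clsB P Q R 6 N (Mc N) (Cc N) = true) (hQ : 0 < Q) (hR : 0 < R)
    (hPR : P + R ≤ 4 * Q) (hN : N ≤ 312) {d : ℝ} (h1 : (P : ℝ) / Q - (R : ℝ) / Q ≤ d)
    (h2 : d ≤ (P : ℝ) / Q + (R : ℝ) / Q) {n : ℕ} (h6 : 6 ≤ n) (hn : n ≤ N) :
    (n % 3 = 0 → 0 ≤ cf d n) ∧ (n % 3 = 1 → cf d n ≤ 0) := by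
  obtain ⟨τ, hτ, rfl, -⟩ := exists_tau hQ hR h1 h2
  have h := check_sound (Mc_pos N) hQ hPR hN (Cc_ge N) hrun hτ hn
  refine ⟨fun hc => h.1 ?_, fun hc => h.2 ?_⟩
  · unfold clsB
    rw [if_neg (by omega), if_pos hc]
  · unfold clsB
    rw [if_neg (by omega), if_neg (by omega), if_pos hc]

lemma good_checkC {P Q R N : ℕ} (hrun : check clsC P Q R 6 N (Mc N) (Cc N) = true) (hQ : 0 < Q) (hR : 0 < R)
    (hPR : P + R ≤ 4 * Q) (hN : N ≤ 312) {d : ℝ} (h1 : (P : ℝ) / Q - (R : ℝ) / Q ≤ d)
    (h2 : d ≤ (P : ℝ) / Q + (R : ℝ) / Q) {n : ℕ} (h6 : 6 ≤ n) (hn : n ≤ N) (hc : n % 3 = 2) :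
    cf d n ≤ 0 := by
  obtain ⟨τ, hτ, rfl, -⟩ := exists_tau hQ hR h1 h2
  have h := check_sound (Mc_pos N) hQ hPR hN (Cc_ge N) hrun hτ hn
  refine h.2 ?_
  unfold clsC
  rw [if_neg (by omega), if_pos hc]

lemma good_checkD {d : ℝ} (h1 : 23 / 8 ≤ d) (h2 : d ≤ 3) {n : ℕ} (h6 : 6 ≤ n) (hn : n ≤ 79)
    (hc : n % 3 = 2) : cf d n ≤ 0 := by
  obtain ⟨τ, hτ, hd, hτ0⟩ := exists_tau (P := 48) (Q := 16) (R := 2) (by norm_num) (by norm_num)
    (d := d) (by norm_num; linarith) (by norm_num; linarith)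
  have hd' : d = 3 + ((2 : ℕ) : ℝ) / ((16 : ℕ) : ℝ) * τ := by
    rw [hd]
    norm_num
  obtain ⟨m, rfl⟩ : ∃ m, n = 3 * m + 2 := ⟨n / 3, by omega⟩
  rw [hd']
  refine check3_sound (Mc_pos 79) (by norm_num) (by norm_num) (by norm_num) (by norm_num) (Cc_ge 79) run6d hτ
    (hτ0 (by norm_num; linarith)) hn (cf_three m) ?_
  unfold clsD
  rw [if_neg (by omega), if_pos hc]

theorem good_all {d : ℝ} (h : Dom d) (n : ℕ) : Good d n := by
  obtain ⟨h1, h3⟩ := h.bounds
  rcases Nat.lt_or_ge n 6 with hn | h6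
  · exact small h hn
  rcases le_total d (1 / 4) with ha | ha
  · rcases Nat.lt_or_ge n 313 with hn | hn
    · exact good_check run1 (by norm_num) (by norm_num) (by norm_num) (by norm_num)
        (by norm_num; linarith) (by norm_num; linarith) h6 (by omega)
    · exact piece1 h1 ha hn
  rcases le_total d (1 / 3) with hb | hb
  · rcases Nat.lt_or_ge n 274 with hn | hn
    · rcases le_total d (19 / 60) with hb' | hb'
      · exact good_check run2a (by norm_num) (by norm_num) (by norm_num) (by norm_num)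
          (by norm_num; linarith) (by norm_num; linarith) h6 (by omega)
      · exact good_check run2b (by norm_num) (by norm_num) (by norm_num) (by norm_num)
          (by norm_num; linarith) (by norm_num; linarith) h6 (by omega)
    · exact piece2 ha hb hn
  rcases le_total d (1 / 2) with hc | hc
  · rcases Nat.lt_or_ge n 190 with hn | hn
    · rcases le_total d (2 / 5) with hb' | hb'
      · exact good_check run3a (by norm_num) (by norm_num) (by norm_num) (by norm_num)
          (by norm_num; linarith) (by norm_num; linarith) h6 (by omega)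
      · exact good_check run3b (by norm_num) (by norm_num) (by norm_num) (by norm_num)
          (by norm_num; linarith) (by norm_num; linarith) h6 (by omega)
    · exact piece3 hb hc hn
  rcases le_or_gt d 1 with hd | hd
  · rcases Nat.lt_or_ge n 121 with hn | hn
    · rcases le_total d (5 / 8) with hb' | hb'
      · exact good_check run4a (by norm_num) (by norm_num) (by norm_num) (by norm_num)
          (by norm_num; linarith) (by norm_num; linarith) h6 (by omega)
      · rcases le_total d (3 / 4) with hb2 | hb2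
        · exact good_check run4b (by norm_num) (by norm_num) (by norm_num) (by norm_num)
            (by norm_num; linarith) (by norm_num; linarith) h6 (by omega)
        · rcases le_total d (9 / 10) with hb3 | hb3
          · exact good_check run4c (by norm_num) (by norm_num) (by norm_num) (by norm_num)
              (by norm_num; linarith) (by norm_num; linarith) h6 (by omega)
          · exact good_check run4d (by norm_num) (by norm_num) (by norm_num) (by norm_num)
              (by norm_num; linarith) (by norm_num; linarith) h6 (by omega)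
    · exact piece4 hc hd hn
  have h2 : 2 ≤ d := by
    rcases h with h | h
    · exact absurd h.2 (not_le.mpr hd)
    · exact h.1
  rcases le_total d (5 / 2) with he | he
  · rcases Nat.lt_or_ge n 44 with hn | hn
    · rcases le_total d (12 / 5) with hb' | hb'
      · exact good_check run5a (by norm_num) (by norm_num) (by norm_num) (by norm_num)
          (by norm_num; linarith) (by norm_num; linarith) h6 (by omega)
      · exact good_check run5b (by norm_num) (by norm_num) (by norm_num) (by norm_num)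
          (by norm_num; linarith) (by norm_num; linarith) h6 (by omega)
    · exact piece5 h2 he hn
  have h01 : (n % 3 = 0 → 0 ≤ cf d n) ∧ (n % 3 = 1 → cf d n ≤ 0) := by
    rcases Nat.lt_or_ge n 80 with hn | hn
    · rcases le_total d (29 / 10) with hb' | hb'
      · exact good_checkB run6a (by norm_num) (by norm_num) (by norm_num) (by norm_num)
          (by norm_num; linarith) (by norm_num; linarith) h6 (by omega)
      · exact good_checkB run6b (by norm_num) (by norm_num) (by norm_num) (by norm_num)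
          (by norm_num; linarith) (by norm_num; linarith) h6 (by omega)
    · exact piece6a he h3 hn
  refine ⟨h01.1, fun hc => ?_⟩
  rcases (by omega : n % 3 = 1 ∨ n % 3 = 2) with hm | hm
  · exact h01.2 hm
  · rcases Nat.lt_or_ge n 80 with hn | hn
    · rcases le_total d (23 / 8) with hb' | hb'
      · exact good_checkC run6c (by norm_num) (by norm_num) (by norm_num) (by norm_num)
          (by norm_num; linarith) (by norm_num; linarith) h6 (by omega) hm
      · exact good_checkD hb' h3 h6 (by omega) hm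
    · obtain ⟨m, rfl⟩ : ∃ m, n = 3 * m + 2 := ⟨n / 3, by omega⟩
      exact piece6b he h3 hn (cf_three m)

end Pool.Agent.N809.BP
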