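import Pool.Agent.N809.DA.Region

/-!
# Real powers of the infinite Borwein product: generating function and integral representation
-/

set_option autoImplicit false

namespace Pool.Agent.N809.BP

open Complex MeasureTheory Finset Filter Topology
open scoped Real ArithmeticFunction.sigma
open Pool.Agent.N809.DA

/-- the sum of the divisors of `n` which are not divisible by `3` -/
def sk (n : ℕ) : ℕ := ∑ d ∈ n.divisors.filter (fun d => ¬ 3 ∣ d), d

lemma sk_le (n : ℕ) : sk n ≤ σ 1 n := by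
  unfold sk
  rw [ArithmeticFunction.sigma_one_apply]
  exact Finset.sum_le_sum_of_subset (Finset.filter_subset _ _)

lemma sigma_split (n : ℕ) (hn : 0 < n) : σ 1 n = sk n + if 3 ∣ n then 3 * σ 1 (n / 3) else 0 := by
  have h1 : σ 1 n = sk n + ∑ d ∈ n.divisors.filter (fun d => 3 ∣ d), d := by
    unfold sk
    rw [ArithmeticFunction.sigma_one_apply, add_comm]
    exact (Finset.sum_filter_add_sum_filter_not n.divisors (fun d => 3 ∣ d) (fun d => d)).symm
  rw [h1]
  congr 1
  split_ifs with h3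
  · obtain ⟨m, rfl⟩ := h3
    have hm : 0 < m := by omega
    rw [Nat.mul_div_cancel_left m (by norm_num : 0 < 3), ArithmeticFunction.sigma_one_apply, Finset.mul_sum]
    symm
    refine Finset.sum_nbij (fun d => 3 * d) ?_ ?_ ?_ ?_
    · intro d hd
      rw [Nat.mem_divisors] at hd
      rw [Finset.mem_filter, Nat.mem_divisors]
      exact ⟨⟨Nat.mul_dvd_mul_left 3 hd.1, by omega⟩, Dvd.intro d rfl⟩
    · intro a _ b _ hab
      simpa using hab
    · intro d hd
      rw [Finset.mem_coe, Finset.mem_filter, Nat.mem_divisors] at hd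
      obtain ⟨⟨hd1, _⟩, e, rfl⟩ := hd
      refine ⟨e, ?_, rfl⟩
      rw [Finset.mem_coe, Nat.mem_divisors]
      exact ⟨Nat.dvd_of_mul_dvd_mul_left (by norm_num) hd1, hm.ne'⟩
    · intro d _
      rfl
  · refine Finset.sum_eq_zero fun d hd => ?_
    rw [Finset.mem_filter, Nat.mem_divisors] at hd
    exact absurd (hd.2.trans hd.1.1) h3

/-- the coefficients -/
noncomputable def cf (d : ℝ) : ℕ → ℝ
  | 0 => 1
  | n + 1 => -d / ((n : ℝ) + 1) * ∑ k : Fin (n + 1), (sk ((k : ℕ) + 1) : ℝ) * cf d (n - k)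

lemma cf_zero (d : ℝ) : cf d 0 = 1 := by rw [cf]

lemma cf_succ (d : ℝ) (n : ℕ) :
    ((n : ℝ) + 1) * cf d (n + 1) = -d * ∑ k ∈ range (n + 1), (sk (k + 1) : ℝ) * cf d (n - k) := by
  have hn : ((n : ℝ) + 1) ≠ 0 := by exact_mod_cast Nat.succ_ne_zero n
  rw [cf, Finset.sum_range (fun k => (sk (k + 1) : ℝ) * cf d (n - k))]
  field_simp

lemma cf_succ_c (d : ℝ) (n : ℕ) :
    ((n : ℂ) + 1) * (cf d (n + 1) : ℂ) =
      -(d : ℂ) * ∑ k ∈ range (n + 1), (sk (k + 1) : ℂ) * (cf d (n - k) : ℂ) := by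
  exact_mod_cast congrArg (fun x : ℝ => (x : ℂ)) (cf_succ d n)

lemma sk_le_sq (k : ℕ) : sk (k + 1) ≤ (k + 1) ^ 2 := (sk_le _).trans (sigma_le k)

lemma norm_term_le_b (z : ℂ) (k : ℕ) : ‖(sk (k + 1) : ℂ) * z ^ k‖ ≤ ((k : ℝ) + 1) ^ 2 * ‖z‖ ^ k := by
  rw [norm_mul, norm_pow, Complex.norm_natCast]
  gcongr
  exact_mod_cast sk_le_sq k

/-- `∑ sk(k+1) z^k` -/
noncomputable def phiB (z : ℂ) : ℂ := ∑' k : ℕ, (sk (k + 1) : ℂ) * z ^ k

lemma phiB_eq {z : ℂ} (hz : ‖z‖ < 1) : phiB z = phi z - 3 * z ^ 2 * phi (z ^ 3) := by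
  have hz3 : ‖z ^ 3‖ < 1 := by
    rw [norm_pow]
    exact pow_lt_one₀ (norm_nonneg z) hz (by norm_num)
  have h1 := (summable_phi hz).hasSum
  have h2 := ((summable_phi hz3).hasSum).mul_left (3 * z ^ 2)
  set g : ℕ → ℂ := fun k => if 3 ∣ k + 1 then 3 * (σ 1 ((k + 1) / 3) : ℂ) * z ^ k else 0 with hg
  have hinj : Function.Injective (fun j : ℕ => 3 * j + 2) := fun a b h => by
    simp only at h
    omega
  have h3 : HasSum g (3 * z ^ 2 * phi (z ^ 3)) := by
    rw [← hinj.hasSum_iff]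
    · refine h2.congr_fun ?_ |> fun h => h
      intro j
      simp only [Function.comp, hg]
      have e1 : 3 ∣ 3 * j + 2 + 1 := ⟨j + 1, by ring⟩
      have e2 : (3 * j + 2 + 1) / 3 = j + 1 := by omega
      rw [if_pos e1, e2]
      ring
    · intro k hk
      simp only [hg]
      rw [if_neg]
      rintro ⟨m, hm⟩
      exact hk ⟨m - 1, by simp only; omega⟩
  have h4 : HasSum (fun k : ℕ => (σ 1 (k + 1) : ℂ) * z ^ k - g k) (phi z - 3 * z ^ 2 * phi (z ^ 3)) :=
    h1.sub h3
  unfold phiB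
  rw [← h4.tsum_eq]
  refine tsum_congr fun k => ?_
  have h5 := sigma_split (k + 1) (Nat.succ_pos k)
  simp only [hg]
  split_ifs with h3
  · rw [if_pos h3] at h5
    have h6 : (σ 1 (k + 1) : ℂ) = (sk (k + 1) : ℂ) + 3 * (σ 1 ((k + 1) / 3) : ℂ) := by
      exact_mod_cast h5
    rw [h6]
    ring
  · rw [if_neg h3, add_zero] at h5
    rw [h5, sub_zero]

/-- the formal power series of `phiB` -/
noncomputable def phiBS : FormalMultilinearSeries ℂ ℂ ℂ :=
  FormalMultilinearSeries.ofScalars ℂ (fun k : ℕ => (sk (k + 1) : ℂ))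

lemma phiB_eq_sum : phiB = phiBS.sum := by
  funext z
  unfold phiB phiBS
  have := FormalMultilinearSeries.ofScalars_sum_eq (𝕜 := ℂ) (E := ℂ)
    (fun k : ℕ => (sk (k + 1) : ℂ)) z
  unfold FormalMultilinearSeries.ofScalarsSum at this
  rw [this]
  simp [smul_eq_mul]

lemma phiB_hasFPowerSeries : HasFPowerSeriesOnBall phiB phiBS 0 1 := by
  have hr : (1 : ENNReal) ≤ phiBS.radius := by
    refine ENNReal.le_of_forall_nnreal_lt fun r hr => ?_
    apply FormalMultilinearSeries.le_radius_of_summable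
    have hr1 : (r : ℝ) < 1 := by exact_mod_cast hr
    refine Summable.of_nonneg_of_le (fun n => by positivity) (fun n => ?_)
      (summable_sq r.coe_nonneg hr1)
    unfold phiBS
    rw [FormalMultilinearSeries.ofScalars_norm, Complex.norm_natCast]
    gcongr
    exact_mod_cast sk_le_sq n
  have h := phiBS.hasFPowerSeriesOnBall (lt_of_lt_of_le one_pos hr)
  rw [← phiB_eq_sum] at h
  exact h.mono one_pos hr

lemma phiB_differentiable : DifferentiableOn ℂ phiB (Metric.ball 0 1) := by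
  have := phiB_hasFPowerSeries.differentiableOn
  rwa [show (1 : ENNReal) = ENNReal.ofReal 1 by simp, Metric.eball_ofReal] at this

lemma iteratedDeriv_phiB (k : ℕ) : iteratedDeriv k phiB 0 = (k.factorial : ℂ) * (sk (k + 1) : ℂ) := by
  have h := phiB_hasFPowerSeries.factorial_smul (1 : ℂ) k
  rw [iteratedFDeriv_apply_eq_iteratedDeriv_mul_prod] at h
  simp only [Finset.prod_const_one, one_smul] at h
  rw [← h, phiBS, FormalMultilinearSeries.ofScalars_apply_eq]
  simp

/-- the generating function `exp (d (ψ(z^3) - ψ(z)))` -/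
noncomputable def gb (d : ℝ) (z : ℂ) : ℂ := cexp ((d : ℂ) * (psi (z ^ 3) - psi z))

lemma hasDerivAt_lb {z : ℂ} (hz : ‖z‖ < 1) :
    HasDerivAt (fun z => psi (z ^ 3) - psi z) (-phiB z) z := by
  have hz3 : ‖z ^ 3‖ < 1 := by
    rw [norm_pow]
    exact pow_lt_one₀ (norm_nonneg z) hz (by norm_num)
  have h1 : HasDerivAt (fun z : ℂ => z ^ 3) (3 * z ^ 2) z := by
    simpa using hasDerivAt_pow 3 z
  have h2 := (hasDerivAt_psi hz3).comp z h1
  have h3 := h2.sub (hasDerivAt_psi hz)
  refine h3.congr_deriv ?_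
  rw [phiB_eq hz]
  ring

lemma hasDerivAt_gb (d : ℝ) {z : ℂ} (hz : ‖z‖ < 1) : HasDerivAt (gb d) (-(d : ℂ) * phiB z * gb d z) z := by
  have h := ((hasDerivAt_lb hz).const_mul (d : ℂ)).cexp
  refine h.congr_deriv ?_
  unfold gb
  ring

lemma gb_differentiable (d : ℝ) : DifferentiableOn ℂ (gb d) (Metric.ball 0 1) := by
  intro z hz
  rw [mem_ball_zero_iff] at hz
  exact (hasDerivAt_gb d hz).differentiableAt.differentiableWithinAt

lemma gb_zero (d : ℝ) : gb d 0 = 1 := by
  simp [gb, psi_zero]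

lemma iteratedDeriv_gb (d : ℝ) (n : ℕ) : iteratedDeriv n (gb d) 0 = (n.factorial : ℂ) * (cf d n : ℂ) := by
  induction n using Nat.strong_induction_on with
  | _ n ih =>
    cases n with
    | zero =>
      simp [gb_zero, cf_zero]
    | succ n =>
      rw [iteratedDeriv_succ']
      have h1 : deriv (gb d) =ᶠ[𝓝 0] fun z => (-(d : ℂ) * phiB z) * gb d z := by
        filter_upwards [Metric.ball_mem_nhds (0 : ℂ) one_pos] with z hz
        rw [mem_ball_zero_iff] at hz
        exact (hasDerivAt_gb d hz).deriv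
      rw [h1.iteratedDeriv_eq]
      have h2 := iteratedDeriv_mul (n := n) (x := (0 : ℂ)) (f := fun z => -(d : ℂ) * phiB z) (g := gb d)
        (contDiffAt_of (phiB_differentiable.const_mul (-(d : ℂ))) n) (contDiffAt_of (gb_differentiable d) n)
      have h3 : (fun z => (-(d : ℂ) * phiB z) * gb d z) = (fun z => -(d : ℂ) * phiB z) * gb d := rfl
      rw [h3, h2]
      have h4 : ∀ i ∈ range (n + 1), (n.choose i : ℂ) * iteratedDeriv i (fun z => -(d : ℂ) * phiB z) 0 *
          iteratedDeriv (n - i) (gb d) 0 =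
          (n.factorial : ℂ) * (-(d : ℂ) * ((sk (i + 1) : ℂ) * (cf d (n - i) : ℂ))) := by
        intro i hi
        rw [mem_range] at hi
        rw [ih (n - i) (by omega)]
        have h5 : iteratedDeriv i (fun z => -(d : ℂ) * phiB z) 0 =
            -(d : ℂ) * ((i.factorial : ℂ) * (sk (i + 1) : ℂ)) := by
          rw [iteratedDeriv_const_mul_field, iteratedDeriv_phiB]
        rw [h5]
        have h6 : (n.choose i : ℂ) * (i.factorial : ℂ) * ((n - i).factorial : ℂ) = (n.factorial : ℂ) := by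
          exact_mod_cast Nat.choose_mul_factorial_mul_factorial (by omega : i ≤ n)
        rw [← h6]
        ring
      rw [sum_congr rfl h4, ← mul_sum, ← mul_sum, ← cf_succ_c, Nat.factorial_succ]
      push_cast
      ring

/-- the logarithm of the product in the variable `w`, `q = e^{-2πw}` -/
noncomputable def LG (w : ℂ) : ℂ := Psi (3 * w) - Psi w

/-- the exponent of the integrand -/
noncomputable def NB (d : ℝ) (n : ℕ) (w : ℂ) : ℂ := (d : ℂ) * LG w + 2 * π * n * w

theorem cf_eq_integral (d : ℝ) (n : ℕ) {y : ℝ} (hy : 0 < y) :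
    (cf d n : ℂ) = ∫ ξ in (-(1 / 2) : ℝ)..(1 / 2), cexp (NB d n ((y : ℂ) + ξ * I)) := by
  set r : ℝ := Real.exp (-(2 * π * y)) with hr
  have hr0 : 0 < r := Real.exp_pos _
  have hr1 : r < 1 := by
    rw [hr, Real.exp_lt_one_iff]
    have := Real.pi_pos
    nlinarith [mul_pos this hy]
  have hdc : DiffContOnCl ℂ (gb d) (Metric.ball 0 r) := by
    apply DifferentiableOn.diffContOnCl
    rw [closure_ball _ hr0.ne']
    exact (gb_differentiable d).mono (Metric.closedBall_subset_ball hr1)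
  have h1 := hdc.circleIntegral_one_div_sub_center_pow_smul hr0 n
  rw [iteratedDeriv_gb] at h1
  -- the integrand as a function of the angle
  set G : ℝ → ℂ := fun θ => gb d (circleMap 0 r θ) * (circleMap 0 r θ)⁻¹ ^ n with hG
  have h2 : (∮ z in C(0, r), (1 / (z - 0) ^ (n + 1)) • gb d z) = I * ∫ θ in (0 : ℝ)..(2 * π), G θ := by
    rw [circleIntegral, ← intervalIntegral.integral_const_mul]
    refine intervalIntegral.integral_congr fun θ _ => ?_
    have hne : circleMap 0 r θ ≠ 0 := circleMap_ne_center hr0.ne'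
    simp only [deriv_circleMap, smul_eq_mul, sub_zero, hG, inv_pow]
    field_simp
    ring
  have h3 : (∫ θ in (0 : ℝ)..(2 * π), G θ) = 2 * π * cf d n := by
    have hfac : (n.factorial : ℂ) ≠ 0 := by exact_mod_cast n.factorial_ne_zero
    rw [h2, smul_eq_mul] at h1
    have h4 : I * ((∫ θ in (0 : ℝ)..(2 * π), G θ)) = I * (2 * π * cf d n) := by
      rw [h1]
      field_simp
    exact mul_left_cancel₀ I_ne_zero h4
  have hper : Function.Periodic G (2 * π) := by
    intro θ
    simp only [hG]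
    rw [periodic_circleMap 0 r θ]
  have h5 : (∫ θ in (0 : ℝ)..(2 * π), G θ) = ∫ θ in (-π : ℝ)..π, G θ := by
    have := hper.intervalIntegral_add_eq 0 (-π)
    rw [zero_add] at this
    rw [this]
    congr 1
    ring
  have h6 : (∫ θ in (-π : ℝ)..π, G θ) = 2 * π * ∫ ξ in (-(1 / 2) : ℝ)..(1 / 2), G (-(2 * π) * ξ) := by
    rw [intervalIntegral.integral_comp_mul_left (fun θ => G θ) (by have := Real.pi_pos; intro h; nlinarith : -(2 * π) ≠ 0)]
    have e1 : -(2 * π) * -(1 / 2) = π := by ring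
    have e2 : -(2 * π) * (1 / 2) = -π := by ring
    rw [e1, e2, intervalIntegral.integral_symm (-π) π]
    rw [Complex.real_smul]
    have hpi : (π : ℂ) ≠ 0 := by exact_mod_cast Real.pi_ne_zero
    push_cast
    field_simp
  have hpi : (2 * π : ℂ) ≠ 0 := by
    simp
  have h7 : (cf d n : ℂ) = ∫ ξ in (-(1 / 2) : ℝ)..(1 / 2), G (-(2 * π) * ξ) := by
    apply mul_left_cancel₀ hpi
    rw [← h3, h5, h6]
  rw [h7]
  refine intervalIntegral.integral_congr fun ξ _ => ?_
  simp only [hG, NB]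
  have hq : circleMap 0 r (-(2 * π) * ξ) = cexp (-(2 * π * ((y : ℂ) + ξ * I))) := by
    rw [circleMap_zero, hr, Complex.ofReal_exp, ← Complex.exp_add]
    congr 1
    push_cast
    ring
  rw [hq, Complex.exp_add]
  unfold gb LG Psi
  congr 1
  · congr 3
    rw [← Complex.exp_nat_mul]
    congr 1
    push_cast
    ring
  rw [← Complex.exp_neg, ← Complex.exp_nat_mul]
  congr 1
  ring

end Pool.Agent.N809.BP
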