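import Pool.Agent.N809.BP.Diff

/-!
# The sign of the coefficients for large `n`
-/

set_option autoImplicit false

namespace Pool.Agent.N809.BP

open Complex Finset Filter Topology MeasureTheory
open scoped Real ComplexConjugate
open Pool.Agent.N809.DA

lemma JJ_eq {d : ℝ} {n : ℕ} {ρ S : ℝ} (hρ : 0 < ρ) (hA : AA d = S * ρ) (hB : BB d n = S / ρ) :
    (JJ d n (ρ / 2)).re = ρ * I1 S := by
  have h : JJ d n (ρ / 2) = ((ρ * I1 S : ℝ) : ℂ) := by
    unfold JJ
    have e1 : √3 * (ρ / 2) = ρ * (√3 / 2) := by ring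
    have e2 : -(ρ * (√3 / 2)) = ρ * (-(√3 / 2)) := by ring
    rw [e1, e2, ← intervalIntegral.smul_integral_comp_mul_left, Complex.real_smul]
    push_cast
    congr 1
    rw [← chord_eq S]
    refine intervalIntegral.integral_congr fun x _ => ?_
    simp only [EA]
    have hρ0 : (ρ : ℂ) ≠ 0 := by exact_mod_cast hρ.ne'
    have e3 : (((ρ / 2 : ℝ) : ℂ) + ((ρ * x : ℝ) : ℂ) * I) = ρ * (1 / 2 + x * I) := by
      push_cast
      ring
    rw [e3, hA, hB, mul_inv]
    congr 1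
    push_cast
    field_simp
  rw [h, Complex.ofReal_re]

lemma exists_rho {A B : ℝ} (hA : 0 < A) (hB : 0 < B) : ∃ ρ S : ℝ, 0 < ρ ∧ 0 < S ∧ A = S * ρ ∧ B = S / ρ ∧
    S ^ 2 = A * B := by
  refine ⟨√(A / B), √(A * B), by positivity, by positivity, ?_, ?_, Real.sq_sqrt (by positivity)⟩
  · rw [← Real.sqrt_mul (by positivity), show A * B * (A / B) = A ^ 2 by field_simp, Real.sqrt_sq hA.le]
  · rw [← Real.sqrt_div' _ (by positivity), show A * B / (A / B) = B ^ 2 by field_simp, Real.sqrt_sq hB.le]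

lemma RR_bound' {d : ℝ} (hd0 : 0 < d) (hd3 : d ≤ 3) (n : ℕ) {ρ S : ℝ} (hρ : 0 < ρ) (hρ2 : ρ ≤ 0.0262)
    (hA : AA d = S * ρ) (hB : BB d n = S / ρ) :
    ‖RR d n (ρ / 2)‖ ≤ ρ * Real.exp (2 * S) * (0.5001 * (S / AA d) * Real.exp (-(23 / 18 * S) + 0.01 * d) +
      2.2146 * Real.exp (-S + 0.01 * d)) := by
  have hpi := Real.pi_pos
  have h := RR_bound hd0.le hd3 n (y := ρ / 2) (by positivity) (by linarith)
  have hS : S = d * π / (54 * ρ) := by
    have : AA d = d * π / 54 := rfl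
    rw [this] at hA
    field_simp
    linarith
  have hS0 : 0 < S := by rw [hS]; positivity
  have e1 : BB d n * (ρ / 2) = S / 2 := by
    rw [hB]
    field_simp
  have e2 : d * (π / (486 * (ρ / 2)) + 0.01) = 2 / 9 * S + 0.01 * d := by
    rw [hS]
    field_simp
    ring
  have e3 : d * (π / (216 * (ρ / 2)) + 0.01) = S / 2 + 0.01 * d := by
    rw [hS]
    field_simp
    ring
  rw [e1, e2, e3] at h
  refine h.trans (le_of_eq ?_)
  have e4 : ρ * (S / AA d) = 1 := by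
    rw [hA]
    field_simp
  have e5 : Real.exp (2 * S) * Real.exp (-(23 / 18 * S) + 0.01 * d) =
      Real.exp (S / 2) * Real.exp (2 / 9 * S + 0.01 * d) := by
    rw [← Real.exp_add, ← Real.exp_add]
    congr 1
    ring
  have e6 : Real.exp (2 * S) * Real.exp (-S + 0.01 * d) =
      Real.exp (S / 2) * Real.exp (S / 2 + 0.01 * d) := by
    rw [← Real.exp_add, ← Real.exp_add]
    congr 1
    ring
  have e7 : ρ * Real.exp (2 * S) * (0.5001 * (S / AA d) * Real.exp (-(23 / 18 * S) + 0.01 * d) +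
      2.2146 * Real.exp (-S + 0.01 * d)) =
      0.5001 * (ρ * (S / AA d)) * (Real.exp (2 * S) * Real.exp (-(23 / 18 * S) + 0.01 * d)) +
      2.2146 * ρ * (Real.exp (2 * S) * Real.exp (-S + 0.01 * d)) := by ring
  rw [e7, e4, e5, e6]
  ring

lemma sqrt_pi_ge : 1.77245 ≤ √π := by
  apply Real.le_sqrt_of_sq_le
  have := Real.pi_gt_d6
  norm_num at this ⊢
  linarith

lemma I1_ge' {S : ℝ} (hS : 4.7 ≤ S) : 1.737 * Real.exp (2 * S) / √(S + 0.8) ≤ I1 S := by
  refine le_trans ?_ (I1_ge (by linarith))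
  have hX : 0 < S + 0.8 := by linarith
  have hs : 0 < √(S + 0.8) := Real.sqrt_pos.2 hX
  have hpi := Real.pi_gt_d6
  have hsp := sqrt_pi_ge
  rw [mul_comm (1.737 : ℝ), mul_div_assoc]
  apply mul_le_mul_of_nonneg_left _ (Real.exp_pos _).le
  have h1 : √(π / (S + 0.8)) = √π / √(S + 0.8) := Real.sqrt_div' _ hX.le
  rw [h1, div_le_iff₀ hs, sub_mul, div_mul_cancel₀ _ hs.ne']
  -- √(S+0.8) exp(..) ≤ 0.02
  have h2 : √(S + 0.8) ≤ (S + 0.8) / 2.345 := by
    rw [le_div_iff₀ (by norm_num)]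
    have h3 : 2.345 ≤ √(S + 0.8) := by
      apply Real.le_sqrt_of_sq_le
      norm_num at hS ⊢
      linarith
    have h4 := Real.mul_self_sqrt hX.le
    nlinarith
  have h3 : Real.exp (-((S - 0.2) * (π / 3) ^ 2)) ≤ Real.exp 1.096 * Real.exp (-(1.096 * (S + 0.8))) := by
    rw [← Real.exp_add]
    apply Real.exp_le_exp.2
    have : 1.096 ≤ (π / 3) ^ 2 := by nlinarith
    nlinarith
  have h4 := mul_exp_le (X := S + 0.8) (X₀ := 5.5) (m := 1.096) (by norm_num) (by norm_num) (by linarith)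
  have h5 : Real.exp 1.096 * (5.5 * Real.exp (-(1.096 * 5.5))) ≤ 0.041 := by
    have e : Real.exp 1.096 * (5.5 * Real.exp (-(1.096 * 5.5))) = 5.5 * Real.exp (-4.932) := by
      rw [mul_left_comm, ← Real.exp_add]
      norm_num
    rw [e]
    have h7 : Real.exp (-4.932) = Real.exp (-2.466) ^ 2 := by
      rw [← Real.exp_nat_mul]
      norm_num
    have h8 := exp_neg_le (a := 2.466) (f := 0.466) 2 (by norm_num) (by norm_num)
    rw [h7]
    have h9 : Real.exp (-2.466) ≤ 0.08596 := by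
      refine h8.trans ?_
      norm_num
    have h10 := Real.exp_pos (-2.466)
    nlinarith
  have h6 : Real.exp (-((S - 0.2) * (π / 3) ^ 2)) * √(S + 0.8) ≤ 0.041 / 2.345 := by
    calc Real.exp (-((S - 0.2) * (π / 3) ^ 2)) * √(S + 0.8)
        ≤ (Real.exp 1.096 * Real.exp (-(1.096 * (S + 0.8)))) * ((S + 0.8) / 2.345) := by
          apply mul_le_mul h3 h2 hs.le (by positivity)
      _ = Real.exp 1.096 * ((S + 0.8) * Real.exp (-(1.096 * (S + 0.8)))) / 2.345 := by ring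
      _ ≤ Real.exp 1.096 * (5.5 * Real.exp (-(1.096 * 5.5))) / 2.345 := by gcongr
      _ ≤ 0.041 / 2.345 := by gcongr
  have h7 : Real.exp (-((S - 0.2) * (π / 3) ^ 2)) * √π * √(S + 0.8) =
      (Real.exp (-((S - 0.2) * (π / 3) ^ 2)) * √(S + 0.8)) * √π := by ring
  rw [h7]
  have h8 : Real.exp (-((S - 0.2) * (π / 3) ^ 2)) * √(S + 0.8) * √π ≤ 0.041 / 2.345 * √π := by gcongr
  norm_num at h8 ⊢
  linarith

end Pool.Agent.N809.BP
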