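import Pool.Agent.N809.BP.Large

/-!
# The sign of the coefficients for large `n`: the direct estimate
-/

set_option autoImplicit false

namespace Pool.Agent.N809.BP

open Complex Finset Filter Topology MeasureTheory
open scoped Real ComplexConjugate
open Pool.Agent.N809.DA

lemma sqrt_le_lin {S S0 s0 : ℝ} (h0 : 0 < s0) (hs : s0 ^ 2 ≤ S0 + 0.8) (hS : S0 ≤ S) :
    √(S + 0.8) ≤ (S + 0.8) / s0 := by
  rw [le_div_iff₀ h0]
  have hX : 0 ≤ S + 0.8 := by nlinarith [sq_nonneg s0]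
  have h3 : s0 ≤ √(S + 0.8) := Real.le_sqrt_of_sq_le (by linarith)
  have h4 := Real.mul_self_sqrt hX
  nlinarith [Real.sqrt_nonneg (S + 0.8)]

lemma main_ineq {S0 s0 E1 E2 κ A1 D S A d : ℝ} (h4 : 4 ≤ S0) (h0 : 0 < s0) (hs : s0 ^ 2 ≤ S0 + 0.8)
    (hE1 : Real.exp (-(23 / 18 * S0)) ≤ E1) (hE2 : Real.exp (-S0) ≤ E2) (hA1 : 0 < A1)
    (hD : Real.exp (0.01 * d) ≤ D)
    (hfin : (0.5001 / A1 * (S0 * (S0 + 0.8)) * E1 + 2.2146 * (S0 + 0.8) * E2) * D ≤ κ * 1.737 * s0)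
    (hS : S0 ≤ S) (hA : A1 ≤ A) :
    0.5001 * (S / A) * Real.exp (-(23 / 18 * S) + 0.01 * d) + 2.2146 * Real.exp (-S + 0.01 * d) ≤
      κ * 1.737 / √(S + 0.8) := by
  have hX : 0 < S + 0.8 := by linarith
  have hsq : 0 < √(S + 0.8) := Real.sqrt_pos.2 hX
  have hlin := sqrt_le_lin h0 hs hS
  have hS0 : 0 < S := by linarith
  have hA0 : 0 < A := by linarith
  rw [le_div_iff₀ hsq, Real.exp_add, Real.exp_add]
  have m1 := mul_exp_le (X := S) (X₀ := S0) (m := 0.6) (by linarith) (by linarith) hS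
  have m2 := mul_exp_le (X := S + 0.8) (X₀ := S0 + 0.8) (m := 61 / 90) (by linarith) (by linarith) (by linarith)
  have m3 := mul_exp_le (X := S + 0.8) (X₀ := S0 + 0.8) (m := 1) (by linarith) (by linarith) (by linarith)
  have hD0 : 0 < D := lt_of_lt_of_le (Real.exp_pos _) hD
  have hE10 : 0 < E1 := lt_of_lt_of_le (Real.exp_pos _) hE1
  have hE20 : 0 < E2 := lt_of_lt_of_le (Real.exp_pos _) hE2
  -- first product
  have p1 : S * (S + 0.8) * Real.exp (-(23 / 18 * S)) ≤ S0 * (S0 + 0.8) * E1 := by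
    have e1 : S * (S + 0.8) * Real.exp (-(23 / 18 * S)) =
        (S * Real.exp (-(0.6 * S))) * ((S + 0.8) * Real.exp (-(61 / 90 * (S + 0.8)))) *
          Real.exp (61 / 90 * 0.8) := by
      have : Real.exp (-(23 / 18 * S)) = Real.exp (-(0.6 * S)) * Real.exp (-(61 / 90 * (S + 0.8))) *
          Real.exp (61 / 90 * 0.8) := by
        rw [← Real.exp_add, ← Real.exp_add]
        congr 1
        ring
      rw [this]
      ring
    have e2 : S0 * (S0 + 0.8) * Real.exp (-(23 / 18 * S0)) =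
        (S0 * Real.exp (-(0.6 * S0))) * ((S0 + 0.8) * Real.exp (-(61 / 90 * (S0 + 0.8)))) *
          Real.exp (61 / 90 * 0.8) := by
      have : Real.exp (-(23 / 18 * S0)) = Real.exp (-(0.6 * S0)) * Real.exp (-(61 / 90 * (S0 + 0.8))) *
          Real.exp (61 / 90 * 0.8) := by
        rw [← Real.exp_add, ← Real.exp_add]
        congr 1
        ring
      rw [this]
      ring
    have e3 : S0 * (S0 + 0.8) * Real.exp (-(23 / 18 * S0)) ≤ S0 * (S0 + 0.8) * E1 := by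
      apply mul_le_mul_of_nonneg_left hE1
      have : 0 < S0 := by linarith
      positivity
    refine le_trans ?_ e3
    rw [e1, e2]
    have hq : 0 < S0 := by linarith
    gcongr
  have p2 : (S + 0.8) * Real.exp (-S) ≤ (S0 + 0.8) * E2 := by
    have e1 : (S + 0.8) * Real.exp (-S) = ((S + 0.8) * Real.exp (-(1 * (S + 0.8)))) * Real.exp 0.8 := by
      rw [mul_assoc, ← Real.exp_add]
      congr 2
      ring
    have e2 : (S0 + 0.8) * Real.exp (-S0) = ((S0 + 0.8) * Real.exp (-(1 * (S0 + 0.8)))) * Real.exp 0.8 := by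
      rw [mul_assoc, ← Real.exp_add]
      congr 2
      ring
    have e3 : (S0 + 0.8) * Real.exp (-S0) ≤ (S0 + 0.8) * E2 := by
      apply mul_le_mul_of_nonneg_left hE2
      linarith
    refine le_trans ?_ e3
    rw [e1, e2]
    gcongr
  have hSA : S / A ≤ S / A1 := by gcongr
  calc (0.5001 * (S / A) * (Real.exp (-(23 / 18 * S)) * Real.exp (0.01 * d)) +
        2.2146 * (Real.exp (-S) * Real.exp (0.01 * d))) * √(S + 0.8)
      ≤ (0.5001 * (S / A1) * (Real.exp (-(23 / 18 * S)) * D) +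
        2.2146 * (Real.exp (-S) * D)) * ((S + 0.8) / s0) := by
        gcongr
    _ = (0.5001 / A1 * (S * (S + 0.8) * Real.exp (-(23 / 18 * S))) +
        2.2146 * ((S + 0.8) * Real.exp (-S))) * D / s0 := by
        ring
    _ ≤ (0.5001 / A1 * (S0 * (S0 + 0.8) * E1) + 2.2146 * ((S0 + 0.8) * E2)) * D / s0 := by
        gcongr
    _ = ((0.5001 / A1 * (S0 * (S0 + 0.8)) * E1 + 2.2146 * (S0 + 0.8) * E2) * D) / s0 := by ring
    _ ≤ (κ * 1.737 * s0) / s0 := by gcongr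
    _ = κ * 1.737 := by field_simp

theorem direct {d : ℝ} {n : ℕ} {S0 s0 E1 E2 κ A1 D : ℝ} (hd0 : 0 < d) (hd3 : d ≤ 3) (hB : 0 < BB d n)
    (h4 : 4.7 ≤ S0) (h0 : 0 < s0) (hs : s0 ^ 2 ≤ S0 + 0.8)
    (hE1 : Real.exp (-(23 / 18 * S0)) ≤ E1) (hE2 : Real.exp (-S0) ≤ E2) (hA1 : 0 < A1)
    (hD : Real.exp (0.01 * d) ≤ D)
    (hfin : (0.5001 / A1 * (S0 * (S0 + 0.8)) * E1 + 2.2146 * (S0 + 0.8) * E2) * D ≤ κ * 1.737 * s0)
    (hA : A1 ≤ AA d) (hAS : AA d ≤ 0.0262 * S0) (hS : S0 ^ 2 ≤ AA d * BB d n) (hκ : 0 ≤ κ) :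
    (κ ≤ Real.cos (ph d n) → 0 ≤ cf d n) ∧ (κ ≤ -Real.cos (ph d n) → cf d n ≤ 0) := by
  have hApos : 0 < AA d := by linarith
  obtain ⟨ρ, S, hρ, hS1, e1, e2, e3⟩ := exists_rho hApos hB
  have hSS : S0 ≤ S := by
    rw [← e3] at hS
    exact le_of_sq_le_sq hS hS1.le
  have hρ2 : ρ ≤ 0.0262 := by
    have : S * ρ ≤ S * 0.0262 := by rw [← e1]; nlinarith
    exact le_of_mul_le_mul_left this hS1
  have hR := RR_bound' hd0 hd3 n hρ hρ2 e1 e2
  have hm := main_ineq (S := S) (A := AA d) (d := d) (by linarith) h0 hs hE1 hE2 hA1 hD hfin hSS hA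
  have hI := I1_ge' (S := S) (by linarith)
  have hR2 : ‖RR d n (ρ / 2)‖ ≤ κ * (ρ * I1 S) := by
    refine hR.trans ?_
    have h5 : 0 ≤ ρ * Real.exp (2 * S) := by positivity
    calc ρ * Real.exp (2 * S) * (0.5001 * (S / AA d) * Real.exp (-(23 / 18 * S) + 0.01 * d) +
          2.2146 * Real.exp (-S + 0.01 * d))
        ≤ ρ * Real.exp (2 * S) * (κ * 1.737 / √(S + 0.8)) := mul_le_mul_of_nonneg_left hm h5
      _ = κ * (ρ * (1.737 * Real.exp (2 * S) / √(S + 0.8))) := by ring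
      _ ≤ κ * (ρ * I1 S) := by gcongr
  have hf := cf_formula d n (y := ρ / 2) (by positivity)
  rw [JJ_eq hρ e1 e2] at hf
  have hre := abs_le.1 ((Complex.abs_re_le_norm _).trans hR2)
  have hI0 : 0 ≤ ρ * I1 S := by
    have : 0 ≤ I1 S := le_trans (by positivity) hI
    positivity
  constructor
  · intro hc
    have := mul_le_mul_of_nonneg_right hc hI0
    rw [hf]
    nlinarith [hre.1]
  · intro hc
    have := mul_le_mul_of_nonneg_right hc hI0
    rw [hf]
    nlinarith [hre.2]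

/-! ### the cosines -/

lemma cos_zero {d : ℝ} (h0 : 0 ≤ d) (h3 : d ≤ 3) (m : ℕ) : 1 / 2 ≤ Real.cos (ph d (3 * m)) := by
  have hpi := Real.pi_pos
  have e : ph d (3 * m) = d * π / 18 + m * (2 * π) := by
    unfold ph
    push_cast
    ring
  rw [e, Real.cos_add_nat_mul_two_pi]
  have h1 : d * π / 18 ≤ π / 6 := by nlinarith
  have h2 : Real.cos (π / 6) ≤ Real.cos (d * π / 18) :=
    Real.cos_le_cos_of_nonneg_of_le_pi (by positivity) (by linarith) h1
  rw [Real.cos_pi_div_six] at h2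
  have := sqrt3.1
  linarith

lemma cos_one {d : ℝ} (h0 : 0 ≤ d) (h3 : d ≤ 3) (m : ℕ) : 1 / 2 ≤ -Real.cos (ph d (3 * m + 1)) := by
  have hpi := Real.pi_pos
  have e : ph d (3 * m + 1) = (d * π / 18 + π / 6 + π / 2) + m * (2 * π) := by
    unfold ph
    push_cast
    ring
  rw [e, Real.cos_add_nat_mul_two_pi, Real.cos_add_pi_div_two, neg_neg]
  have h1 : d * π / 18 + π / 6 ≤ π / 2 := by nlinarith
  have h2 : Real.sin (π / 6) ≤ Real.sin (d * π / 18 + π / 6) := by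
    apply Real.sin_le_sin_of_le_of_le_pi_div_two _ h1
    · have : 0 ≤ d * π / 18 := by positivity
      linarith
    · linarith
  rw [Real.sin_pi_div_six] at h2
  exact h2

lemma cos_two (d : ℝ) (m : ℕ) : Real.cos (ph d (3 * m + 2)) = -Real.sin ((3 - d) * π / 18) := by
  have e : ph d (3 * m + 2) = (π / 2 - (3 - d) * π / 18 + π) + m * (2 * π) := by
    unfold ph
    push_cast
    ring
  rw [e, Real.cos_add_nat_mul_two_pi, Real.cos_add_pi, Real.cos_pi_div_two_sub]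

end Pool.Agent.N809.BP
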