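import Pool.Agent.N809.BP.Minor

/-!
# The decomposition of the coefficients
-/

set_option autoImplicit false

namespace Pool.Agent.N809.BP

open Complex Finset Filter Topology MeasureTheory
open scoped Real ComplexConjugate
open Pool.Agent.N809.DA

noncomputable def AA (d : ℝ) : ℝ := d * π / 54
noncomputable def BB (d : ℝ) (n : ℕ) : ℝ := 2 * π * n - d * π / 6
noncomputable def ph (d : ℝ) (n : ℕ) : ℝ := 2 * π * n / 3 + d * π / 18

/-- the integrand -/
noncomputable def FF (d : ℝ) (n : ℕ) (y ξ : ℝ) : ℂ := cexp (NB d n ((y : ℂ) + ξ * I))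

/-- the approximation of the integrand near the cusp -/
noncomputable def EA (d : ℝ) (n : ℕ) (y η : ℝ) : ℂ :=
  cexp (AA d * ((y : ℂ) + η * I)⁻¹ + BB d n * ((y : ℂ) + η * I))

noncomputable def KK (d : ℝ) (n : ℕ) (y η : ℝ) : ℂ := FF d n y (1 / 3 + η) - cexp (ph d n * I) * EA d n y η

noncomputable def JJ (d : ℝ) (n : ℕ) (y : ℝ) : ℂ := ∫ η in (-(√3 * y))..(√3 * y), EA d n y η

noncomputable def RR (d : ℝ) (n : ℕ) (y : ℝ) : ℂ := (∫ η in (-(√3 * y))..(√3 * y), KK d n y η) +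
  ((∫ ξ in (0 : ℝ)..(1 / 3 - √3 * y), FF d n y ξ) + ∫ ξ in (1 / 3 + √3 * y)..(1 / 2), FF d n y ξ)

lemma hasDerivAt_LG {w : ℂ} (hw : 0 < w.re) :
    HasDerivAt LG (-(2 * π * EE (3 * w)) * 3 - -(2 * π * EE w)) w := by
  have h3 : 0 < (3 * w).re := by simpa using hw
  have h1 : HasDerivAt (fun w : ℂ => 3 * w) 3 w := by simpa using (hasDerivAt_id w).const_mul (3 : ℂ)
  exact ((hasDerivAt_Psi h3).comp w h1).sub (hasDerivAt_Psi hw)

lemma LG_conj (w : ℂ) : LG (conj w) = conj (LG w) := by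
  unfold LG
  rw [map_sub, ← Psi_conj, ← Psi_conj]
  simp [map_ofNat]

lemma NB_conj (d : ℝ) (n : ℕ) (w : ℂ) : NB d n (conj w) = conj (NB d n w) := by
  unfold NB
  rw [LG_conj]
  simp [map_ofNat]

lemma FF_neg (d : ℝ) (n : ℕ) (y ξ : ℝ) : FF d n y (-ξ) = conj (FF d n y ξ) := by
  unfold FF
  have h : ((y : ℂ) + ((-ξ : ℝ) : ℂ) * I) = conj ((y : ℂ) + ξ * I) := by simp
  rw [h, NB_conj, Complex.exp_conj]

lemma NB_continuous (d : ℝ) (n : ℕ) {y : ℝ} (hy : 0 < y) :
    Continuous (fun ξ : ℝ => NB d n ((y : ℂ) + ξ * I)) := by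
  rw [continuous_iff_continuousAt]
  intro ξ
  have hw : 0 < ((y : ℂ) + ξ * I).re := by rw [line_re]; exact hy
  have h1 : ContinuousAt (NB d n) ((y : ℂ) + ξ * I) := by
    unfold NB
    exact ((hasDerivAt_LG hw).continuousAt.const_mul _).add (by fun_prop)
  have h2 : ContinuousAt (fun ξ : ℝ => (y : ℂ) + ξ * I) ξ := by fun_prop
  exact ContinuousAt.comp (f := fun ξ : ℝ => (y : ℂ) + ξ * I) h1 h2

lemma FF_continuous (d : ℝ) (n : ℕ) {y : ℝ} (hy : 0 < y) : Continuous (FF d n y) :=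
  Complex.continuous_exp.comp (NB_continuous d n hy)

lemma line_ne {y : ℝ} (hy : 0 < y) (η : ℝ) : (y : ℂ) + η * I ≠ 0 := by
  intro h
  have := congrArg Complex.re h
  rw [line_re] at this
  simp at this
  linarith

lemma EA_continuous (d : ℝ) (n : ℕ) {y : ℝ} (hy : 0 < y) : Continuous (EA d n y) := by
  unfold EA
  apply Complex.continuous_exp.comp
  apply Continuous.add
  · apply Continuous.mul continuous_const
    apply Continuous.inv₀ (by fun_prop)
    exact line_ne hy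
  · fun_prop

lemma cf_half (d : ℝ) (n : ℕ) {y : ℝ} (hy : 0 < y) :
    cf d n = 2 * (∫ ξ in (0 : ℝ)..(1 / 2), FF d n y ξ).re := by
  have h0 := cf_eq_integral d n hy
  have hc := FF_continuous d n hy
  have h1 : (∫ ξ in (-(1 / 2) : ℝ)..(1 / 2), FF d n y ξ) =
      conj (∫ ξ in (0 : ℝ)..(1 / 2), FF d n y ξ) + ∫ ξ in (0 : ℝ)..(1 / 2), FF d n y ξ := by
    rw [← intervalIntegral.integral_add_adjacent_intervals (b := 0) (hc.intervalIntegrable _ _)
      (hc.intervalIntegrable _ _)]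
    congr 1
    have h2 := intervalIntegral.integral_comp_neg (a := 0) (b := 1 / 2) (FF d n y)
    rw [neg_zero] at h2
    rw [← h2]
    simp_rw [FF_neg]
    rw [intervalIntegral.integral_of_le (by norm_num), intervalIntegral.integral_of_le (by norm_num)]
    exact integral_conj
  have h2 : (cf d n : ℂ) = conj (∫ ξ in (0 : ℝ)..(1 / 2), FF d n y ξ) + ∫ ξ in (0 : ℝ)..(1 / 2), FF d n y ξ := by
    rw [← h1, h0]
    rfl
  have h3 := congrArg Complex.re h2
  rw [Complex.ofReal_re, Complex.add_re, Complex.conj_re] at h3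
  linarith

lemma JJ_real (d : ℝ) (n : ℕ) (y : ℝ) : JJ d n y = ((JJ d n y).re : ℂ) := by
  have h : conj (JJ d n y) = JJ d n y := by
    unfold JJ
    have h2 := intervalIntegral.integral_comp_neg (a := -(√3 * y)) (b := √3 * y) (EA d n y)
    rw [neg_neg] at h2
    nth_rewrite 2 [← h2]
    have h3 : ∀ η : ℝ, EA d n y (-η) = conj (EA d n y η) := by
      intro η
      unfold EA
      have h : ((y : ℂ) + ((-η : ℝ) : ℂ) * I) = conj ((y : ℂ) + η * I) := by simp
      rw [h, ← Complex.exp_conj]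
      simp
    simp_rw [h3]
    unfold intervalIntegral
    rw [map_sub, integral_conj, integral_conj]
  rw [Complex.conj_eq_iff_real] at h
  obtain ⟨r, hr⟩ := h
  rw [hr, Complex.ofReal_re]

theorem cf_formula (d : ℝ) (n : ℕ) {y : ℝ} (hy : 0 < y) :
    cf d n = 2 * Real.cos (ph d n) * (JJ d n y).re + 2 * (RR d n y).re := by
  have hc := FF_continuous d n hy
  have he := EA_continuous d n hy
  have h1 : (∫ ξ in (0 : ℝ)..(1 / 2), FF d n y ξ) = cexp (ph d n * I) * JJ d n y + RR d n y := by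
    have hwin : (∫ ξ in (1 / 3 - √3 * y)..(1 / 3 + √3 * y), FF d n y ξ) =
        cexp (ph d n * I) * JJ d n y + ∫ η in (-(√3 * y))..(√3 * y), KK d n y η := by
      have e1 : (∫ η in (-(√3 * y))..(√3 * y), FF d n y (1 / 3 + η)) =
          ∫ ξ in (1 / 3 - √3 * y)..(1 / 3 + √3 * y), FF d n y ξ := by
        rw [intervalIntegral.integral_comp_add_left (fun ξ => FF d n y ξ) (1 / 3)]
        congr 1
      rw [← e1]
      unfold JJ KK
      have hc2 : Continuous (fun η => FF d n y (1 / 3 + η)) := hc.comp (by fun_prop)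
      have he2 : Continuous (fun η => cexp (ph d n * I) * EA d n y η) := continuous_const.mul he
      rw [intervalIntegral.integral_sub (hc2.intervalIntegrable _ _)
        (he2.intervalIntegrable _ _), intervalIntegral.integral_const_mul]
      ring
    rw [← intervalIntegral.integral_add_adjacent_intervals (a := 0) (b := 1 / 3 - √3 * y) (c := 1 / 2)
      (hc.intervalIntegrable _ _) (hc.intervalIntegrable _ _),
      ← intervalIntegral.integral_add_adjacent_intervals (a := 1 / 3 - √3 * y) (b := 1 / 3 + √3 * y) (c := 1 / 2)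
      (hc.intervalIntegrable _ _) (hc.intervalIntegrable _ _), hwin]
    unfold RR
    ring
  rw [cf_half d n hy, h1, Complex.add_re, JJ_real d n y, Complex.re_mul_ofReal,
    Complex.exp_ofReal_mul_I_re, Complex.ofReal_re]
  ring

/-! ### pointwise formulas -/

lemma norm_FF (d : ℝ) (n : ℕ) {y : ℝ} (hy : 0 < y) (ξ : ℝ) :
    ‖FF d n y ξ‖ = Real.exp (d * DD ((y : ℂ) + ξ * I) + BB d n * y) := by
  unfold FF
  rw [Complex.norm_exp]
  congr 1
  have hw : 0 < ((y : ℂ) + ξ * I).re := by rw [line_re]; exact hy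
  unfold NB BB
  rw [Complex.add_re, Complex.re_ofReal_mul, re_LG hw, line_re]
  have e2 : 2 * (π : ℂ) * n * ((y : ℂ) + ξ * I) = ((2 * π * n : ℝ) : ℂ) * ((y : ℂ) + ξ * I) := by
    push_cast; ring
  rw [e2, Complex.re_ofReal_mul, line_re]
  ring

lemma norm_EA (d : ℝ) (n : ℕ) (y η : ℝ) :
    ‖EA d n y η‖ = Real.exp (AA d * (y / (y ^ 2 + η ^ 2)) + BB d n * y) := by
  unfold EA
  rw [Complex.norm_exp]
  congr 1
  rw [Complex.add_re, Complex.re_ofReal_mul, Complex.re_ofReal_mul, Complex.inv_re, line_re, line_normSq]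

/-- the dual point -/
noncomputable def dual (y η : ℝ) : ℂ := 1 / (9 * ((y : ℂ) + η * I)) - I / 3

lemma dual_re (y η : ℝ) : (dual y η).re = (y / (y ^ 2 + η ^ 2)) / 9 := by
  unfold dual
  have h13 : (I / 3 : ℂ).re = 0 := by
    rw [show (I / 3 : ℂ) = ((1 / 3 : ℝ) : ℂ) * I by push_cast; ring, Complex.re_ofReal_mul]
    simp
  have h2 : (1 / (9 * ((y : ℂ) + η * I))) = (((1 / 9 : ℝ) : ℂ)) * ((y : ℂ) + η * I)⁻¹ := by
    push_cast
    rw [one_div, mul_inv]
    ring
  rw [Complex.sub_re, h13, h2, Complex.re_ofReal_mul, Complex.inv_re, line_re, line_normSq]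
  ring

lemma FF_cusp (d : ℝ) (n : ℕ) {y : ℝ} (hy : 0 < y) (η : ℝ) :
    FF d n y (1 / 3 + η) = cexp (ph d n * I) * EA d n y η * cexp (d * LG (dual y η)) := by
  unfold FF EA
  rw [← Complex.exp_add, ← Complex.exp_add]
  congr 1
  have hw : 0 < ((y : ℂ) + η * I).re := by rw [line_re]; exact hy
  have h1 := LG_trans hw
  have h2 : ((y : ℂ) + ((1 / 3 + η : ℝ) : ℂ) * I) = I / 3 + ((y : ℂ) + η * I) := by
    push_cast
    ring
  unfold NB
  rw [h2, h1]
  unfold dual AA BB ph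
  set u : ℂ := (y : ℂ) + η * I with hu
  have h3 : (π : ℂ) / (54 * u) = π * u⁻¹ / 54 := by
    rw [← div_div, div_eq_mul_inv (_ / _) u]
    ring
  rw [h3]
  push_cast
  ring

lemma KK_eq (d : ℝ) (n : ℕ) {y : ℝ} (hy : 0 < y) (η : ℝ) :
    KK d n y η = cexp (ph d n * I) * EA d n y η * (cexp (d * LG (dual y η)) - 1) := by
  unfold KK
  rw [FF_cusp d n hy]
  ring

end Pool.Agent.N809.BP
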