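import Pool.Agent.N809.BP.Cusp
import Pool.Agent.N809.BP.Arc

/-!
# The minor arcs
-/

set_option autoImplicit false

namespace Pool.Agent.N809.BP

open Complex Finset Filter Topology
open scoped Real
open Pool.Agent.N809.DA

/-- the possible cusps -/
lemma DD_cases {y ξ : ℝ} (hy : 0 < y) (hy2 : y ≤ 0.0131) (h0 : 0 ≤ ξ) (h1 : ξ ≤ 1 / 2) :
    DD ((y : ℂ) + ξ * I) ≤ π / (486 * y) + 0.01 ∨
    DD ((y : ℂ) + ξ * I) ≤ π / 216 * (y / ((ξ - 1 / 6) ^ 2 + y ^ 2)) + 0.01 ∨
    DD ((y : ℂ) + ξ * I) ≤ π / 54 * (y / ((ξ - 1 / 3) ^ 2 + y ^ 2)) + 0.01 := by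
  have hpi := Real.pi_gt_d6
  have hw : 0 < ((y : ℂ) + ξ * I).re := by rw [line_re]; exact hy
  have h9 : 0.5 ≤ π / (486 * y) + 0.01 := by
    have : 0.493 ≤ π / (486 * y) := by
      rw [le_div_iff₀ (by positivity)]
      nlinarith
    linarith
  rcases DD_bound hw with h | ⟨c, d, hcd, h3, hY, hD⟩
  · left
    exact h.trans h9
  · rw [line_re, line_im] at hY hD
    set Q : ℝ := ((d : ℝ) - 3 * c * ξ) ^ 2 + (3 * c * y) ^ 2 with hQ
    have hQ0 : 0 ≤ Q := by positivity
    have hQpos : 0 < Q := by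
      rcases hQ0.lt_or_eq with h | h
      · exact h
      · rw [← h, div_zero] at hY
        norm_num at hY
    have hY2 := ge_866 (Y := 3 * y / Q) (by positivity) hY
    rw [le_div_iff₀ hQpos] at hY2
    have hQle : Q ≤ 0.0454 := by nlinarith
    have hdist : ((d : ℝ) - 3 * c * ξ) ^ 2 ≤ 0.0454 := by
      have : 0 ≤ (3 * c * y) ^ 2 := by positivity
      linarith
    have habs : |(d : ℝ) - 3 * c * ξ| < 0.22 := by
      rw [← sq_lt_sq₀ (abs_nonneg _) (by norm_num), sq_abs]
      linarith
    rw [abs_lt] at habs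
    have hc : c = 0 ∨ c = 1 ∨ c = -1 ∨ c = 2 ∨ c = -2 ∨ 3 ≤ |c| := by
      rcases abs_cases c with ⟨h, _⟩ | ⟨h, _⟩ <;> rw [h] <;> omega
    have big : 3 ≤ |c| → DD ((y : ℂ) + ξ * I) ≤ π / (486 * y) + 0.01 := by
      intro hc3
      refine hD.trans ?_
      have hc3' : (3 : ℝ) ≤ |(c : ℝ)| := by exact_mod_cast hc3
      have hc9 : (9 : ℝ) ≤ (c : ℝ) ^ 2 := by
        rw [← sq_abs]
        nlinarith
      have h5 : y / Q ≤ 1 / (81 * y) := by
        rw [div_le_div_iff₀ hQpos (by positivity)]
        have : (3 * c * y) ^ 2 = 9 * (c : ℝ) ^ 2 * y ^ 2 := by ring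
        nlinarith [sq_nonneg ((d : ℝ) - 3 * c * ξ), mul_pos hy hy]
      calc π / 6 * (y / Q) + 0.01 ≤ π / 6 * (1 / (81 * y)) + 0.01 := by gcongr
        _ = π / (486 * y) + 0.01 := by
          congr 1
          field_simp
          norm_num
    rcases hc with rfl | rfl | rfl | rfl | rfl | h
    · exfalso
      have : IsUnit d := isCoprime_zero_left.1 hcd
      rw [Int.isUnit_iff] at this
      push_cast at habs
      rcases this with rfl | rfl
      · norm_num at habs
      · norm_num at habs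
    · -- c = 1
      right; right
      have hd : d = 1 := by
        push_cast at habs
        have a1 : (-1 : ℝ) < d := by linarith
        have a2 : (d : ℝ) < 2 := by linarith
        have a3 : -1 < d := by exact_mod_cast a1
        have a4 : d < 2 := by exact_mod_cast a2
        omega
      subst hd
      refine hD.trans (le_of_eq ?_)
      have : Q = 9 * ((ξ - 1 / 3) ^ 2 + y ^ 2) := by
        rw [hQ]
        push_cast
        ring
      rw [this]
      have hne : (ξ - 1 / 3) ^ 2 + y ^ 2 ≠ 0 := by positivity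
      field_simp
      ring
    · -- c = -1
      right; right
      have hd : d = -1 := by
        push_cast at habs
        have a1 : (-2 : ℝ) < d := by linarith
        have a2 : (d : ℝ) < 1 := by linarith
        have a3 : -2 < d := by exact_mod_cast a1
        have a4 : d < 1 := by exact_mod_cast a2
        omega
      subst hd
      refine hD.trans (le_of_eq ?_)
      have : Q = 9 * ((ξ - 1 / 3) ^ 2 + y ^ 2) := by
        rw [hQ]
        push_cast
        ring
      rw [this]
      have hne : (ξ - 1 / 3) ^ 2 + y ^ 2 ≠ 0 := by positivity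
      field_simp
      ring
    · -- c = 2
      right; left
      have hd : d = 1 := by
        push_cast at habs
        have a1 : (-1 : ℝ) < d := by linarith
        have a2 : (d : ℝ) < 4 := by linarith
        have a3 : -1 < d := by exact_mod_cast a1
        have a4 : d < 4 := by exact_mod_cast a2
        have h2 : d ≠ 2 := by
          rintro rfl
          rw [Int.isCoprime_iff_gcd_eq_one] at hcd
          norm_num at hcd
        omega
      subst hd
      refine hD.trans (le_of_eq ?_)
      have : Q = 36 * ((ξ - 1 / 6) ^ 2 + y ^ 2) := by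
        rw [hQ]
        push_cast
        ring
      rw [this]
      have hne : (ξ - 1 / 6) ^ 2 + y ^ 2 ≠ 0 := by positivity
      field_simp
      ring
    · -- c = -2
      right; left
      have hd : d = -1 := by
        push_cast at habs
        have a1 : (-4 : ℝ) < d := by linarith
        have a2 : (d : ℝ) < 1 := by linarith
        have a3 : -4 < d := by exact_mod_cast a1
        have a4 : d < 1 := by exact_mod_cast a2
        have h2 : d ≠ -2 := by
          rintro rfl
          rw [Int.isCoprime_iff_gcd_eq_one] at hcd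
          norm_num at hcd
        omega
      subst hd
      refine hD.trans (le_of_eq ?_)
      have : Q = 36 * ((ξ - 1 / 6) ^ 2 + y ^ 2) := by
        rw [hQ]
        push_cast
        ring
      rw [this]
      have hne : (ξ - 1 / 6) ^ 2 + y ^ 2 ≠ 0 := by positivity
      field_simp
      ring
    · left
      exact big h

lemma frac_le {y t m c : ℝ} (hy : 0 < y) (hm : 0 ≤ m) (hc : 0 < c) (h : c ≤ m ^ 2 + 1) (ht : m * y ≤ |t|) :
    y / (t ^ 2 + y ^ 2) ≤ 1 / (c * y) := by
  rw [div_le_div_iff₀ (by positivity) (by positivity)]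
  have h1 : (m * y) ^ 2 ≤ t ^ 2 := by
    rw [← sq_abs t]
    exact pow_le_pow_left₀ (by positivity) ht 2
  nlinarith [mul_pos hy hy]

lemma DD_le9 {y ξ : ℝ} (hy : 0 < y) (hy2 : y ≤ 0.0131) (h0 : 0 ≤ ξ) (h1 : ξ ≤ 1 / 2)
    (h6 : 1.1181 * y ≤ |ξ - 1 / 6|) (h3 : 2.8285 * y ≤ |ξ - 1 / 3|) :
    DD ((y : ℂ) + ξ * I) ≤ π / (486 * y) + 0.01 := by
  have hpi := Real.pi_pos
  rcases DD_cases hy hy2 h0 h1 with h | h | h
  · exact h
  · refine h.trans ?_
    have h5 := frac_le (c := 9 / 4) hy (by norm_num) (by norm_num) (by norm_num) h6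
    calc π / 216 * (y / ((ξ - 1 / 6) ^ 2 + y ^ 2)) + 0.01 ≤ π / 216 * (1 / (9 / 4 * y)) + 0.01 := by gcongr
      _ = π / (486 * y) + 0.01 := by
        congr 1
        field_simp
        norm_num
  · refine h.trans ?_
    have h5 := frac_le (c := 9) hy (by norm_num) (by norm_num) (by norm_num) h3
    calc π / 54 * (y / ((ξ - 1 / 3) ^ 2 + y ^ 2)) + 0.01 ≤ π / 54 * (1 / (9 * y)) + 0.01 := by gcongr
      _ = π / (486 * y) + 0.01 := by
        congr 1
        field_simp
        norm_num

lemma DD_le6 {y ξ : ℝ} (hy : 0 < y) (hy2 : y ≤ 0.0131) (h0 : 0 ≤ ξ) (h1 : ξ ≤ 1 / 2)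
    (h3 : √3 * y ≤ |ξ - 1 / 3|) :
    DD ((y : ℂ) + ξ * I) ≤ π / (216 * y) + 0.01 := by
  have hpi := Real.pi_pos
  rcases DD_cases hy hy2 h0 h1 with h | h | h
  · refine h.trans ?_
    gcongr
    norm_num
  · refine h.trans ?_
    have h5 := frac_le (t := ξ - 1 / 6) (c := 1) (m := 0) hy (by norm_num) (by norm_num) (by norm_num)
      (by rw [zero_mul]; exact abs_nonneg _)
    calc π / 216 * (y / ((ξ - 1 / 6) ^ 2 + y ^ 2)) + 0.01 ≤ π / 216 * (1 / (1 * y)) + 0.01 := by gcongr
      _ = π / (216 * y) + 0.01 := by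
        congr 1
        field_simp
  · refine h.trans ?_
    have h5 := frac_le (c := 4) hy (Real.sqrt_nonneg 3) (by norm_num)
      (by rw [Real.sq_sqrt (by norm_num)]; norm_num) h3
    calc π / 54 * (y / ((ξ - 1 / 3) ^ 2 + y ^ 2)) + 0.01 ≤ π / 54 * (1 / (4 * y)) + 0.01 := by gcongr
      _ = π / (216 * y) + 0.01 := by
        congr 1
        field_simp
        norm_num

end Pool.Agent.N809.BP
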