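import Pool.Agent.N809.BP.Gen

/-!
# The invariant function `H` and the modular transformations
-/

set_option autoImplicit false

namespace Pool.Agent.N809.BP

open Complex Finset Filter Topology
open scoped Real UpperHalfPlane Modular MatrixGroups
open Pool.Agent.N809.DA

/-- minus the logarithm of `Im(τ)^(1/4) |η(τ)|`, as a function of `w = -iτ` -/
noncomputable def HH (w : ℂ) : ℝ := (Psi w).re + π * w.re / 12 - Real.log w.re / 4

lemma HH_add_I (w : ℂ) : HH (w + I) = HH w := by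
  unfold HH
  rw [Psi_add_I]
  simp

lemma HH_inv {w : ℂ} (hw : 0 < w.re) : HH w⁻¹ = HH w := by
  have hw0 : w ≠ 0 := by
    rintro rfl
    simp at hw
  have h1 := congrArg Complex.re (psi_trans hw)
  have hn : 0 < normSq w := Complex.normSq_pos.2 hw0
  have hinv : (w⁻¹).re = w.re / normSq w := Complex.inv_re w
  have h2 : (π * w⁻¹ / 12 - π * w / 12 + Complex.log w / 2 + Psi w⁻¹).re =
      π * (w⁻¹).re / 12 - π * w.re / 12 + Real.log ‖w‖ / 2 + (Psi w⁻¹).re := by
    have e1 : (π * w⁻¹ / 12 : ℂ) = ((π / 12 : ℝ) : ℂ) * w⁻¹ := by push_cast; ring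
    have e2 : (π * w / 12 : ℂ) = ((π / 12 : ℝ) : ℂ) * w := by push_cast; ring
    have e3 : (Complex.log w / 2 : ℂ) = ((1 / 2 : ℝ) : ℂ) * Complex.log w := by push_cast; ring
    rw [e1, e2, e3]
    simp only [Complex.add_re, Complex.sub_re, Complex.re_ofReal_mul, Complex.log_re]
    ring
  rw [h2] at h1
  have h3 : Real.log (w⁻¹).re = Real.log w.re - 2 * Real.log ‖w‖ := by
    rw [hinv, Real.log_div hw.ne' hn.ne', Complex.normSq_eq_norm_sq, Real.log_pow]
    push_cast
    ring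
  unfold HH
  rw [h3]
  linarith

/-- the invariant function on the upper half plane -/
noncomputable def Hh (τ : ℍ) : ℝ := HH (-I * (τ : ℂ))

lemma re_neg_I (τ : ℂ) : (-I * τ).re = τ.im := by simp

lemma Hh_T (τ : ℍ) : Hh (ModularGroup.T • τ) = Hh τ := by
  unfold Hh
  rw [UpperHalfPlane.modular_T_smul]
  have h : (-I * (((1 : ℝ) +ᵥ τ : ℍ) : ℂ)) + I = -I * (τ : ℂ) := by
    rw [UpperHalfPlane.coe_vadd]
    push_cast
    ring
  rw [← h, HH_add_I]

lemma Hh_S (τ : ℍ) : Hh (ModularGroup.S • τ) = Hh τ := by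
  unfold Hh
  rw [UpperHalfPlane.modular_S_smul]
  have h : -I * (((⟨(-(τ : ℂ))⁻¹, τ.im_inv_neg_coe_pos⟩ : ℍ) : ℂ)) = (-I * (τ : ℂ))⁻¹ := by
    have hτ : (τ : ℂ) ≠ 0 := UpperHalfPlane.ne_zero τ
    show -I * (-(τ : ℂ))⁻¹ = (-I * (τ : ℂ))⁻¹
    rw [mul_inv, inv_neg, inv_neg, inv_I]
    ring
  have h' : -I * ((UpperHalfPlane.mk (-(τ : ℂ))⁻¹ τ.im_inv_neg_coe_pos : ℍ) : ℂ) = (-I * (τ : ℂ))⁻¹ := h
  rw [h', HH_inv]
  rw [re_neg_I]
  exact τ.im_pos

lemma Hh_smul (g : SL(2, ℤ)) (τ : ℍ) : Hh (g • τ) = Hh τ := by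
  have : g ∈ Subgroup.closure {ModularGroup.S, ModularGroup.T} := by
    simp [SpecialLinearGroup.SL2Z_generators]
  induction this using Subgroup.closure_induction generalizing τ with
  | one => rw [one_smul]
  | mem g hg =>
      simp only [Set.mem_insert_iff, Set.mem_singleton_iff] at hg
      rcases hg with rfl | rfl
      · exact Hh_S τ
      · exact Hh_T τ
  | mul g h _ _ ig ih => rw [mul_smul, ig, ih]
  | inv g _ ig =>
      have := ig (g⁻¹ • τ)
      rw [smul_inv_smul] at this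
      exact this.symm

/-- the point of the upper half plane belonging to `w` -/
noncomputable def up (w : ℂ) (hw : 0 < w.re) : ℍ := ⟨I * w, by simpa using hw⟩

lemma Hh_up {w : ℂ} (hw : 0 < w.re) : Hh (up w hw) = HH w := by
  unfold Hh
  have : -I * ((up w hw : ℍ) : ℂ) = w := by
    show -I * (I * w) = w
    linear_combination (-w) * I_sq
  rw [this]

lemma im_smul_up (g : SL(2, ℤ)) {w : ℂ} (hw : 0 < w.re) : (g • (up w hw)).im =
    w.re / (((g 1 1 : ℤ) - (g 1 0 : ℤ) * w.im) ^ 2 + ((g 1 0 : ℤ) * w.re) ^ 2) := by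
  rw [ModularGroup.im_smul_eq_div_normSq, ModularGroup.denom_apply]
  have h1 : (up w hw).im = w.re := by
    show (I * w).im = w.re
    simp
  have h2 : ((up w hw : ℍ) : ℂ) = I * w := rfl
  rw [h1, h2]
  congr 1
  rw [Complex.normSq_apply]
  simp
  ring

/-- every pair of coprime integers gives a transformation -/
lemma HH_rep {c d : ℤ} (h : IsCoprime c d) {w : ℂ} (hw : 0 < w.re) : ∃ w' : ℂ,
    w'.re = w.re / ((d - c * w.im) ^ 2 + (c * w.re) ^ 2) ∧ 0 < w'.re ∧ HH w' = HH w := by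
  obtain ⟨g, hg1, hg2⟩ := h.exists_SL2_row 1
  refine ⟨-I * ((g • (up w hw) : ℍ) : ℂ), ?_, ?_, ?_⟩
  · rw [re_neg_I]
    have := im_smul_up g hw
    rw [hg1, hg2] at this
    exact this
  · rw [re_neg_I]
    exact (g • (up w hw)).im_pos
  · have := Hh_smul g (up w hw)
    rw [Hh_up] at this
    exact this

/-- the transformation into the fundamental domain -/
lemma exists_fd {w : ℂ} (hw : 0 < w.re) : ∃ c d : ℤ, IsCoprime c d ∧
    3 ≤ 4 * (w.re / ((d - c * w.im) ^ 2 + (c * w.re) ^ 2)) ^ 2 := by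
  obtain ⟨g, hg⟩ := ModularGroup.exists_smul_mem_fd (up w hw)
  refine ⟨g 1 0, g 1 1, ?_, ?_⟩
  · exact Matrix.SpecialLinearGroup.isCoprime_row g 1
  · have h := ModularGroup.three_le_four_mul_im_sq_of_mem_fd hg
    rw [im_smul_up g hw] at h
    exact h

end Pool.Agent.N809.BP
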