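import Pool.Agent.N809.BP.Gen

/-!
# The product formula
-/

set_option autoImplicit false

namespace Pool.Agent.N809.BP

open Complex Finset Filter Topology
open scoped Real ArithmeticFunction.sigma
open Pool.Agent.N809.DA

lemma summable_dbl {z : ℂ} (hz : ‖z‖ < 1) :
    Summable fun c : ℕ+ × ℕ+ => z ^ (c.1 * c.2 : ℕ) / (c.2 : ℂ) := by
  have h := (summable_prod_mul_pow 0 hz).norm
  refine Summable.of_norm_bounded h fun c => ?_
  rw [pow_zero, one_mul, norm_div]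
  refine div_le_self (norm_nonneg _) ?_
  have h1 : ‖((c.2 : ℕ) : ℂ)‖ = ((c.2 : ℕ) : ℝ) := Complex.norm_natCast _
  rw [h1]
  exact_mod_cast c.2.pos

lemma inner_sum (z : ℂ) (n : ℕ) (hn : 0 < n) :
    ∑ x ∈ n.divisorsAntidiagonal, z ^ (x.1 * x.2) / (x.2 : ℂ) = (σ 1 n : ℂ) / n * z ^ n := by
  have hn' : (n : ℂ) ≠ 0 := by exact_mod_cast hn.ne'
  rw [Nat.sum_divisorsAntidiagonal (fun x y => z ^ (x * y) / (y : ℂ)), ArithmeticFunction.sigma_one_apply]
  push_cast
  rw [Finset.sum_div, Finset.sum_mul]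
  refine Finset.sum_congr rfl fun i hi => ?_
  have hi' := Nat.dvd_of_mem_divisors hi
  have hi0 : i ≠ 0 := (Nat.pos_of_mem_divisors hi).ne'
  have hi1 : (i : ℂ) ≠ 0 := by exact_mod_cast hi0
  rw [Nat.mul_div_cancel' hi', Nat.cast_div hi' hi1]
  field_simp

lemma tsum_dbl {z : ℂ} (hz : ‖z‖ < 1) :
    ∑' c : ℕ+ × ℕ+, z ^ (c.1 * c.2 : ℕ) / (c.2 : ℂ) = psi z := by
  have hs : Summable fun c : (Σ n : ℕ+, Nat.divisorsAntidiagonal n) =>
      z ^ ((sigmaAntidiagonalEquivProd c).1 * (sigmaAntidiagonalEquivProd c).2 : ℕ) /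
        ((sigmaAntidiagonalEquivProd c).2 : ℂ) :=
    (sigmaAntidiagonalEquivProd.summable_iff (f := fun c : ℕ+ × ℕ+ => z ^ (c.1 * c.2 : ℕ) / (c.2 : ℂ))).mpr
      (summable_dbl hz)
  rw [← sigmaAntidiagonalEquivProd.tsum_eq, Summable.tsum_sigma hs]
  have h1 : ∀ n : ℕ+, ∑' c : Nat.divisorsAntidiagonal n,
      z ^ ((sigmaAntidiagonalEquivProd ⟨n, c⟩).1 * (sigmaAntidiagonalEquivProd ⟨n, c⟩).2 : ℕ) /
        ((sigmaAntidiagonalEquivProd ⟨n, c⟩).2 : ℂ) = (σ 1 n : ℂ) / (n : ℕ) * z ^ (n : ℕ) := by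
    intro n
    rw [tsum_fintype, Finset.univ_eq_attach, ← inner_sum z n n.pos]
    exact (n : ℕ).divisorsAntidiagonal.sum_attach (fun x : ℕ × ℕ => z ^ (x.1 * x.2) / (x.2 : ℂ))
  rw [tsum_congr h1, tsum_pnat_eq_tsum_succ (f := fun n : ℕ => (σ 1 n : ℂ) / (n : ℕ) * z ^ (n : ℕ))]
  unfold psi
  refine tsum_congr fun k => ?_
  push_cast
  rfl

lemma hasSum_log {z : ℂ} (hz : ‖z‖ < 1) : HasSum (fun n : ℕ => -Complex.log (1 - z ^ n)) (psi z) := by
  have h1 := (summable_dbl hz).hasSum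
  rw [tsum_dbl hz] at h1
  have h2 := h1.prod_fiberwise (g := fun n : ℕ+ => -Complex.log (1 - z ^ (n : ℕ))) (fun n => by
    have hn : ‖z ^ (n : ℕ)‖ < 1 := by
      rw [norm_pow]
      exact pow_lt_one₀ (norm_nonneg z) hz n.ne_zero
    have h3 := Complex.hasSum_taylorSeries_neg_log hn
    have h4 : HasSum ((fun m : ℕ => (z ^ (n : ℕ)) ^ m / (m : ℂ)) ∘ (fun m : ℕ+ => (m : ℕ)))
        (-Complex.log (1 - z ^ (n : ℕ))) := by
      refine (Function.Injective.hasSum_iff PNat.coe_injective ?_).mpr h3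
      intro m hm
      have : m = 0 := by
        by_contra h
        exact hm ⟨⟨m, Nat.pos_of_ne_zero h⟩, rfl⟩
      rw [this]
      simp
    refine h4.congr_fun ?_
    intro m
    simp only [Function.comp]
    rw [← pow_mul])
  have h3 : HasSum ((fun n : ℕ => -Complex.log (1 - z ^ n)) ∘ (fun n : ℕ+ => (n : ℕ))) (psi z) := h2
  refine (Function.Injective.hasSum_iff PNat.coe_injective ?_).mp h3
  intro m hm
  have : m = 0 := by
    by_contra h
    exact hm ⟨⟨m, Nat.pos_of_ne_zero h⟩, rfl⟩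
  rw [this]
  simp

lemma one_sub_pow_ne {z : ℂ} (hz : ‖z‖ < 1) (n : ℕ) : 1 - z ^ (n + 1) ≠ 0 := by
  have h : ‖z ^ (n + 1)‖ < 1 := by
    rw [norm_pow]
    exact pow_lt_one₀ (norm_nonneg z) hz (Nat.succ_ne_zero n)
  intro h0
  have : z ^ (n + 1) = 1 := (sub_eq_zero.mp h0).symm
  rw [this, norm_one] at h
  exact lt_irrefl _ h

/-- the partial products of `∏ (1 - z^(n+1))` -/
noncomputable def GP (z : ℂ) (N : ℕ) : ℂ := ∏ n ∈ range N, (1 - z ^ (n + 1))

lemma tendsto_GP {z : ℂ} (hz : ‖z‖ < 1) : Tendsto (GP z) atTop (𝓝 (cexp (-psi z))) := by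
  have h1 := (hasSum_log hz).tendsto_sum_nat
  have h2 := (Complex.continuous_exp.tendsto _).comp (h1.comp (tendsto_add_atTop_nat 1)).neg
  refine h2.congr fun N => ?_
  simp only [Function.comp]
  rw [Finset.sum_range_succ', Finset.sum_neg_distrib, pow_zero, sub_self, Complex.log_zero, neg_zero, add_zero,
    neg_neg, Complex.exp_sum, GP]
  exact Finset.prod_congr rfl fun n _ => Complex.exp_log (one_sub_pow_ne hz n)

lemma GP_split (z : ℂ) (N : ℕ) :
    (∏ k ∈ range N, (1 - z ^ (3 * k + 1)) * (1 - z ^ (3 * k + 2))) * GP (z ^ 3) N = GP z (3 * N) := by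
  induction N with
  | zero => simp [GP]
  | succ N ih =>
    have h1 : GP z (3 * (N + 1)) = GP z (3 * N) * (1 - z ^ (3 * N + 1)) * (1 - z ^ (3 * N + 2)) *
        (1 - z ^ (3 * N + 3)) := by
      rw [GP, show 3 * (N + 1) = 3 * N + 1 + 1 + 1 by ring, Finset.prod_range_succ,
        Finset.prod_range_succ, Finset.prod_range_succ]
      rfl
    have h2 : GP (z ^ 3) (N + 1) = GP (z ^ 3) N * (1 - z ^ (3 * N + 3)) := by
      rw [GP, Finset.prod_range_succ, ← pow_mul, show 3 * (N + 1) = 3 * N + 3 by ring]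
      rfl
    rw [h1, h2, ← ih, Finset.prod_range_succ]
    ring

lemma GP_ne {z : ℂ} (hz : ‖z‖ < 1) (N : ℕ) : GP z N ≠ 0 :=
  Finset.prod_ne_zero_iff.mpr fun n _ => one_sub_pow_ne hz n

lemma norm_cube_lt {z : ℂ} (hz : ‖z‖ < 1) : ‖z ^ 3‖ < 1 := by
  rw [norm_pow]
  exact pow_lt_one₀ (norm_nonneg z) hz (by norm_num)

lemma tendsto_borwein {z : ℂ} (hz : ‖z‖ < 1) :
    Tendsto (fun N => ∏ k ∈ range N, (1 - z ^ (3 * k + 1)) * (1 - z ^ (3 * k + 2))) atTop
      (𝓝 (cexp (psi (z ^ 3) - psi z))) := by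
  have hz3 := norm_cube_lt hz
  have h1 : Tendsto (fun N : ℕ => 3 * N) atTop atTop :=
    tendsto_atTop_mono (fun N => by simp only [id]; omega) tendsto_id
  have h2 := ((tendsto_GP hz).comp h1).div (tendsto_GP hz3) (Complex.exp_ne_zero _)
  have h3 : cexp (-psi z) / cexp (-psi (z ^ 3)) = cexp (psi (z ^ 3) - psi z) := by
    rw [← Complex.exp_sub]
    congr 1
    ring
  rw [h3] at h2
  refine h2.congr fun N => ?_
  simp only [Function.comp, Pi.div_apply]
  rw [← GP_split, mul_div_assoc, div_self (GP_ne hz3 N), mul_one]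

lemma multipliable_real {q : ℝ} (hq : |q| < 1) :
    Multipliable (fun k : ℕ => (1 - q ^ (3 * k + 1)) * (1 - q ^ (3 * k + 2))) := by
  have h1 : Multipliable (fun k : ℕ => 1 + (-q ^ (3 * k + 1))) := by
    apply multipliable_one_add_of_summable
    refine Summable.of_nonneg_of_le (fun _ => norm_nonneg _) (fun k => ?_)
      (summable_geometric_of_lt_one (abs_nonneg q) hq)
    rw [norm_neg, norm_pow, Real.norm_eq_abs]
    exact pow_le_pow_of_le_one (abs_nonneg q) hq.le (by omega)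
  have h2 : Multipliable (fun k : ℕ => 1 + (-q ^ (3 * k + 2))) := by
    apply multipliable_one_add_of_summable
    refine Summable.of_nonneg_of_le (fun _ => norm_nonneg _) (fun k => ?_)
      (summable_geometric_of_lt_one (abs_nonneg q) hq)
    rw [norm_neg, norm_pow, Real.norm_eq_abs]
    exact pow_le_pow_of_le_one (abs_nonneg q) hq.le (by omega)
  refine (h1.mul h2).congr fun k => ?_
  ring

/-- The product formula for real `q`. -/
lemma borwein_real {q : ℝ} (hq : |q| < 1) :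
    ∏' k : ℕ, (1 - q ^ (3 * k + 1)) * (1 - q ^ (3 * k + 2)) = Real.exp (psiR (q ^ 3) - psiR q) := by
  have h1 := (multipliable_real hq).hasProd.tendsto_prod_nat
  have hz : ‖(q : ℂ)‖ < 1 := by rwa [Complex.norm_real, Real.norm_eq_abs]
  have h2 := tendsto_borwein hz
  have h3 : cexp (psi ((q : ℂ) ^ 3) - psi q) = ((Real.exp (psiR (q ^ 3) - psiR q) : ℝ) : ℂ) := by
    rw [Complex.ofReal_exp, Complex.ofReal_sub, ← psi_ofReal, ← psi_ofReal, Complex.ofReal_pow]
  rw [h3] at h2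
  have h4 := (Complex.continuous_re.tendsto _).comp h2
  rw [Complex.ofReal_re] at h4
  refine tendsto_nhds_unique h1 (h4.congr fun N => ?_)
  simp only [Function.comp]
  have h5 : (∏ k ∈ range N, (1 - (q : ℂ) ^ (3 * k + 1)) * (1 - (q : ℂ) ^ (3 * k + 2))) =
      ((∏ k ∈ range N, (1 - q ^ (3 * k + 1)) * (1 - q ^ (3 * k + 2)) : ℝ) : ℂ) := by
    push_cast
    rfl
  rw [h5, Complex.ofReal_re]

end Pool.Agent.N809.BP
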